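import Pool.Agent.N62.Met

set_option autoImplicit false

namespace Pool.Agent.N62

open LaurentPolynomial
open scoped commutatorElement

/-- affine maps `v ↦ μ v + w` -/
@[ext]
structure Af (k : Type) [Field k] where
  v : k
  μ : kˣ

section
variable {k : Type} [Field k]

instance : Mul (Af k) := ⟨fun a b => ⟨a.v + a.μ * b.v, a.μ * b.μ⟩⟩
instance : One (Af k) := ⟨⟨0, 1⟩⟩
instance : Inv (Af k) := ⟨fun a => ⟨-(((a.μ⁻¹ : kˣ) : k) * a.v), a.μ⁻¹⟩⟩

theorem Af.mul_v (a b : Af k) : (a * b).v = a.v + a.μ * b.v := rfl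
theorem Af.mul_μ (a b : Af k) : (a * b).μ = a.μ * b.μ := rfl
theorem Af.one_v : (1 : Af k).v = 0 := rfl
theorem Af.one_μ : (1 : Af k).μ = 1 := rfl
theorem Af.inv_v (a : Af k) : (a⁻¹).v = -(((a.μ⁻¹ : kˣ) : k) * a.v) := rfl
theorem Af.inv_μ (a : Af k) : (a⁻¹).μ = a.μ⁻¹ := rfl

instance : Group (Af k) :=
  Group.ofLeftAxioms
    (by
      intro a b c
      ext1
      · rw [Af.mul_v, Af.mul_v, Af.mul_μ, Af.mul_v, Af.mul_v, Units.val_mul]; ring
      · rw [Af.mul_μ, Af.mul_μ, Af.mul_μ, Af.mul_μ, mul_assoc])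
    (by
      intro a
      ext1
      · rw [Af.mul_v, Af.one_v, Af.one_μ, Units.val_one, zero_add, one_mul]
      · rw [Af.mul_μ, Af.one_μ, one_mul])
    (by
      intro a
      ext1
      · rw [Af.mul_v, Af.inv_v, Af.inv_μ, Af.one_v, neg_add_cancel]
      · rw [Af.mul_μ, Af.inv_μ, Af.one_μ, inv_mul_cancel])

end

theorem exists_hom {G : Type} [Group G] {x y : G} {X : ℤ[T;T⁻¹] → G} {m : Ideal ℤ[T;T⁻¹]}
    (h : MetData x y X m) : ∃ (k : Type) (_ : Field k) (_ : Finite k) (l : kˣ)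
      (π : ↥(Subgroup.closure ({x, y} : Set G)) →* Af k), l ≠ 1 ∧
      (∀ d, (∀ u, d * u = u * d) → π d = 1) ∧ (∀ v : k, (⟨v, 1⟩ : Af k) ∈ π.range) ∧
      (⟨0, l⟩ : Af k) ∈ π.range := by
  have hmax := h.max
  let F : Field (ℤ[T;T⁻¹] ⧸ m) := Ideal.Quotient.field m
  let q : ℤ[T;T⁻¹] →+* ℤ[T;T⁻¹] ⧸ m := Ideal.Quotient.mk m
  have hq : Function.Surjective q := Ideal.Quotient.mk_surjective
  have hqs : ∀ r s, q r = q s ↔ r - s ∈ m := fun r s => Ideal.Quotient.mk_eq_mk_iff_sub_mem r s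
  let l : (ℤ[T;T⁻¹] ⧸ m)ˣ := ⟨q (T 1), q (T (-1)), by
    rw [← map_mul, ← T_add, add_neg_cancel, T_zero, map_one], by
    rw [← map_mul, ← T_add, neg_add_cancel, T_zero, map_one]⟩
  have hlT : (l : ℤ[T;T⁻¹] ⧸ m) = q (T 1) := rfl
  have hl' : ((l⁻¹ : (ℤ[T;T⁻¹] ⧸ m)ˣ) : ℤ[T;T⁻¹] ⧸ m) = q (T (-1)) := rfl
  have hl1 : l ≠ 1 := by
    intro h1
    apply h.T1
    rw [← hqs, map_one, ← hlT, h1, Units.val_one]
  have hl1' : (1 : ℤ[T;T⁻¹] ⧸ m) - l ≠ 0 := by
    intro h1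
    apply hl1
    apply Units.ext
    rw [Units.val_one]
    exact (sub_eq_zero.1 h1).symm
  -- facts on `X`
  have X0 : X 0 = 1 := by
    have h1 := h.add 0 0
    rw [add_zero] at h1
    exact left_eq_mul.1 h1
  have Xneg : ∀ r, X (-r) = (X r)⁻¹ := by
    intro r
    have h1 := h.add (-r) r
    rw [neg_add_cancel, X0] at h1
    exact eq_inv_of_mul_eq_one_left h1.symm
  have Xcomm : ∀ r s, X r * X s = X s * X r := by
    intro r s
    rw [← h.add, ← h.add, add_comm]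
  have Xact' : ∀ r, y⁻¹ * X r * y = X (T (-1) * r) := by
    intro r
    have h1 := h.act (T (-1) * r)
    rw [← mul_assoc, ← T_add, add_neg_cancel, T_zero, one_mul] at h1
    rw [← h1]; group
  have hwd : ∀ r s, X r = X s → q r = q s := fun r s hrs => (hqs r s).2 (h.wd r s hrs)
  -- the relation
  let rel : G → Af (ℤ[T;T⁻¹] ⧸ m) → Prop := fun d a =>
    (∀ r, ∃ r', d * X r * d⁻¹ = X r' ∧ q r' = a.μ * q r) ∧ (∃ r, ⁅d, y⁆ = X r ∧
      q r = (1 - (l : ℤ[T;T⁻¹] ⧸ m)) * a.v)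
  have relmul : ∀ d d' a a', rel d a → rel d' a' → rel (d * d') (a * a') := by
    rintro d d' a a' ⟨h1, r, h2, h3⟩ ⟨h1', r', h2', h3'⟩
    refine ⟨fun s => ?_, ?_⟩
    · obtain ⟨s', hs', hs''⟩ := h1' s
      obtain ⟨s2, hs2, hs2'⟩ := h1 s'
      refine ⟨s2, ?_, ?_⟩
      · rw [← hs2, ← hs']; group
      · rw [hs2', hs'', Af.mul_μ, Units.val_mul, mul_assoc]
    · obtain ⟨s', hs', hs''⟩ := h1 r'
      refine ⟨s' + r, ?_, ?_⟩
      · rw [h.add, ← hs', ← h2, ← h2', commutatorElement_def, commutatorElement_def,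
          commutatorElement_def]
        group
      · rw [map_add, hs'', h3, h3', Af.mul_v]
        ring
  have reluniq : ∀ d a a', rel d a → rel d a' → a = a' := by
    rintro d a a' ⟨h1, r, h2, h3⟩ ⟨h1', r', h2', h3'⟩
    ext1
    · have h4 : q r = q r' := hwd r r' (by rw [← h2, ← h2'])
      rw [h3, h3'] at h4
      exact mul_left_cancel₀ hl1' h4
    · obtain ⟨s, hs, hs'⟩ := h1 1
      obtain ⟨s2, hs2, hs2'⟩ := h1' 1
      have h4 : q s = q s2 := hwd s s2 (by rw [← hs, ← hs2])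
      rw [hs', hs2', map_one, mul_one, mul_one] at h4
      exact Units.ext h4
  have relX : ∀ r, rel (X r) ⟨q r, 1⟩ := by
    intro r
    refine ⟨fun s => ⟨s, ?_, ?_⟩, r - T 1 * r, ?_, ?_⟩
    · rw [Xcomm]; group
    · rw [Units.val_one, one_mul]
    · rw [sub_eq_add_neg, h.add, Xneg, ← h.act, commutatorElement_def]; group
    · rw [map_sub, map_mul, ← hlT]; ring
  have rely : rel y ⟨0, l⟩ := by
    refine ⟨fun s => ⟨T 1 * s, h.act s, ?_⟩, 0, ?_, ?_⟩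
    · rw [map_mul]
    · rw [X0, commutatorElement_self]
    · rw [map_zero, mul_zero]
  have rely' : rel y⁻¹ ⟨0, l⁻¹⟩ := by
    refine ⟨fun s => ⟨T (-1) * s, ?_, ?_⟩, 0, ?_, ?_⟩
    · rw [inv_inv]; exact Xact' s
    · rw [map_mul]; rfl
    · rw [X0, commutatorElement_def]; group
    · rw [map_zero, mul_zero]
  have relex : ∀ d ∈ Subgroup.closure ({x, y} : Set G), (∃ a, rel d a) ∧ (∃ a, rel d⁻¹ a) := by
    intro d hd
    induction hd using Subgroup.closure_induction with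
    | mem d hd =>
      rcases hd with rfl | hd
      · have h1 := relX 1
        have h2 := relX (-1)
        rw [Xneg, h.X1] at h2
        rw [h.X1] at h1
        exact ⟨⟨_, h1⟩, ⟨_, h2⟩⟩
      · rw [Set.mem_singleton_iff] at hd
        subst hd
        exact ⟨⟨_, rely⟩, ⟨_, rely'⟩⟩
    | one =>
      have h1 := relX 0
      rw [X0] at h1
      exact ⟨⟨_, h1⟩, ⟨⟨q 0, 1⟩, by rw [inv_one]; exact h1⟩⟩
    | mul a b _ _ ha hb =>
      obtain ⟨⟨a1, ha1⟩, a2, ha2⟩ := ha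
      obtain ⟨⟨b1, hb1⟩, b2, hb2⟩ := hb
      refine ⟨⟨_, relmul _ _ _ _ ha1 hb1⟩, ?_⟩
      rw [mul_inv_rev]
      exact ⟨_, relmul _ _ _ _ hb2 ha2⟩
    | inv a _ ha =>
      refine ⟨ha.2, ?_⟩
      rw [inv_inv]; exact ha.1
  choose φ hφ using fun d : ↥(Subgroup.closure ({x, y} : Set G)) => (relex d.1 d.2).1
  let π : ↥(Subgroup.closure ({x, y} : Set G)) →* Af (ℤ[T;T⁻¹] ⧸ m) :=
    { toFun := φ
      map_one' := by
        apply reluniq 1 _ _ (hφ 1)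
        have h1 := relX 0
        rw [X0, map_zero] at h1
        exact h1
      map_mul' := fun a b => reluniq _ _ _ (hφ (a * b)) (relmul _ _ _ _ (hφ a) (hφ b)) }
  have hπ : ∀ (d : ↥(Subgroup.closure ({x, y} : Set G))) (a : Af (ℤ[T;T⁻¹] ⧸ m)),
      rel (d : G) a → π d = a := fun d a hda => reluniq _ _ _ (hφ d) hda
  refine ⟨ℤ[T;T⁻¹] ⧸ m, F, h.fin, l, π, hl1, ?_, ?_, ?_⟩
  · intro d hd
    obtain ⟨h1, r, h2, h3⟩ := hφ d
    have hdc : ∀ u ∈ Subgroup.closure ({x, y} : Set G), (d : G) * u = u * d := fun u hu =>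
      congrArg Subtype.val (hd ⟨u, hu⟩)
    change φ d = 1
    ext1
    · have h4 : ⁅(d : G), y⁆ = X 0 := by
        rw [X0, commutatorElement_eq_one_iff_mul_comm]
        exact hdc y (Subgroup.subset_closure (by simp))
      have h5 : q r = q 0 := hwd r 0 (by rw [← h2, h4])
      rw [h3, map_zero] at h5
      exact (mul_eq_zero.1 h5).resolve_left hl1'
    · obtain ⟨s, hs, hs'⟩ := h1 1
      have h4 : (d : G) * X 1 * (d : G)⁻¹ = X 1 := by
        rw [hdc (X 1) (h.mem 1)]; group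
      have h5 : q s = q 1 := hwd s 1 (by rw [← hs, h4])
      rw [hs', map_one, mul_one] at h5
      exact Units.ext h5
  · intro v
    obtain ⟨r, rfl⟩ := hq v
    exact ⟨⟨X r, h.mem r⟩, hπ ⟨X r, h.mem r⟩ _ (relX r)⟩
  · exact ⟨⟨y, Subgroup.subset_closure (by simp)⟩, hπ ⟨y, Subgroup.subset_closure (by simp)⟩ _ rely⟩

end Pool.Agent.N62
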