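import Pool.Agent.H53R2.SUI

set_option autoImplicit false

namespace Pool.Agent.N62

open Pool.Agent.H53R2
open scoped commutatorElement

/-- a triple violating every conjugate law -/
def Bad {G : Type} [Group G] (b m t : G) : Prop :=
  ⁅b, m⁆ ≠ 1 ∧ ∀ j : ℤ, j ≠ 0 → ⁅b, t ^ j * m * t ^ (-j)⁆ = 1

theorem not_grp_of_bad {G : Type} [Group G] {b m t : G} (h : Bad b m t) (u : UI) : ¬ u.Grp G := by
  intro hu
  apply h.1
  rw [hu b m t]
  have h1 : (List.ofFn fun k : Fin u.n => FreeGroup.lift ![b, m, t] (u.w k) *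
      ⁅b, t ^ (u.i k) * m * t ^ (-(u.i k))⁆ ^ (u.e k) *
      (FreeGroup.lift ![b, m, t] (u.w k))⁻¹) = List.ofFn fun _ : Fin u.n => (1 : G) := by
    congr 1
    funext k
    rw [h.2 _ (u.hi k), one_zpow, mul_one, mul_inv_cancel]
  rw [h1]
  simp

theorem InVar.prod {W : Set (FreeGroup ℕ)} {G H : Type} [Group G] [Group H] (hG : InVar W G)
    (hH : InVar W H) : InVar W (G × H) := by
  intro w hw f
  have h1 : ((MonoidHom.fst G H).comp (FreeGroup.lift f)) = FreeGroup.lift (fun n => (f n).1) := by
    apply FreeGroup.ext_hom; intro n; simp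
  have h2 : ((MonoidHom.snd G H).comp (FreeGroup.lift f)) = FreeGroup.lift (fun n => (f n).2) := by
    apply FreeGroup.ext_hom; intro n; simp
  ext
  · have h3 := congrArg (fun φ => φ w) h1
    exact h3.trans (hG w hw _)
  · have h3 := congrArg (fun φ => φ w) h2
    exact h3.trans (hH w hw _)

theorem InVar.pi {W : Set (FreeGroup ℕ)} {ι : Type} {G : ι → Type} [∀ i, Group (G i)]
    (hG : ∀ i, InVar W (G i)) : InVar W (∀ i, G i) := by
  intro w hw f
  funext i
  have h1 : ((Pi.evalMonoidHom G i).comp (FreeGroup.lift f)) = FreeGroup.lift (fun n => f n i) := by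
    apply FreeGroup.ext_hom; intro n; simp
  exact (congrArg (fun φ => φ w) h1).trans (hG i w hw _)

/-- the relation principle -/
theorem InVar.rel {W : Set (FreeGroup ℕ)} {G H : Type} [Group G] [Group H] (hG : InVar W G)
    (S : Subgroup (G × H)) (h1 : ∀ h : H, ∃ g : G, (g, h) ∈ S) (h2 : ∀ h : H, (1, h) ∈ S → h = 1) :
    InVar W H := by
  intro w hw f
  choose s hs using fun n => h1 (f n)
  have h3 : ∀ v : FreeGroup ℕ, (FreeGroup.lift s v, FreeGroup.lift f v) ∈ S := by
    intro v
    have h4 : FreeGroup.lift (fun n => (⟨(s n, f n), hs n⟩ : ↥S)) v =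
        (⟨(FreeGroup.lift s v, FreeGroup.lift f v), by
          have h5 : (FreeGroup.lift s).prod (FreeGroup.lift f) =
              S.subtype.comp (FreeGroup.lift (fun n => (⟨(s n, f n), hs n⟩ : ↥S))) := by
            apply FreeGroup.ext_hom; intro n; simp
          have h6 := congrArg (fun φ => φ v) h5
          change (FreeGroup.lift s v, FreeGroup.lift f v) = _ at h6
          rw [h6]
          exact (FreeGroup.lift (fun n => (⟨(s n, f n), hs n⟩ : ↥S)) v).2⟩ : ↥S) := by
      apply Subtype.ext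
      have h5 : (FreeGroup.lift s).prod (FreeGroup.lift f) =
          S.subtype.comp (FreeGroup.lift (fun n => (⟨(s n, f n), hs n⟩ : ↥S))) := by
        apply FreeGroup.ext_hom; intro n; simp
      exact (congrArg (fun φ => φ v) h5).symm
    have h7 := (FreeGroup.lift (fun n => (⟨(s n, f n), hs n⟩ : ↥S)) v).2
    rw [h4] at h7
    exact h7
  apply h2
  have h8 := h3 w
  rwa [hG w hw s] at h8

theorem exists_bad (W : Set (FreeGroup ℕ))
    (h : ¬ ∃ u : UI, ∀ (G : Type) [Group G], InVar W G → u.Grp G) :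
    ∃ (G : Type) (_ : Group G), InVar W G ∧ ∃ b m t : G, Bad b m t := by
  set N : Subgroup (RF W 3) := Subgroup.normalClosure
    {x : RF W 3 | ∃ j : ℤ, j ≠ 0 ∧
      x = ⁅(RF.gen W 0 : RF W 3), RF.gen W 2 ^ j * RF.gen W 1 * RF.gen W 2 ^ (-j)⁆} with hN
  have h1 : ⁅(RF.gen W 0 : RF W 3), RF.gen W 1⁆ ∉ N := fun h1 => h (M_extract W h1)
  refine ⟨RF W 3 ⧸ N, inferInstance, (RF_inVar W 3).quot N, QuotientGroup.mk' N (RF.gen W 0),
    QuotientGroup.mk' N (RF.gen W 1), QuotientGroup.mk' N (RF.gen W 2), ?_, ?_⟩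
  · rw [← map_commutatorElement]
    intro h2
    exact h1 ((QuotientGroup.eq_one_iff _).1 h2)
  · intro j hj
    rw [← map_zpow, ← map_zpow, ← map_mul, ← map_mul, ← map_commutatorElement]
    exact (QuotientGroup.eq_one_iff _).2 (Subgroup.subset_normalClosure ⟨j, hj, rfl⟩)

/-- conjugate by `t ^ i` -/
def cj {G : Type} [Group G] (t : G) (i : ℤ) (x : G) : G := t ^ i * x * t ^ (-i)

theorem cj_zero {G : Type} [Group G] (t x : G) : cj t 0 x = x := by simp [cj]

theorem cj_add {G : Type} [Group G] (t : G) (i j : ℤ) (x : G) :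
    cj t (i + j) x = cj t i (cj t j x) := by
  unfold cj
  rw [neg_add, zpow_add, zpow_add]
  group

theorem cj_mul {G : Type} [Group G] (t : G) (i : ℤ) (x y : G) :
    cj t i (x * y) = cj t i x * cj t i y := by
  unfold cj
  group

theorem cj_inv {G : Type} [Group G] (t : G) (i : ℤ) (x : G) : cj t i x⁻¹ = (cj t i x)⁻¹ := by
  unfold cj
  group

theorem cj_one {G : Type} [Group G] (t : G) (i : ℤ) : cj t i 1 = 1 := by
  unfold cj
  group

theorem cj_comm {G : Type} [Group G] (t : G) (i : ℤ) (x y : G) :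
    cj t i ⁅x, y⁆ = ⁅cj t i x, cj t i y⁆ := by
  rw [commutatorElement_def, commutatorElement_def, cj_mul, cj_mul, cj_mul, cj_inv, cj_inv]

theorem cj_eq_one {G : Type} [Group G] (t : G) (i : ℤ) (x : G) : cj t i x = 1 ↔ x = 1 := by
  unfold cj
  constructor
  · intro h
    have : x = t ^ (-i) * (t ^ i * x * t ^ (-i)) * t ^ i := by group
    rw [this, h]; group
  · rintro rfl; group

theorem cj_inj {G : Type} [Group G] (t : G) (i : ℤ) {x y : G} (h : cj t i x = cj t i y) :
    x = y := by
  have h1 : cj t i (x * y⁻¹) = 1 := by rw [cj_mul, cj_inv, h, mul_inv_cancel]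
  rw [cj_eq_one] at h1
  exact mul_inv_eq_one.1 h1

theorem cj_pow {G : Type} [Group G] (t : G) (n i : ℤ) (x : G) : cj (t ^ n) i x = cj t (n * i) x := by
  unfold cj
  rw [← zpow_mul, ← zpow_mul, mul_neg]

/-- the subgroup generated by the conjugates `x^{t^i}` -/
def Cl {G : Type} [Group G] (t x : G) : Subgroup G := Subgroup.closure (Set.range fun i => cj t i x)

theorem cj_mem_Cl {G : Type} [Group G] (t x : G) (i : ℤ) : cj t i x ∈ Cl t x :=
  Subgroup.subset_closure ⟨i, rfl⟩

theorem cj_Cl {G : Type} [Group G] (t x : G) (j : ℤ) {y : G} (hy : y ∈ Cl t x) :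
    cj t j y ∈ Cl t x := by
  unfold Cl at hy ⊢
  induction hy using Subgroup.closure_induction with
  | mem y hy =>
    obtain ⟨i, rfl⟩ := hy
    exact Subgroup.subset_closure ⟨j + i, cj_add t j i x⟩
  | one => rw [cj_one]; exact Subgroup.one_mem _
  | mul a b _ _ ha hb => rw [cj_mul]; exact Subgroup.mul_mem _ ha hb
  | inv a _ ha => rw [cj_inv]; exact Subgroup.inv_mem _ ha

theorem cj_comm_Cl {G : Type} [Group G] (t x : G) (j : ℤ) {y : G} (hy : y ∈ ⁅Cl t x, Cl t x⁆) :
    cj t j y ∈ ⁅Cl t x, Cl t x⁆ := by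
  rw [Subgroup.commutator_def] at hy ⊢
  induction hy using Subgroup.closure_induction with
  | mem y hy =>
    obtain ⟨a, ha, b, hb, rfl⟩ := hy
    rw [cj_comm]
    exact Subgroup.subset_closure ⟨_, cj_Cl t x j ha, _, cj_Cl t x j hb, rfl⟩
  | one => rw [cj_one]; exact Subgroup.one_mem _
  | mul a b _ _ ha hb => rw [cj_mul]; exact Subgroup.mul_mem _ ha hb
  | inv a _ ha => rw [cj_inv]; exact Subgroup.inv_mem _ ha

theorem cj_normal {G : Type} [Group G] (N : Subgroup G) [hN : N.Normal] (t : G) (i : ℤ) {x : G}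
    (hx : x ∈ N) : cj t i x ∈ N := by
  have h := hN.conj_mem x hx (t ^ i)
  rwa [← zpow_neg] at h

theorem Cl_le {G : Type} [Group G] (N : Subgroup G) [N.Normal] (t : G) {x : G}
    (hx : x ∈ N) : Cl t x ≤ N := by
  unfold Cl
  rw [Subgroup.closure_le]
  rintro _ ⟨i, rfl⟩
  exact cj_normal N t i hx

/-- bad triples deep in the derived series -/
def BadAt (W : Set (FreeGroup ℕ)) (k l : ℕ) : Prop :=
  ∃ (G : Type) (_ : Group G), InVar W G ∧ ∃ b m t : G, Bad b m t ∧
    b ∈ derivedSeries G k ∧ m ∈ derivedSeries G l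

theorem exists_last (P : ℕ → Prop) (h0 : P 0) (d : ℕ) (hd : ¬ P d) : ∃ k, P k ∧ ¬ P (k + 1) := by
  by_contra hcon
  push Not at hcon
  apply hd
  have : ∀ k, P k := fun k => by
    induction k with
    | zero => exact h0
    | succ k ih => exact hcon k ih
  exact this d

/-- `B` and `M` nearly commute -/
theorem exists_deep (W : Set (FreeGroup ℕ)) (d : ℕ)
    (hd : ∀ (G : Type) [Group G], InVar W G → derivedSeries G d = ⊥) (h : BadAt W 0 0) :
    ∃ (G : Type) (_ : Group G), InVar W G ∧ ∃ b m t : G, Bad b m t ∧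
      (∀ w ∈ ⁅Cl t b, Cl t b⁆, ∀ v ∈ Cl t m, w * v = v * w) ∧
      (∀ v ∈ ⁅Cl t m, Cl t m⁆, ∀ w ∈ Cl t b, w * v = v * w) := by
  obtain ⟨k, hk, hk'⟩ := exists_last (fun k => BadAt W k 0) h d (by
    rintro ⟨G, _, hG, b, m, t, hbad, hb, -⟩
    rw [hd G hG, Subgroup.mem_bot] at hb
    apply hbad.1
    rw [hb, commutatorElement_one_left])
  obtain ⟨l, hl, hl'⟩ := exists_last (fun l => BadAt W k l) hk d (by
    rintro ⟨G, _, hG, b, m, t, hbad, -, hm⟩
    rw [hd G hG, Subgroup.mem_bot] at hm
    apply hbad.1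
    rw [hm, commutatorElement_one_right])
  obtain ⟨G, _, hG, b, m, t, hbad, hb, hm⟩ := hl
  have hcomm : ∀ i j : ℤ, i ≠ j → cj t i b * cj t j m = cj t j m * cj t i b := by
    intro i j hij
    have h1 := hbad.2 (j - i) (sub_ne_zero.2 hij.symm)
    have h2 : cj t i ⁅b, cj t (j - i) m⁆ = 1 := by
      rw [cj_eq_one]; exact h1
    rw [cj_comm, ← cj_add, add_sub_cancel, commutatorElement_eq_one_iff_mul_comm] at h2
    exact h2
  refine ⟨G, inferInstance, hG, b, m, t, hbad, ?_, ?_⟩
  · -- `B'` centralises `M`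
    have key : ∀ w ∈ ⁅Cl t b, Cl t b⁆, w * m = m * w := by
      intro w hw
      by_contra hne
      -- finite support
      have hsup : ∀ w ∈ Cl t b, ∃ N : ℕ, ∀ j : ℤ, (N : ℤ) < |j| →
          w * cj t j m = cj t j m * w := by
        intro w hw
        unfold Cl at hw
        induction hw using Subgroup.closure_induction with
        | mem y hy =>
          obtain ⟨i, rfl⟩ := hy
          refine ⟨i.natAbs, fun j hj => hcomm i j ?_⟩
          rintro rfl
          rw [Int.natCast_natAbs] at hj
          exact lt_irrefl _ hj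
        | one => exact ⟨0, fun j _ => by rw [one_mul, mul_one]⟩
        | mul a b _ _ ha hb =>
          obtain ⟨N₁, h₁⟩ := ha
          obtain ⟨N₂, h₂⟩ := hb
          refine ⟨max N₁ N₂, fun j hj => ?_⟩
          have h3 : (N₁ : ℤ) < |j| := lt_of_le_of_lt (by exact_mod_cast le_max_left N₁ N₂) hj
          have h4 : (N₂ : ℤ) < |j| := lt_of_le_of_lt (by exact_mod_cast le_max_right N₁ N₂) hj
          exact ((show Commute a (cj t j m) from h₁ j h3).mul_left
            (show Commute b (cj t j m) from h₂ j h4)).eq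
        | inv a _ ha =>
          obtain ⟨N₁, h₁⟩ := ha
          exact ⟨N₁, fun j hj => ((show Commute a (cj t j m) from h₁ j hj).inv_left).eq⟩
      obtain ⟨N, hN⟩ := hsup w ((Subgroup.commutator_le_self _) hw)
      apply hk'
      refine ⟨G, inferInstance, hG, w, m, t ^ ((N : ℤ) + 1), ⟨?_, ?_⟩, ?_, Subgroup.mem_top m⟩
      · rw [Ne, commutatorElement_eq_one_iff_mul_comm]
        exact hne
      · intro j hj
        change ⁅w, cj (t ^ ((N : ℤ) + 1)) j m⁆ = 1
        rw [cj_pow, commutatorElement_eq_one_iff_mul_comm]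
        apply hN
        rw [abs_mul]
        have h1 : (1 : ℤ) ≤ |j| := Int.one_le_abs hj
        have h2 : |(N : ℤ) + 1| = (N : ℤ) + 1 := abs_of_nonneg (by positivity)
        rw [h2]
        nlinarith
      · have h1 : Cl t b ≤ derivedSeries G k := Cl_le _ t hb
        exact Subgroup.commutator_mono h1 h1 hw
    intro w hw v hv
    unfold Cl at hv
    induction hv using Subgroup.closure_induction with
    | mem y hy =>
      obtain ⟨i, rfl⟩ := hy
      have h1 := key _ (cj_comm_Cl t b (-i) hw)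
      apply cj_inj t (-i)
      rw [cj_mul, cj_mul, ← cj_add, neg_add_cancel, cj_zero]
      exact h1
    | one => rw [one_mul, mul_one]
    | mul x y _ _ hx hy =>
      exact ((show Commute w x from hx).mul_right (show Commute w y from hy)).eq
    | inv x _ hx => exact ((show Commute w x from hx).inv_right).eq
  · have key : ∀ v ∈ ⁅Cl t m, Cl t m⁆, b * v = v * b := by
      intro v hv
      by_contra hne
      have hsup : ∀ v ∈ Cl t m, ∃ N : ℕ, ∀ j : ℤ, (N : ℤ) < |j| →
          b * cj t j v = cj t j v * b := by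
        intro w hw
        unfold Cl at hw
        induction hw using Subgroup.closure_induction with
        | mem y hy =>
          obtain ⟨i, rfl⟩ := hy
          refine ⟨i.natAbs, fun j hj => ?_⟩
          have h1 := hcomm 0 (j + i) (by
            intro h
            have h2 : j = -i := by omega
            rw [h2, abs_neg, Int.natCast_natAbs] at hj
            exact lt_irrefl _ hj)
          change b * cj t j (cj t i m) = cj t j (cj t i m) * b
          rw [cj_zero] at h1
          rw [← cj_add]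
          exact h1
        | one => exact ⟨0, fun j _ => by rw [cj_one, one_mul, mul_one]⟩
        | mul x y _ _ ha hb =>
          obtain ⟨N₁, h₁⟩ := ha
          obtain ⟨N₂, h₂⟩ := hb
          refine ⟨max N₁ N₂, fun j hj => ?_⟩
          have h3 : (N₁ : ℤ) < |j| := lt_of_le_of_lt (by exact_mod_cast le_max_left N₁ N₂) hj
          have h4 : (N₂ : ℤ) < |j| := lt_of_le_of_lt (by exact_mod_cast le_max_right N₁ N₂) hj
          rw [cj_mul]
          exact ((show Commute b (cj t j x) from h₁ j h3).mul_right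
            (show Commute b (cj t j y) from h₂ j h4)).eq
        | inv a _ ha =>
          obtain ⟨N₁, h₁⟩ := ha
          refine ⟨N₁, fun j hj => ?_⟩
          rw [cj_inv]
          exact ((show Commute b (cj t j a) from h₁ j hj).inv_right).eq
      obtain ⟨N, hN⟩ := hsup v ((Subgroup.commutator_le_self _) hv)
      apply hl'
      refine ⟨G, inferInstance, hG, b, v, t ^ ((N : ℤ) + 1), ⟨?_, ?_⟩, hb, ?_⟩
      · rw [Ne, commutatorElement_eq_one_iff_mul_comm]
        exact hne
      · intro j hj
        change ⁅b, cj (t ^ ((N : ℤ) + 1)) j v⁆ = 1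
        rw [cj_pow, commutatorElement_eq_one_iff_mul_comm]
        apply hN
        rw [abs_mul]
        have h1 : (1 : ℤ) ≤ |j| := Int.one_le_abs hj
        have h2 : |(N : ℤ) + 1| = (N : ℤ) + 1 := abs_of_nonneg (by positivity)
        rw [h2]
        nlinarith
      · have h1 : Cl t m ≤ derivedSeries G l := Cl_le _ t hm
        exact Subgroup.commutator_mono h1 h1 hv
    intro v hv w hw
    unfold Cl at hw
    induction hw using Subgroup.closure_induction with
    | mem y hy =>
      obtain ⟨i, rfl⟩ := hy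
      have h1 := key _ (cj_comm_Cl t m (-i) hv)
      apply cj_inj t (-i)
      rw [cj_mul, cj_mul]
      change cj t (-i) (cj t i b) * _ = _ * cj t (-i) (cj t i b)
      rw [← cj_add, neg_add_cancel, cj_zero]
      exact h1
    | one => rw [one_mul, mul_one]
    | mul x y _ _ hx hy =>
      exact ((show Commute x v from hx).mul_left (show Commute y v from hy)).eq
    | inv x _ hx => exact ((show Commute x v from hx).inv_left).eq

end Pool.Agent.N62
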