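import Pool.Agent.N62.Bad

set_option autoImplicit false

namespace Pool.Agent.N62

open Pool.Agent.H53R2
open scoped commutatorElement

/-- the group `G` contains a nonabelian subgroup `D` commuting elementwise with its conjugates
under the nonzero powers of `t`. -/
def Spread {G : Type} [Group G] (D : Subgroup G) (t : G) : Prop :=
  ∀ i : ℤ, i ≠ 0 → ∀ u ∈ D, ∀ v ∈ D, u * cj t i v = cj t i v * u

theorem spread_closure {G : Type} [Group G] (S : Set G) (t : G)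
    (h : ∀ i : ℤ, i ≠ 0 → ∀ u ∈ S, ∀ v ∈ S, u * cj t i v = cj t i v * u) :
    Spread (Subgroup.closure S) t := by
  intro i hi u hu v hv
  have h1 : ∀ u ∈ S, u * cj t i v = cj t i v * u := by
    intro u hu
    induction hv using Subgroup.closure_induction with
    | mem y hy => exact h i hi u hu y hy
    | one => rw [cj_one, one_mul, mul_one]
    | mul x y _ _ hx hy =>
      rw [cj_mul]
      exact ((show Commute u (cj t i x) from hx).mul_right (show Commute u (cj t i y) from hy)).eq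
    | inv x _ hx =>
      rw [cj_inv]
      exact ((show Commute u (cj t i x) from hx).inv_right).eq
  induction hu using Subgroup.closure_induction with
  | mem y hy => exact h1 y hy
  | one => rw [one_mul, mul_one]
  | mul x y _ _ hx hy =>
    exact ((show Commute x (cj t i v) from hx).mul_left (show Commute y (cj t i v) from hy)).eq
  | inv x _ hx => exact ((show Commute x (cj t i v) from hx).inv_left).eq

theorem exists_spread (W : Set (FreeGroup ℕ)) (d : ℕ)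
    (hd : ∀ (G : Type) [Group G], InVar W G → derivedSeries G d = ⊥) (h : BadAt W 0 0) :
    ∃ (G : Type) (_ : Group G), InVar W G ∧ ∃ (D : Subgroup G) (t : G), Spread D t ∧
      ∃ x ∈ D, ∃ y ∈ D, x * y ≠ y * x := by
  obtain ⟨G, _, hG, b, m, t, hbad, hBM, hMB⟩ := exists_deep W d hd h
  set B := Cl t b with hB
  set M := Cl t m with hM
  have hMle : ⁅M, M⁆ ≤ M := Subgroup.commutator_le_self _
  have hBle : ⁅B, B⁆ ≤ B := Subgroup.commutator_le_self _
  let K : Subgroup (G × G × G) :=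
    { carrier := {x | x.2.1 ∈ ⁅B, B⁆ ∧ x.2.2 ∈ ⁅M, M⁆ ∧ x.1 = x.2.1 * x.2.2}
      one_mem' := ⟨Subgroup.one_mem _, Subgroup.one_mem _, (one_mul 1).symm⟩
      mul_mem' := by
        rintro ⟨a1, a2, a3⟩ ⟨b1, b2, b3⟩ ⟨h1, h2, h3⟩ ⟨k1, k2, k3⟩
        refine ⟨Subgroup.mul_mem _ h1 k1, Subgroup.mul_mem _ h2 k2, ?_⟩
        change a1 = a2 * a3 at h3
        change b1 = b2 * b3 at k3
        change a1 * b1 = a2 * b2 * (a3 * b3)
        have h4 : b2 * a3 = a3 * b2 := hBM b2 k1 a3 (hMle h2)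
        rw [h3, k3, mul_assoc a2 b2, ← mul_assoc b2, h4]
        group
      inv_mem' := by
        rintro ⟨a1, a2, a3⟩ ⟨h1, h2, h3⟩
        refine ⟨Subgroup.inv_mem _ h1, Subgroup.inv_mem _ h2, ?_⟩
        change a1 = a2 * a3 at h3
        change a1⁻¹ = a2⁻¹ * a3⁻¹
        have h4 : a2 * a3 = a3 * a2 := hBM a2 h1 a3 (hMle h2)
        rw [h3, h4, mul_inv_rev] }
  have hK : ∀ x : G × G × G, x ∈ K ↔ x.2.1 ∈ ⁅B, B⁆ ∧ x.2.2 ∈ ⁅M, M⁆ ∧ x.1 = x.2.1 * x.2.2 :=
    fun x => Iff.rfl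
  -- conjugation facts
  have cjBB : ∀ w, w ∈ ⁅B, B⁆ ↔ t * w * t⁻¹ ∈ ⁅B, B⁆ := by
    intro w
    constructor
    · intro hw
      have := cj_comm_Cl t b 1 hw
      simpa [cj] using this
    · intro hw
      have h1 := cj_comm_Cl t b (-1) hw
      have h2 : cj t (-1) (t * w * t⁻¹) = w := by unfold cj; group
      rwa [h2] at h1
  have cjMM : ∀ w, w ∈ ⁅M, M⁆ ↔ t * w * t⁻¹ ∈ ⁅M, M⁆ := by
    intro w
    constructor
    · intro hw
      have := cj_comm_Cl t m 1 hw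
      simpa [cj] using this
    · intro hw
      have h1 := cj_comm_Cl t m (-1) hw
      have h2 : cj t (-1) (t * w * t⁻¹) = w := by unfold cj; group
      rwa [h2] at h1
  have hbB : b ∈ B := by
    have := cj_mem_Cl t b 0
    rwa [cj_zero] at this
  have hmM : m ∈ M := by
    have := cj_mem_Cl t m 0
    rwa [cj_zero] at this
  have conjB : ∀ w, w ∈ ⁅B, B⁆ ↔ b * w * b⁻¹ ∈ ⁅B, B⁆ := by
    have key : ∀ g ∈ B, ∀ w ∈ ⁅B, B⁆, g * w * g⁻¹ ∈ ⁅B, B⁆ := by
      intro g hg w hw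
      have h1 : ⁅g, w⁆ ∈ ⁅B, B⁆ := Subgroup.commutator_mem_commutator hg (hBle hw)
      have h2 : g * w * g⁻¹ = ⁅g, w⁆ * w := by rw [commutatorElement_def]; group
      rw [h2]
      exact Subgroup.mul_mem _ h1 hw
    intro w
    refine ⟨key b hbB w, fun hw => ?_⟩
    have h1 := key b⁻¹ (B.inv_mem hbB) _ hw
    have h2 : b⁻¹ * (b * w * b⁻¹) * b⁻¹⁻¹ = w := by group
    rwa [h2] at h1
  have conjM : ∀ w, w ∈ ⁅M, M⁆ ↔ m * w * m⁻¹ ∈ ⁅M, M⁆ := by
    have key : ∀ g ∈ M, ∀ w ∈ ⁅M, M⁆, g * w * g⁻¹ ∈ ⁅M, M⁆ := by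
      intro g hg w hw
      have h1 : ⁅g, w⁆ ∈ ⁅M, M⁆ := Subgroup.commutator_mem_commutator hg (hMle hw)
      have h2 : g * w * g⁻¹ = ⁅g, w⁆ * w := by rw [commutatorElement_def]; group
      rw [h2]
      exact Subgroup.mul_mem _ h1 hw
    intro w
    refine ⟨key m hmM w, fun hw => ?_⟩
    have h1 := key m⁻¹ (M.inv_mem hmM) _ hw
    have h2 : m⁻¹ * (m * w * m⁻¹) * m⁻¹⁻¹ = w := by group
    rwa [h2] at h1
  -- the three elements normalise `K`
  have hbN : ((b, b, 1) : G × G × G) ∈ Subgroup.normalizer (K : Set (G × G × G)) := by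
    rw [Subgroup.mem_normalizer_iff]
    rintro ⟨x, w, v⟩
    change (_ ∧ _ ∧ _) ↔ (_ ∧ _ ∧ _)
    change (w ∈ ⁅B, B⁆ ∧ v ∈ ⁅M, M⁆ ∧ x = w * v) ↔
      (b * w * b⁻¹ ∈ ⁅B, B⁆ ∧ 1 * v * 1⁻¹ ∈ ⁅M, M⁆ ∧ b * x * b⁻¹ = b * w * b⁻¹ * (1 * v * 1⁻¹))
    rw [inv_one, mul_one, one_mul, ← conjB]
    refine and_congr_right fun hw => and_congr_right fun hv => ?_
    have h1 : b * v = v * b := hMB v hv b hbB
    have h2 : b * w * b⁻¹ * v = b * (w * v) * b⁻¹ := by
      have h3 : b⁻¹ * v = v * b⁻¹ := ((show Commute b v from h1).inv_left).eq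
      rw [mul_assoc (b * w), h3]; group
    rw [h2]
    constructor
    · rintro rfl; rfl
    · intro h
      exact mul_left_cancel (mul_right_cancel h)
  have hmN : ((m, 1, m) : G × G × G) ∈ Subgroup.normalizer (K : Set (G × G × G)) := by
    rw [Subgroup.mem_normalizer_iff]
    rintro ⟨x, w, v⟩
    change (w ∈ ⁅B, B⁆ ∧ v ∈ ⁅M, M⁆ ∧ x = w * v) ↔
      (1 * w * 1⁻¹ ∈ ⁅B, B⁆ ∧ m * v * m⁻¹ ∈ ⁅M, M⁆ ∧ m * x * m⁻¹ = 1 * w * 1⁻¹ * (m * v * m⁻¹))
    rw [inv_one, mul_one, one_mul, ← conjM]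
    refine and_congr_right fun hw => and_congr_right fun hv => ?_
    have h1 : w * m = m * w := hBM w hw m hmM
    have h2 : w * (m * v * m⁻¹) = m * (w * v) * m⁻¹ := by
      rw [← mul_assoc, ← mul_assoc, h1]; group
    rw [h2]
    constructor
    · rintro rfl; rfl
    · intro h
      exact mul_left_cancel (mul_right_cancel h)
  have htN : ((t, t, t) : G × G × G) ∈ Subgroup.normalizer (K : Set (G × G × G)) := by
    rw [Subgroup.mem_normalizer_iff]
    rintro ⟨x, w, v⟩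
    change (w ∈ ⁅B, B⁆ ∧ v ∈ ⁅M, M⁆ ∧ x = w * v) ↔
      (t * w * t⁻¹ ∈ ⁅B, B⁆ ∧ t * v * t⁻¹ ∈ ⁅M, M⁆ ∧ t * x * t⁻¹ = t * w * t⁻¹ * (t * v * t⁻¹))
    rw [← cjBB, ← cjMM]
    refine and_congr_right fun hw => and_congr_right fun hv => ?_
    have h2 : t * w * t⁻¹ * (t * v * t⁻¹) = t * (w * v) * t⁻¹ := by group
    rw [h2]
    constructor
    · rintro rfl; rfl
    · intro h
      exact mul_left_cancel (mul_right_cancel h)
  set N := Subgroup.normalizer (K : Set (G × G × G)) with hN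
  have hKn : (K.subgroupOf N).Normal := by
    rw [hN]; exact Subgroup.normal_in_normalizer
  let Q := ↥N ⧸ K.subgroupOf N
  have hQ : InVar W Q := ((InVar.prod hG (InVar.prod hG hG)).subgroup N).quot (K.subgroupOf N)
  let π : ↥N →* Q := QuotientGroup.mk' (K.subgroupOf N)
  let b' : ↥N := ⟨(b, b, 1), hbN⟩
  let m' : ↥N := ⟨(m, 1, m), hmN⟩
  let t' : ↥N := ⟨(t, t, t), htN⟩
  have hcomm : ∀ x y : ↥N, π x * π y = π y * π x ↔ (⁅x, y⁆ : ↥N) ∈ K.subgroupOf N := by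
    intro x y
    rw [← commutatorElement_eq_one_iff_mul_comm, ← map_commutatorElement]
    exact QuotientGroup.eq_one_iff _
  have hcj : ∀ (i : ℤ) (x : ↥N), cj (π t') i (π x) = π (cj t' i x) := by
    intro i x
    unfold cj
    rw [map_mul, map_mul, map_zpow, map_zpow]
  have hcjv : ∀ (i : ℤ) (x : ↥N), ((cj t' i x : ↥N) : G × G × G) =
      (cj t i x.1.1, cj t i x.1.2.1, cj t i x.1.2.2) := by
    intro i x
    unfold cj
    rw [Subgroup.coe_mul, Subgroup.coe_mul, Subgroup.coe_zpow, Subgroup.coe_zpow]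
    rfl
  have hmemK : ∀ x y : ↥N, (⁅x, y⁆ : ↥N) ∈ K.subgroupOf N ↔
      (⁅x.1.2.1, y.1.2.1⁆ ∈ ⁅B, B⁆ ∧ ⁅x.1.2.2, y.1.2.2⁆ ∈ ⁅M, M⁆ ∧
        ⁅x.1.1, y.1.1⁆ = ⁅x.1.2.1, y.1.2.1⁆ * ⁅x.1.2.2, y.1.2.2⁆) := fun x y => Iff.rfl
  have hBBc : ∀ i : ℤ, ⁅b, cj t i b⁆ ∈ ⁅B, B⁆ := fun i =>
    Subgroup.commutator_mem_commutator hbB (cj_mem_Cl t b i)
  have hMMc : ∀ i : ℤ, ⁅m, cj t i m⁆ ∈ ⁅M, M⁆ := fun i =>
    Subgroup.commutator_mem_commutator hmM (cj_mem_Cl t m i)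
  refine ⟨Q, inferInstance, hQ, Subgroup.closure {π b', π m'}, π t', ?_, π b',
    Subgroup.subset_closure (by simp), π m', Subgroup.subset_closure (by simp), ?_⟩
  · apply spread_closure
    have c1 : ∀ i : ℤ, i ≠ 0 → π b' * cj (π t') i (π b') = cj (π t') i (π b') * π b' := by
      intro i _
      rw [hcj, hcomm, hmemK, hcjv]
      refine ⟨hBBc i, ?_, ?_⟩
      · change ⁅(1 : G), cj t i 1⁆ ∈ _
        rw [commutatorElement_one_left]; exact Subgroup.one_mem _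
      · change ⁅b, cj t i b⁆ = ⁅b, cj t i b⁆ * ⁅(1 : G), cj t i 1⁆
        rw [commutatorElement_one_left, mul_one]
    have c2 : ∀ i : ℤ, i ≠ 0 → π m' * cj (π t') i (π m') = cj (π t') i (π m') * π m' := by
      intro i _
      rw [hcj, hcomm, hmemK, hcjv]
      refine ⟨?_, hMMc i, ?_⟩
      · change ⁅(1 : G), cj t i 1⁆ ∈ _
        rw [commutatorElement_one_left]; exact Subgroup.one_mem _
      · change ⁅m, cj t i m⁆ = ⁅(1 : G), cj t i 1⁆ * ⁅m, cj t i m⁆
        rw [commutatorElement_one_left, one_mul]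
    have c3 : ∀ i : ℤ, i ≠ 0 → π b' * cj (π t') i (π m') = cj (π t') i (π m') * π b' := by
      intro i hi
      rw [hcj, hcomm, hmemK, hcjv]
      have e1 : ⁅b, cj t i m⁆ = 1 := hbad.2 i hi
      have e2 : ⁅b, cj t i 1⁆ = 1 := by rw [cj_one, commutatorElement_one_right]
      have e3 : ⁅(1 : G), cj t i m⁆ = 1 := commutatorElement_one_left _
      refine ⟨?_, ?_, ?_⟩
      · change ⁅b, cj t i 1⁆ ∈ _
        rw [e2]; exact Subgroup.one_mem _
      · change ⁅(1 : G), cj t i m⁆ ∈ _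
        rw [e3]; exact Subgroup.one_mem _
      · change ⁅b, cj t i m⁆ = ⁅b, cj t i 1⁆ * ⁅(1 : G), cj t i m⁆
        rw [e1, e2, e3, one_mul]
    have c4 : ∀ i : ℤ, i ≠ 0 → π m' * cj (π t') i (π b') = cj (π t') i (π b') * π m' := by
      intro i hi
      have h1 := c3 (-i) (neg_ne_zero.2 hi)
      apply cj_inj (π t') (-i)
      rw [cj_mul, cj_mul, ← cj_add, neg_add_cancel, cj_zero]
      exact h1.symm
    intro i hi u hu v hv
    rcases hu with rfl | hu
    · rcases hv with rfl | hv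
      · exact c1 i hi
      · rw [Set.mem_singleton_iff] at hv
        subst hv
        exact c3 i hi
    · rw [Set.mem_singleton_iff] at hu
      subst hu
      rcases hv with rfl | hv
      · exact c4 i hi
      · rw [Set.mem_singleton_iff] at hv
        subst hv
        exact c2 i hi
  · rw [Ne, hcomm, hmemK]
    rintro ⟨-, -, h3⟩
    apply hbad.1
    change ⁅b, m⁆ = ⁅b, (1 : G)⁆ * ⁅(1 : G), m⁆ at h3
    rw [h3, commutatorElement_one_right, commutatorElement_one_left, one_mul]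

end Pool.Agent.N62
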