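import Pool.Agent.N62.Aff

set_option autoImplicit false

namespace Pool.Agent.N62

theorem wr_homs {k : Type} [Field k] [Finite k] (l : kˣ) (hl : l ≠ 1) (K : Subgroup (Af k))
    (hK1 : ∀ v : k, (⟨v, 1⟩ : Af k) ∈ K) (hK2 : (⟨0, l⟩ : Af k) ∈ K) :
    ∃ p q : ℕ, p.Prime ∧ q.Prime ∧ p ≠ q ∧
      ∃ φ : ZMod p → RegularWreathProduct (Multiplicative (ZMod q)) (Multiplicative (ZMod p)) →* ↥K,
        ∀ c, (∀ j, φ j c = 1) → c = 1 := by
  classical
  have hfo : IsOfFinOrder l := isOfFinOrder_of_finite l
  have ho1 : orderOf l ≠ 1 := fun h => hl (orderOf_eq_one_iff.1 h)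
  set p := (orderOf l).minFac with hp
  have hpp : p.Prime := Nat.minFac_prime ho1
  have hpf : Fact p.Prime := ⟨hpp⟩
  obtain ⟨e, he⟩ : p ∣ orderOf l := Nat.minFac_dvd _
  set μ : kˣ := l ^ e with hμ
  have hμp : μ ^ p = 1 := by rw [hμ, ← pow_mul, mul_comm, ← he, pow_orderOf_eq_one]
  have hμ1 : μ ≠ 1 := by
    intro h
    have h1 : orderOf l ∣ e := orderOf_dvd_of_pow_eq_one h
    have he0 : 0 < e := by
      rcases Nat.eq_zero_or_pos e with h0 | h0
      · rw [h0, mul_zero] at he
        exact absurd he (orderOf_pos_iff.2 hfo).ne'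
      · exact h0
    have h2 := Nat.le_of_dvd he0 h1
    rw [he] at h2
    have h3 := hpp.two_le
    nlinarith
  obtain ⟨q, hq⟩ := CharP.exists k
  have hqp : q.Prime := by
    rcases CharP.char_is_prime_or_zero k q with h | h
    · exact h
    · exfalso
      subst h
      have : CharZero k := CharP.charP_to_charZero k
      exact (not_finite_iff_infinite.2 (inferInstance : Infinite k)) (inferInstance : Finite k)
  have hqf : Fact q.Prime := ⟨hqp⟩
  have hpq : p ≠ q := by
    intro h
    apply hμ1
    have h1 : ((μ : k) - 1) ^ q = 0 := by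
      rw [sub_pow_char, one_pow, ← h, ← Units.val_pow_eq_pow_val, hμp, Units.val_one, sub_self]
    have h2 := eq_zero_of_pow_eq_zero h1
    apply Units.ext
    rw [Units.val_one]
    exact sub_eq_zero.1 h2
  -- the characters
  let c : ZMod p →+ Additive kˣ := ZMod.lift p ⟨zmultiplesHom _ (Additive.ofMul μ), by
    rw [zmultiplesHom_apply, natCast_zsmul]
    change Additive.ofMul (μ ^ p) = 0
    rw [hμp]; rfl⟩
  let E : ZMod p → kˣ := fun i => (c i).toMul
  have E0 : E 0 = 1 := by
    change (c 0).toMul = 1
    rw [map_zero]; rfl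
  have Ea : ∀ a b, E (a + b) = E a * E b := by
    intro a b
    change (c (a + b)).toMul = _
    rw [map_add]; rfl
  have Ei : ∀ n : ℤ, E (n : ZMod p) = μ ^ n := by
    intro n
    have h1 : c (n : ZMod p) = n • Additive.ofMul μ := by
      change ZMod.lift p _ (n : ZMod p) = _
      rw [ZMod.lift_coe]
      rfl
    change (c (n : ZMod p)).toMul = _
    rw [h1]
    rfl
  have En : ∀ (n : ℕ) (a : ZMod p), E (n * a) = E a ^ n := by
    intro n a
    induction n with
    | zero => rw [Nat.cast_zero, zero_mul, E0, pow_zero]
    | succ n ih => rw [Nat.cast_add, Nat.cast_one, add_mul, one_mul, Ea, ih, pow_succ]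
  have Einj : ∀ a, E a = 1 → a = 0 := by
    intro a ha
    obtain ⟨n, rfl⟩ := ZMod.intCast_surjective a
    rw [Ei] at ha
    have h1 : orderOf μ = p := orderOf_eq_prime hμp hμ1
    have h2 : (orderOf μ : ℤ) ∣ n := orderOf_dvd_iff_zpow_eq_one.2 ha
    rw [h1] at h2
    exact (ZMod.intCast_zmod_eq_zero_iff_dvd n p).2 h2
  let ι : ZMod q →+* k := ZMod.castHom (dvd_refl q) k
  have hι : Function.Injective ι := ι.injective
  -- membership
  have hKE : ∀ (v : k) (n : ZMod p), (⟨v, E n⟩ : Af k) ∈ K := by
    intro v n
    let ψ : kˣ →* Af k :=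
      { toFun := fun u => ⟨0, u⟩
        map_one' := rfl
        map_mul' := fun a b => by
          ext1
          · rw [Af.mul_v, mul_zero, add_zero]
          · rfl }
    obtain ⟨n, rfl⟩ := ZMod.intCast_surjective n
    have h1 : l ∈ K.comap ψ := hK2
    have h2 : E (n : ZMod p) ∈ K.comap ψ := by
      rw [Ei, hμ, ← zpow_natCast, ← zpow_mul]
      exact Subgroup.zpow_mem _ h1 _
    have h3 : (⟨v, E (n : ZMod p)⟩ : Af k) = ⟨v, 1⟩ * ⟨0, E (n : ZMod p)⟩ := by
      ext1
      · rw [Af.mul_v, mul_zero, add_zero]
      · rw [Af.mul_μ, one_mul]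
    rw [h3]
    exact K.mul_mem (hK1 v) h2
  -- the homomorphisms
  let V : ZMod p → RegularWreathProduct (Multiplicative (ZMod q)) (Multiplicative (ZMod p)) → k :=
    fun j w => ∑ i : ZMod p, ι (w.left (Multiplicative.ofAdd i)).toAdd * E (j * i)
  let φ : ZMod p → RegularWreathProduct (Multiplicative (ZMod q)) (Multiplicative (ZMod p)) →* ↥K :=
    fun j =>
      { toFun := fun w => ⟨⟨V j w, E (j * w.right.toAdd)⟩, hKE _ _⟩
        map_one' := by
          apply Subtype.ext
          ext1
          · change ∑ i : ZMod p, ι (1 : Multiplicative (ZMod q)).toAdd * (E (j * i) : k) = 0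
            apply Finset.sum_eq_zero
            intro i _
            rw [toAdd_one, map_zero, zero_mul]
          · change E (j * (1 : Multiplicative (ZMod p)).toAdd) = 1
            rw [toAdd_one, mul_zero, E0]
        map_mul' := by
          intro w w'
          apply Subtype.ext
          ext1
          · change V j (w * w') = V j w + (E (j * w.right.toAdd) : k) * V j w'
            have h1 : ∀ i : ZMod p, ι ((w * w').left (Multiplicative.ofAdd i)).toAdd *
                (E (j * i) : k) = ι (w.left (Multiplicative.ofAdd i)).toAdd * E (j * i) +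
                ι (w'.left (Multiplicative.ofAdd (i - w.right.toAdd))).toAdd * E (j * i) := by
              intro i
              rw [← add_mul, ← map_add]
              congr 2
              change (w.left (Multiplicative.ofAdd i) *
                w'.left (w.right⁻¹ * Multiplicative.ofAdd i)).toAdd = _
              rw [toAdd_mul]
              congr 3
              change -w.right.toAdd + i = i - w.right.toAdd
              ring
            change ∑ i : ZMod p, ι ((w * w').left (Multiplicative.ofAdd i)).toAdd *
                (E (j * i) : k) = _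
            rw [Finset.sum_congr rfl (fun i _ => h1 i), Finset.sum_add_distrib]
            congr 1
            rw [Finset.mul_sum]
            refine Fintype.sum_equiv (Equiv.subRight w.right.toAdd) _ _ ?_
            intro i
            rw [Equiv.subRight_apply]
            have h2 : j * i = j * w.right.toAdd + j * (i - w.right.toAdd) := by ring
            rw [h2, Ea, Units.val_mul]
            ring
          · change E (j * (w.right * w'.right).toAdd) =
              E (j * w.right.toAdd) * E (j * w'.right.toAdd)
            rw [toAdd_mul, mul_add, Ea] }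
  refine ⟨p, q, hpp, hqp, hpq, φ, ?_⟩
  intro w hw
  have hV : ∀ j, V j w = 0 := fun j => congrArg (fun a : ↥K => (a : Af k).v) (hw j)
  have hE : ∀ j, E (j * w.right.toAdd) = 1 := fun j => congrArg (fun a : ↥K => (a : Af k).μ) (hw j)
  ext i
  · -- polynomial argument
    open Polynomial in
    let P : k[X] := ∑ i : ZMod p, C (ι (w.left (Multiplicative.ofAdd i)).toAdd) * X ^ i.val
    have hPev : ∀ j : ZMod p, P.eval ((E j : kˣ) : k) = 0 := by
      intro j
      rw [← hV j]
      change Polynomial.eval _ (∑ i : ZMod p, _) = _
      rw [Polynomial.eval_finsetSum]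
      apply Finset.sum_congr rfl
      intro i _
      rw [Polynomial.eval_mul, Polynomial.eval_C, Polynomial.eval_pow, Polynomial.eval_X,
        ← Units.val_pow_eq_pow_val, ← En, ZMod.natCast_zmod_val, mul_comm i j]
    have hPdeg : P.natDegree < Fintype.card (ZMod p) := by
      rw [ZMod.card]
      have h1 : P.natDegree ≤ p - 1 := by
        apply Polynomial.natDegree_sum_le_of_forall_le
        intro i _
        refine (Polynomial.natDegree_C_mul_X_pow_le _ _).trans ?_
        have := ZMod.val_lt i
        omega
      have := hpp.pos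
      omega
    have hP0 : P = 0 := Polynomial.eq_zero_of_natDegree_lt_card_of_eval_eq_zero P
      (f := fun j : ZMod p => ((E j : kˣ) : k)) (by
        intro a b hab
        have h1 : E a = E b := Units.ext hab
        have h2 : E (a - b) = 1 := by
          have h3 := Ea (a - b) b
          rw [sub_add_cancel, h1] at h3
          exact right_eq_mul.1 h3
        exact sub_eq_zero.1 (Einj _ h2)) hPev hPdeg
    have hco : P.coeff (Multiplicative.toAdd i).val =
        ι (w.left (Multiplicative.ofAdd (Multiplicative.toAdd i))).toAdd := by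
      change (∑ i : ZMod p, Polynomial.C (ι (w.left (Multiplicative.ofAdd i)).toAdd) *
        Polynomial.X ^ i.val : Polynomial k).coeff _ = _
      rw [Polynomial.finsetSum_coeff, Finset.sum_eq_single (Multiplicative.toAdd i)]
      · rw [Polynomial.coeff_C_mul_X_pow, if_pos rfl]
      · intro b _ hb
        rw [Polynomial.coeff_C_mul_X_pow, if_neg]
        intro h
        exact hb (ZMod.val_injective p h).symm
      · intro h
        exact absurd (Finset.mem_univ _) h
    rw [hP0, Polynomial.coeff_zero] at hco
    have h1 : (w.left i).toAdd = 0 := hι (by rw [map_zero]; exact hco.symm)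
    exact h1
  · have h1 := Einj _ (hE 1)
    rw [one_mul] at h1
    exact h1

end Pool.Agent.N62
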