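import Pool.Agent.Helper294.HallC.NoeOfFg

set_option autoImplicit false

namespace Pool.Agent.N62

open Pool.Agent.Helper294.HallC

section Basic

variable {C E : Type} [CommRing C] [AddCommGroup E] [Module C E]

/-- generic behaviour of the element `c` on the section `A/B`, away from `a`. -/
def Good (c a : C) (B A : AddSubgroup E) : Prop :=
  (∀ m ∈ A, c • m ∈ B → m ∈ B) ∧
  ((∃ m ∈ A, ∀ k : ℕ, a ^ k • m ∉ B) → ∃ x ∈ A, ∀ y ∈ A, x - c • y ∉ B)

/-- `C`-stable subgroups -/
def CS (C : Type) {E : Type} [CommRing C] [AddCommGroup E] [Module C E]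
    (B : AddSubgroup E) : Prop := ∀ c : C, ∀ x ∈ B, c • x ∈ B

theorem Good.refl (c a : C) (B : AddSubgroup E) (hB : CS C B) : Good c a B B :=
  ⟨fun _ hm _ => hm, fun ⟨_, hm, h⟩ => absurd (hB _ _ hm) (h 0)⟩

theorem Good.trans {c a : C} {B D A : AddSubgroup E} (hBD : B ≤ D) (hDA : D ≤ A)
    (h1 : Good c a B D) (h2 : Good c a D A) : Good c a B A := by
  refine ⟨fun m hm hc => h1.1 m (h2.1 m hm (hBD hc)) hc, ?_⟩
  rintro ⟨m, hm, hk⟩
  by_cases h : ∃ m' ∈ A, ∀ k : ℕ, a ^ k • m' ∉ D
  · obtain ⟨x, hx, hy⟩ := h2.2 h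
    exact ⟨x, hx, fun y hyA hxy => hy y hyA (hBD hxy)⟩
  · push Not at h
    obtain ⟨k, hkD⟩ := h m hm
    obtain ⟨x, hx, hy⟩ := h1.2 ⟨a ^ k • m, hkD, fun j hj => hk (j + k) (by
      rw [pow_add, mul_smul]; exact hj)⟩
    refine ⟨x, hDA hx, fun y hyA hxy => ?_⟩
    have h3 : c • y ∈ D := by
      have h4 := D.sub_mem hx (hBD hxy)
      rwa [sub_sub_cancel] at h4
    exact hy y (h2.1 y hyA h3) hxy

theorem Good.chain {c a : C} (f : ℕ → AddSubgroup E) (hf : Monotone f)
    (hB : CS C (f 0)) (h : ∀ n, Good c a (f n) (f (n + 1))) (n : ℕ) :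
    ∀ m, Good c a (f n) (f (n + m)) := by
  have hs : ∀ n, Good c a (f 0) (f n) := by
    intro n
    induction n with
    | zero => exact Good.refl c a _ hB
    | succ n ih => exact ih.trans (hf (Nat.zero_le n)) (hf (Nat.le_succ n)) (h n)
  intro m
  induction m with
  | zero =>
    refine ⟨fun _ hm _ => hm, ?_⟩
    rintro ⟨m, hm, hk⟩
    exact absurd (by rw [pow_zero, one_smul]; exact hm) (hk 0)
  | succ m ih => exact ih.trans (hf (Nat.le_add_right n m)) (hf (Nat.le_succ _)) (h (n + m))

theorem Good.union {c a : C} (f : ℕ → AddSubgroup E) (hf : Monotone f)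
    (hB : CS C (f 0)) (h : ∀ n, Good c a (f n) (f (n + 1))) :
    Good c a (f 0) (⨆ n, f n) := by
  have hmem : ∀ x, x ∈ (⨆ n, f n) ↔ ∃ n, x ∈ f n := by
    intro x
    exact AddSubgroup.mem_iSup_of_directed hf.directed_le
  have hc := Good.chain f hf hB h
  have hc0 : ∀ n, Good c a (f 0) (f n) := fun n => by
    have := hc 0 n
    rwa [zero_add] at this
  refine ⟨?_, ?_⟩
  · intro m hm hcm
    obtain ⟨n, hn⟩ := (hmem m).1 hm
    exact (hc0 n).1 m hn hcm
  · rintro ⟨m, hm, hk⟩
    obtain ⟨n, hn⟩ := (hmem m).1 hm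
    obtain ⟨x, hx, hy⟩ := (hc0 n).2 ⟨m, hn, hk⟩
    refine ⟨x, (hmem x).2 ⟨n, hx⟩, fun y hyA hxy => ?_⟩
    obtain ⟨N, hN⟩ := (hmem y).1 hyA
    have h1 : c • y ∈ f n := by
      have h4 := (f n).sub_mem hx (hf (Nat.zero_le n) hxy)
      rwa [sub_sub_cancel] at h4
    have h2 : y ∈ f (n + N) := hf (Nat.le_add_left _ _) hN
    exact hy y ((hc n N).1 y h2 h1) hxy

theorem Good.mul {c a : C} {B A : AddSubgroup E} (hB : CS C B) (h : Good c a B A) (b : C) :
    Good c (a * b) B A := by
  refine ⟨h.1, ?_⟩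
  rintro ⟨m, hm, hk⟩
  refine h.2 ⟨m, hm, fun k hk' => hk k ?_⟩
  rw [mul_pow, mul_comm, mul_smul]
  exact hB _ _ hk'

theorem Good.mul' {c a : C} {B A : AddSubgroup E} (hB : CS C B) (h : Good c a B A) (b : C) :
    Good c (b * a) B A := by
  rw [mul_comm]; exact h.mul hB b

theorem Good.sup {c a : C} {A D : AddSubgroup E} (hA : CS C A)
    (h : Good c a (A ⊓ D) D) (hD : CS C D) : Good c a A (A ⊔ D) := by
  refine ⟨?_, ?_⟩
  · intro m hm hc
    obtain ⟨x, hx, y, hy, rfl⟩ := AddSubgroup.mem_sup.1 hm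
    have h1 : c • y ∈ A := by
      have h2 := A.sub_mem hc (hA c x hx)
      rwa [smul_add, add_sub_cancel_left] at h2
    have h3 := h.1 y hy ⟨h1, hD c y hy⟩
    exact A.add_mem hx h3.1
  · rintro ⟨m, hm, hk⟩
    obtain ⟨x, hx, y, hy, rfl⟩ := AddSubgroup.mem_sup.1 hm
    obtain ⟨z, hz, hzy⟩ := h.2 ⟨y, hy, fun k hk' => hk k (by
      rw [smul_add]
      exact A.add_mem (hA _ _ hx) hk'.1)⟩
    refine ⟨z, (le_sup_right : D ≤ A ⊔ D) hz, fun w hw hzw => ?_⟩
    obtain ⟨u, hu, v, hv, rfl⟩ := AddSubgroup.mem_sup.1 hw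
    refine hzy v hv ⟨?_, D.sub_mem hz (hD c v hv)⟩
    have h2 := A.add_mem hzw (hA c u hu)
    rw [smul_add] at h2
    have h3 : z - c • v = z - (c • u + c • v) + c • u := by abel
    rw [h3]; exact h2

/-- the finitely generated case -/
theorem good_fg [IsDomain C] [IsPrincipalIdealRing C] (B : AddSubgroup E) (hB : CS C B)
    (S : Finset E) :
    ∃ a : C, a ≠ 0 ∧ ∀ c : C, Prime c → ¬ c ∣ a →
      Good c a B ((Submodule.span C (S : Set E)).toAddSubgroup ⊔ B) := by
  classical
  induction S using Finset.induction_on with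
  | empty =>
    refine ⟨1, one_ne_zero, fun c _ _ => ?_⟩
    have h1 : (Submodule.span C ((∅ : Finset E) : Set E)).toAddSubgroup ⊔ B = B := by
      rw [Finset.coe_empty, Submodule.span_empty]
      exact bot_sup_eq B
    rw [h1]
    exact Good.refl _ _ _ hB
  | insert x S hx ih =>
    obtain ⟨a, ha, h⟩ := ih
    set D := (Submodule.span C (S : Set E)).toAddSubgroup ⊔ B with hD
    have hDC : CS C D := by
      intro c y hy
      obtain ⟨u, hu, v, hv, rfl⟩ := AddSubgroup.mem_sup.1 hy
      rw [smul_add]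
      exact D.add_mem (AddSubgroup.mem_sup_left (Submodule.smul_mem _ c hu))
        (AddSubgroup.mem_sup_right (hB c v hv))
    set A := (Submodule.span C ((insert x S : Finset E) : Set E)).toAddSubgroup ⊔ B with hA
    have hDA : D ≤ A := by
      apply sup_le_sup_right
      intro y hy
      exact Submodule.span_mono (by rw [Finset.coe_insert]; exact Set.subset_insert _ _) hy
    have hAmem : ∀ m ∈ A, ∃ r : C, m - r • x ∈ D := by
      intro m hm
      obtain ⟨u, hu, v, hv, rfl⟩ := AddSubgroup.mem_sup.1 hm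
      have hu' : u ∈ Submodule.span C ((insert x S : Finset E) : Set E) := hu
      rw [Finset.coe_insert, Submodule.mem_span_insert] at hu'
      obtain ⟨r, z, hz, rfl⟩ := hu'
      refine ⟨r, ?_⟩
      have h3 : r • x + z + v - r • x = z + v := by abel
      rw [h3]
      exact D.add_mem (AddSubgroup.mem_sup_left hz) (AddSubgroup.mem_sup_right hv)
    have hxA : x ∈ A := AddSubgroup.mem_sup_left (Submodule.subset_span (by simp))
    by_cases hJ : ∃ b : C, b ≠ 0 ∧ b • x ∈ D
    · obtain ⟨b, hb, hbx⟩ := hJ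
      refine ⟨a * b, mul_ne_zero ha hb, fun c hc hca => ?_⟩
      have h1 : Good c (a * b) B D := (h c hc (fun hd => hca (hd.mul_right b))).mul hB b
      have hbA : ∀ m ∈ A, b • m ∈ D := by
        intro m hm
        obtain ⟨r, hr⟩ := hAmem m hm
        have h2 := D.add_mem (hDC b _ hr) (hDC r _ hbx)
        have h3 : b • (m - r • x) + r • b • x = b • m := by
          rw [smul_sub, smul_smul b r x, smul_smul r b x, mul_comm r b]; abel
        rwa [h3] at h2
      have h2 : Good c (a * b) D A := by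
        refine ⟨?_, ?_⟩
        · intro m hm hcm
          have hcop : IsCoprime c b := (hc.irreducible.coprime_iff_not_dvd).2
            (fun hd => hca (hd.mul_left a))
          obtain ⟨s, t, hst⟩ := hcop
          have h3 : m = s • c • m + t • b • m := by
            rw [smul_smul, smul_smul, ← add_smul, hst, one_smul]
          rw [h3]
          exact D.add_mem (hDC s _ hcm) (hDC t _ (hbA m hm))
        · rintro ⟨m, hm, hk⟩
          exfalso
          apply hk 1
          rw [pow_one, mul_smul]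
          exact hDC a _ (hbA m hm)
      exact h1.trans (le_sup_right : B ≤ D) hDA h2
    · push Not at hJ
      refine ⟨a, ha, fun c hc hca => ?_⟩
      refine (h c hc hca).trans (le_sup_right : B ≤ D) hDA ⟨?_, ?_⟩
      · intro m hm hcm
        obtain ⟨r, hr⟩ := hAmem m hm
        have h2 : (c * r) • x ∈ D := by
          have h3 := D.sub_mem hcm (hDC c _ hr)
          have h4 : c • m - c • (m - r • x) = (c * r) • x := by
            rw [smul_sub, mul_smul]; abel
          rwa [h4] at h3
        have h3 : c * r = 0 := by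
          by_contra hne
          exact hJ _ hne h2
        have h4 : r = 0 := (mul_eq_zero.1 h3).resolve_left hc.ne_zero
        rw [h4, zero_smul, sub_zero] at hr
        exact hr
      · intro _
        refine ⟨x, hxA, fun y hy hxy => ?_⟩
        obtain ⟨r, hr⟩ := hAmem y hy
        have h2 : (1 - c * r) • x ∈ D := by
          have h3 := D.add_mem hxy (hDC c _ hr)
          have h4 : x - c • y + c • (y - r • x) = (1 - c * r) • x := by
            rw [smul_sub, sub_smul, one_smul, mul_smul]; abel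
          rwa [h4] at h3
        have h3 : 1 - c * r = 0 := by
          by_contra hne
          exact hJ _ hne h2
        exact hc.not_isUnit (IsUnit.of_mul_eq_one r (sub_eq_zero.1 h3).symm)

end Basic

end Pool.Agent.N62
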