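import Pool.Agent.N62.GF

set_option autoImplicit false

namespace Pool.Agent.N62

open Pool.Agent.Helper294.HallC

section

variable {Γ C E : Type} [Group Γ] [CommRing C] [AddCommGroup E] [Module C E]
  [DistribMulAction Γ E]

/-- translate of a subgroup -/
def tr (t : Γ) (B : AddSubgroup E) : AddSubgroup E :=
  B.map (DistribSMul.toAddMonoidHom E t)

theorem mem_tr {t : Γ} {B : AddSubgroup E} {x : E} : x ∈ tr t B ↔ t⁻¹ • x ∈ B := by
  constructor
  · rintro ⟨y, hy, rfl⟩
    have h1 : t⁻¹ • (DistribSMul.toAddMonoidHom E t) y = y := by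
      exact inv_smul_smul t y
    rw [h1]; exact hy
  · intro h
    exact ⟨t⁻¹ • x, h, smul_inv_smul t x⟩

theorem smul_mem_tr {t : Γ} {B : AddSubgroup E} {x : E} (hx : x ∈ B) : t • x ∈ tr t B := by
  rw [mem_tr, inv_smul_smul]; exact hx

theorem tr_mono {t : Γ} {B A : AddSubgroup E} (h : B ≤ A) : tr t B ≤ tr t A :=
  AddSubgroup.map_mono h

theorem tr_sup (t : Γ) (B A : AddSubgroup E) : tr t (B ⊔ A) = tr t B ⊔ tr t A :=
  AddSubgroup.map_sup _ _ _

theorem tr_mul (s t : Γ) (B : AddSubgroup E) : tr (s * t) B = tr s (tr t B) := by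
  ext x
  rw [mem_tr, mem_tr, mem_tr, mul_inv_rev, mul_smul]

theorem tr_one (B : AddSubgroup E) : tr (1 : Γ) B = B := by
  ext x
  rw [mem_tr, inv_one, one_smul]

theorem tr_inf (t : Γ) (B A : AddSubgroup E) : tr t (B ⊓ A) = tr t B ⊓ tr t A := by
  ext x
  rw [mem_tr, AddSubgroup.mem_inf, AddSubgroup.mem_inf, mem_tr, mem_tr]

theorem Good.tr (hcomm : ∀ (g : Γ) (c : C) (e : E), g • c • e = c • g • e) {c a : C}
    {B A : AddSubgroup E} (h : Good c a B A) (t : Γ) : Good c a (tr t B) (tr t A) := by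
  refine ⟨?_, ?_⟩
  · intro m hm hcm
    rw [mem_tr] at hm hcm ⊢
    rw [hcomm] at hcm
    exact h.1 _ hm hcm
  · rintro ⟨m, hm, hk⟩
    rw [mem_tr] at hm
    obtain ⟨x, hx, hy⟩ := h.2 ⟨t⁻¹ • m, hm, fun k hk' => hk k (by
      rw [mem_tr, hcomm]; exact hk')⟩
    refine ⟨t • x, smul_mem_tr hx, fun y hyA hxy => ?_⟩
    rw [mem_tr] at hyA hxy
    rw [smul_sub, inv_smul_smul, hcomm] at hxy
    exact hy _ hyA hxy

/-- the subgroup generated by `R • S` -/
def RS (R : Subgroup Γ) (S : Set E) : AddSubgroup E :=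
  AddSubgroup.closure {a : E | ∃ g ∈ R, ∃ s ∈ S, a = g • s}

theorem RS_stable (R : Subgroup Γ) (S : Set E) : ∀ g ∈ R, ∀ x ∈ RS R S, g • x ∈ RS R S :=
  noe_of_fg_stable R R le_rfl S _ (fun g hg s hs => AddSubgroup.subset_closure ⟨g, hg, s, hs, rfl⟩)

theorem sub_RS (R : Subgroup Γ) (S : Set E) {s : E} (hs : s ∈ S) : s ∈ RS R S :=
  AddSubgroup.subset_closure ⟨1, R.one_mem, s, hs, (one_smul _ _).symm⟩

/-- `R`-stable subgroups -/
def RSt (R : Subgroup Γ) (B : AddSubgroup E) : Prop := ∀ g ∈ R, ∀ x ∈ B, g • x ∈ B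

theorem RSt.sup {R : Subgroup Γ} {A B : AddSubgroup E} (hA : RSt R A) (hB : RSt R B) :
    RSt R (A ⊔ B) := by
  intro g hg x hx
  obtain ⟨u, hu, v, hv, rfl⟩ := AddSubgroup.mem_sup.1 hx
  rw [smul_add]
  exact AddSubgroup.add_mem _ (AddSubgroup.mem_sup_left (hA g hg u hu))
    (AddSubgroup.mem_sup_right (hB g hg v hv))

theorem RSt.inf {R : Subgroup Γ} {A B : AddSubgroup E} (hA : RSt R A) (hB : RSt R B) :
    RSt R (A ⊓ B) := fun g hg x hx => ⟨hA g hg x hx.1, hB g hg x hx.2⟩

theorem RSt.tr {R : Subgroup Γ} {A : AddSubgroup E} {t : Γ} (hA : RSt R A)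
    (hn : ∀ x ∈ R, t⁻¹ * x * t ∈ R) : RSt R (tr t A) := by
  intro g hg x hx
  rw [mem_tr] at hx ⊢
  have h1 := hA _ (hn g hg) _ hx
  rw [← mul_smul, mul_assoc, mul_assoc, mul_inv_cancel, mul_one, mul_smul] at h1
  exact h1

theorem RSt.mono {R P : Subgroup Γ} (h : R ≤ P) {A : AddSubgroup E} (hA : RSt P A) : RSt R A :=
  fun g hg => hA g (h hg)

/-- the induction statement -/
def PR (C : Type) {Γ E : Type} [Group Γ] [CommRing C] [AddCommGroup E] [Module C E]
    [DistribMulAction Γ E] (R : Subgroup Γ) : Prop :=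
  (∀ S : Finset E, NoeOn R (RS R (S : Set E))) ∧
  ∀ (B : AddSubgroup E) (S : Finset E), RSt R B →
    ∃ a : C, a ≠ 0 ∧ ∀ c : C, Prime c → ¬ c ∣ a → Good c a B (RS R (S : Set E) ⊔ B)

theorem PR_step [IsDomain C] (hcomm : ∀ (g : Γ) (c : C) (e : E), g • c • e = c • g • e)
    (Z₀ : Subgroup Γ) (hC : ∀ B : AddSubgroup E, RSt Z₀ B → CS C B)
    (R P : Subgroup Γ) (hZR : Z₀ ≤ R) (t : Γ) (hRP : R ≤ P) (ht : t ∈ P)
    (hn : ∀ x, x ∈ R ↔ t * x * t⁻¹ ∈ R) (hc : ∀ x ∈ P, ∃ k : ℤ, t ^ (-k) * x ∈ R)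
    (h : PR C (E := E) R) : PR C (E := E) P := by
  classical
  have hn' : ∀ x ∈ R, t⁻¹ * x * t ∈ R := by
    intro x hx
    rw [hn]
    have : t * (t⁻¹ * x * t) * t⁻¹ = x := by group
    rwa [this]
  have hnk : ∀ k : ℕ, ∀ x ∈ R, (t ^ k)⁻¹ * x * t ^ k ∈ R := by
    intro k
    induction k with
    | zero => intro x hx; simpa using hx
    | succ k ih =>
      intro x hx
      have h1 := hn' _ (ih x hx)
      have h2 : t⁻¹ * ((t ^ k)⁻¹ * x * t ^ k) * t = (t ^ (k + 1))⁻¹ * x * t ^ (k + 1) := by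
        rw [pow_succ]; group
      rwa [h2] at h1
  have hnk' : ∀ k : ℕ, ∀ x ∈ R, ((t ^ k)⁻¹)⁻¹ * x * (t ^ k)⁻¹ ∈ R := by
    intro k
    induction k with
    | zero => intro x hx; simpa using hx
    | succ k ih =>
      intro x hx
      have h1 := (hn _).1 (ih x hx)
      have h2 : t * (((t ^ k)⁻¹)⁻¹ * x * (t ^ k)⁻¹) * t⁻¹ =
          ((t ^ (k + 1))⁻¹)⁻¹ * x * (t ^ (k + 1))⁻¹ := by
        rw [pow_succ']; group
      rwa [h2] at h1
  refine ⟨?_, ?_⟩
  · intro S
    have h1 := noe_step R P t hRP ht hn hc (RS R (S : Set E)) (RS_stable R _) (h.1 S)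
    have h2 : AddSubgroup.closure {a : E | ∃ g ∈ P, ∃ x ∈ RS R (S : Set E), a = g • x} =
        RS P (S : Set E) := by
      apply le_antisymm
      · rw [AddSubgroup.closure_le]
        rintro a ⟨g, hg, x, hx, rfl⟩
        exact noe_of_fg_stable P R hRP (S : Set E) (RS P (S : Set E)) (fun g hg s hs =>
          AddSubgroup.subset_closure ⟨g, hg, s, hs, rfl⟩) g hg x hx
      · unfold RS
        rw [AddSubgroup.closure_le]
        rintro a ⟨g, hg, s, hs, rfl⟩
        exact AddSubgroup.subset_closure ⟨g, hg, s, sub_RS R _ hs, rfl⟩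
    rw [h2] at h1
    exact h1
  · intro B S hB
    have hBR : RSt R B := hB.mono hRP
    set X := RS R (S : Set E) with hX
    set M₀ := X ⊔ B with hM₀
    have hM₀R : RSt R M₀ := RSt.sup (RS_stable R _) hBR
    have hBM : B ≤ M₀ := le_sup_right
    let F : ℕ → AddSubgroup E := fun n => Nat.rec M₀ (fun n A => A ⊔ tr (t ^ (n + 1)) M₀) n
    have hF0 : F 0 = M₀ := rfl
    have hFs : ∀ n, F (n + 1) = F n ⊔ tr (t ^ (n + 1)) M₀ := fun n => rfl
    have hFm : Monotone F := monotone_nat_of_le_succ fun n => by rw [hFs]; exact le_sup_left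
    have hFR : ∀ n, RSt R (F n) := by
      intro n
      induction n with
      | zero => exact hM₀R
      | succ n ih =>
        rw [hFs]
        exact ih.sup (hM₀R.tr (hnk (n + 1)))
    have htF : ∀ n, tr t (F n) ≤ F (n + 1) := by
      intro n
      induction n with
      | zero =>
        rw [hFs, hF0, zero_add, pow_one]
        exact le_sup_right
      | succ n ih =>
        rw [hFs n, tr_sup, ← tr_mul, ← pow_succ', hFs (n + 1)]
        exact sup_le_sup_right ih _
    have hMF : ∀ n, tr (t ^ n) M₀ ≤ F n := by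
      intro n
      cases n with
      | zero => rw [pow_zero, tr_one, hF0]
      | succ n => rw [hFs]; exact le_sup_right
    -- the leading terms
    let K : ℕ → AddSubgroup E := fun n => M₀ ⊓ tr (t ^ (n + 1))⁻¹ (F n)
    have hKR : ∀ n, RSt R (K n) := fun n => hM₀R.inf ((hFR n).tr (hnk' (n + 1)))
    have hKm : Monotone K := by
      refine monotone_nat_of_le_succ fun n => inf_le_inf_left _ ?_
      intro x hx
      rw [mem_tr, inv_inv] at hx ⊢
      rw [pow_succ', mul_smul]
      exact htF n (smul_mem_tr hx)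
    have hBtr : ∀ g ∈ P, B ≤ tr g B := by
      intro g hg x hx
      rw [mem_tr]
      exact hB _ (P.inv_mem hg) x hx
    have hBK : ∀ n, B ≤ K n := by
      intro n
      refine le_inf hBM ?_
      refine (hBtr (t ^ (n + 1))⁻¹ (P.inv_mem (P.pow_mem ht _))).trans (tr_mono ?_)
      exact hBM.trans (hFm (Nat.zero_le n))
    obtain ⟨n₀, hn₀⟩ := h.1 S (fun n => K n ⊓ X) (fun a b hab => inf_le_inf_right _ (hKm hab))
      (fun n => ⟨inf_le_right, fun g hg x hx => ((hKR n).inf (RS_stable R _)) g hg x hx⟩)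
    have hKX : ∀ n, K n = K n ⊓ X ⊔ B := by
      intro n
      apply le_antisymm
      · intro x hx
        obtain ⟨u, hu, v, hv, rfl⟩ := AddSubgroup.mem_sup.1 hx.1
        have h1 : u ∈ K n := by
          have h2 := (K n).sub_mem hx (hBK n hv)
          rwa [add_sub_cancel_right] at h2
        exact AddSubgroup.add_mem _ (AddSubgroup.mem_sup_left ⟨h1, hu⟩)
          (AddSubgroup.mem_sup_right hv)
      · exact sup_le inf_le_left (hBK n)
    have hKst : ∀ m, n₀ ≤ m → K m = K n₀ := by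
      intro m hm
      rw [hKX m, hKX n₀]
      congr 1
      exact hn₀ m hm
    have hKM : ∀ n, X ⊔ K n = M₀ := by
      intro n
      apply le_antisymm
      · exact sup_le le_sup_left inf_le_left
      · exact sup_le le_sup_left ((hBK n).trans le_sup_right)
    -- the elements
    have hKa : ∀ n, ∃ a : C, a ≠ 0 ∧ ∀ c : C, Prime c → ¬ c ∣ a → Good c a (K n) M₀ := by
      intro n
      obtain ⟨a, ha, h1⟩ := h.2 (K n) S (hKR n)
      refine ⟨a, ha, fun c hc hca => ?_⟩
      have h2 := h1 c hc hca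
      rwa [hKM n] at h2
    choose aK haK hgK using hKa
    obtain ⟨a₀, ha₀, hg₀⟩ := h.2 B S hBR
    -- the union
    set U : AddSubgroup E := ⨆ n, F n with hU
    have hUmem : ∀ x, x ∈ U ↔ ∃ n, x ∈ F n := fun x =>
      AddSubgroup.mem_iSup_of_directed hFm.directed_le
    have hUR : RSt R U := by
      intro g hg x hx
      obtain ⟨n, hn⟩ := (hUmem x).1 hx
      exact (hUmem _).2 ⟨n, hFR n g hg x hn⟩
    have htU : tr t U ≤ U := by
      intro x hx
      rw [mem_tr, hUmem] at hx
      obtain ⟨n, hn⟩ := hx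
      refine (hUmem x).2 ⟨n + 1, htF n ?_⟩
      rw [mem_tr]; exact hn
    have hUeq : U = tr t U ⊔ M₀ := by
      apply le_antisymm
      · intro x hx
        obtain ⟨n, hn⟩ := (hUmem x).1 hx
        have h1 : ∀ n, F n ≤ tr t U ⊔ M₀ := by
          intro n
          induction n with
          | zero => exact le_sup_right
          | succ n ih =>
            rw [hFs]
            refine sup_le ih ?_
            rw [pow_succ', tr_mul]
            refine (tr_mono ((hMF n).trans ?_)).trans le_sup_left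
            exact le_iSup F n
        exact h1 n hn
      · exact sup_le htU (le_iSup F 0)
    set L : AddSubgroup E := tr t U ⊓ M₀ with hL
    have hLR : RSt R L := RSt.inf (hUR.tr hn') hM₀R
    have hBL : B ≤ L := by
      refine le_inf ?_ hBM
      exact (hBtr t ht).trans (tr_mono (hBM.trans (le_iSup F 0)))
    obtain ⟨a₁, ha₁, hg₁⟩ := h.2 L S hLR
    have hXL : X ⊔ L = M₀ :=
      le_antisymm (sup_le le_sup_left inf_le_right) (sup_le le_sup_left (hBL.trans le_sup_right))
    rw [hXL] at hg₁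
    set aa : C := (∏ n ∈ Finset.range (n₀ + 1), aK n) * (a₀ * a₁) with haa
    refine ⟨aa, mul_ne_zero (Finset.prod_ne_zero_iff.2 fun n _ => haK n)
      (mul_ne_zero ha₀ ha₁), fun c hcp hca => ?_⟩
    have hCS : ∀ A : AddSubgroup E, RSt R A → CS C A := fun A hA => hC A (hA.mono hZR)
    have hgood0 : Good c aa B M₀ := by
      have h1 := hg₀ c hcp (fun hd => hca ((hd.mul_right _).mul_left _))
      exact (h1.mul (hCS B hBR) a₁).mul' (hCS B hBR) _
    have hgoodK : ∀ n, Good c aa (K n) M₀ := by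
      have key : ∀ n ≤ n₀, Good c aa (K n) M₀ := by
        intro n hn
        have hmem : n ∈ Finset.range (n₀ + 1) := Finset.mem_range.2 (by omega)
        have hd : aK n ∣ aa := (Finset.dvd_prod_of_mem aK hmem).mul_right _
        obtain ⟨b, hb⟩ := hd
        have h1 := hgK n c hcp (fun hd => hca (by rw [hb]; exact hd.mul_right b))
        rw [hb]
        exact h1.mul (hCS _ (hKR n)) b
      intro n
      by_cases hn : n ≤ n₀
      · exact key n hn
      · rw [hKst n (by omega)]
        exact key n₀ le_rfl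
    have hgoodF : ∀ n, Good c aa (F n) (F (n + 1)) := by
      intro n
      rw [hFs]
      refine Good.sup (hCS _ (hFR n)) ?_ (hCS _ (hM₀R.tr (hnk (n + 1))))
      have h1 := (hgoodK n).tr hcomm (t ^ (n + 1))
      have h2 : tr (t ^ (n + 1)) (K n) = F n ⊓ tr (t ^ (n + 1)) M₀ := by
        rw [tr_inf, ← tr_mul, mul_inv_cancel, tr_one, inf_comm]
      rwa [h2] at h1
    have hgoodU : Good c aa B U := by
      have h1 := Good.union F hFm (hCS _ (hFR 0)) hgoodF
      exact hgood0.trans hBM (le_iSup F 0) h1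
    -- the second union
    let V : ℕ → AddSubgroup E := fun j => tr (t ^ j)⁻¹ U
    have hV0 : V 0 = U := by
      change tr (t ^ 0)⁻¹ U = U
      rw [pow_zero, inv_one, tr_one]
    have hVm : Monotone V := by
      refine monotone_nat_of_le_succ fun j => ?_
      intro x hx
      change x ∈ tr (t ^ j)⁻¹ U at hx
      change x ∈ tr (t ^ (j + 1))⁻¹ U
      rw [mem_tr, inv_inv] at hx ⊢
      rw [pow_succ', mul_smul]
      exact htU (smul_mem_tr hx)
    have hgood1 : Good c aa (tr t U) U := by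
      have h1 := hg₁ c hcp (fun hd => hca ((hd.mul_left _).mul_left _))
      have h2 : Good c aa L M₀ := (h1.mul' (hCS L hLR) a₀).mul' (hCS L hLR) _
      have h3 := Good.sup (hCS _ (hUR.tr hn')) h2 (hCS _ hM₀R)
      rwa [← hUeq] at h3
    have hgoodV : ∀ j, Good c aa (V j) (V (j + 1)) := by
      intro j
      have h1 := hgood1.tr hcomm (t ^ (j + 1))⁻¹
      have h2 : tr (t ^ (j + 1))⁻¹ (tr t U) = V j := by
        rw [← tr_mul]
        congr 1
        rw [pow_succ']; group
      rwa [h2] at h1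
    have hUV : U ≤ ⨆ j, V j := by
      have h1 := le_iSup V 0
      rwa [hV0] at h1
    have hfin := Good.union V hVm (by rw [hV0]; exact hCS U hUR) hgoodV
    rw [hV0] at hfin
    have hfin2 := hgoodU.trans (hBM.trans (le_iSup F 0)) hUV hfin
    have heq : (⨆ j, V j) = RS P (S : Set E) ⊔ B := by
      have hMP : M₀ ≤ RS P (S : Set E) ⊔ B := by
        refine sup_le_sup_right ?_ _
        unfold RS at hX ⊢
        rw [hX, AddSubgroup.closure_le]
        rintro a ⟨g, hg, s, hs, rfl⟩
        exact AddSubgroup.subset_closure ⟨g, hRP hg, s, hs, rfl⟩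
      have hAP : RSt P (RS P (S : Set E) ⊔ B) := RSt.sup (RS_stable P _) hB
      have htr : ∀ g ∈ P, ∀ A : AddSubgroup E, A ≤ RS P (S : Set E) ⊔ B →
          tr g A ≤ RS P (S : Set E) ⊔ B := by
        rintro g hg A hA x ⟨y, hy, rfl⟩
        exact hAP g hg y (hA hy)
      apply le_antisymm
      · refine iSup_le fun j => htr _ (P.inv_mem (P.pow_mem ht _)) _ (iSup_le fun n => ?_)
        induction n with
        | zero => exact hMP
        | succ n ih =>
          rw [hFs]
          exact sup_le ih (htr _ (P.pow_mem ht _) _ hMP)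
      · refine sup_le ?_ (hBM.trans ((le_iSup F 0).trans hUV))
        unfold RS
        rw [AddSubgroup.closure_le]
        rintro a ⟨g, hg, s, hs, rfl⟩
        obtain ⟨k, hk⟩ := hc g hg
        have h1 : (t ^ (-k) * g) • s ∈ M₀ :=
          AddSubgroup.mem_sup_left (RS_stable R _ _ hk _ (sub_RS R _ hs))
        obtain ⟨j, rfl | rfl⟩ := Int.eq_nat_or_neg k
        · have h2 : g • s ∈ tr (t ^ j) M₀ := by
            rw [mem_tr, ← mul_smul]
            rwa [zpow_neg, zpow_natCast] at h1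
          exact ((hMF j).trans ((le_iSup F j).trans hUV)) h2
        · refine (le_iSup V j) ?_
          change g • s ∈ tr (t ^ j)⁻¹ U
          rw [mem_tr, inv_inv, ← mul_smul]
          rw [neg_neg, zpow_natCast] at h1
          exact (le_iSup F 0) h1
    rwa [heq] at hfin2

end

end Pool.Agent.N62
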