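import Pool.Agent.N62.GF2

set_option autoImplicit false

namespace Pool.Agent.N62

open Pool.Agent.Helper294.HallC

section

variable {Γ C E : Type} [Group Γ] [CommRing C] [AddCommGroup E] [Module C E]
  [DistribMulAction Γ E]

theorem PR_top [IsDomain C] (hPC : PC Γ)
    (hcomm : ∀ (g : Γ) (c : C) (e : E), g • c • e = c • g • e)
    (Z₀ : Subgroup Γ) [Z₀.Normal] (hC : ∀ B : AddSubgroup E, RSt Z₀ B → CS C B)
    (h0 : PR C (E := E) Z₀) : PR C (E := E) (⊤ : Subgroup Γ) := by
  have hs := QuotientGroup.mk'_surjective Z₀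
  have h1 := poly_ind (pc_surj hPC (QuotientGroup.mk' Z₀) hs)
    (fun S => PR C (E := E) (S.comap (QuotientGroup.mk' Z₀))) (by
      have h2 : (⊥ : Subgroup (Γ ⧸ Z₀)).comap (QuotientGroup.mk' Z₀) = Z₀ := by
        rw [MonoidHom.comap_bot, QuotientGroup.ker_mk']
      rw [h2]; exact h0) (by
      intro R P t' hRP ht hn hc hR
      obtain ⟨t, rfl⟩ := hs t'
      refine PR_step hcomm Z₀ hC (R.comap (QuotientGroup.mk' Z₀)) (P.comap (QuotientGroup.mk' Z₀))
        ?_ t (Subgroup.comap_mono hRP) ht ?_ ?_ hR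
      · intro x hx
        rw [Subgroup.mem_comap]
        have : QuotientGroup.mk' Z₀ x = 1 := (QuotientGroup.eq_one_iff x).2 hx
        rw [this]; exact R.one_mem
      · intro x
        rw [Subgroup.mem_comap, Subgroup.mem_comap, map_mul, map_mul, map_inv]
        exact hn _
      · intro x hx
        obtain ⟨k, hk⟩ := hc _ hx
        refine ⟨k, ?_⟩
        rw [Subgroup.mem_comap, map_mul, map_zpow]
        exact hk)
  simpa using h1

/-- if all primes of `C` act bijectively then the module vanishes -/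
theorem GF_concl [IsDomain C] [IsPrincipalIdealRing C]
    (hpr : ∀ a : C, a ≠ 0 → ∃ c : C, Prime c ∧ ¬ c ∣ a)
    (h : PR C (E := E) (⊤ : Subgroup Γ)) (S : Finset E) (hS : RS (⊤ : Subgroup Γ) (S : Set E) = ⊤)
    (hinj : ∀ c : C, Prime c → ∀ x : E, c • x = 0 → x = 0)
    (hsurj : ∀ c : C, Prime c → ∀ x : E, ∃ y : E, c • y = x) (x : E) : x = 0 := by
  obtain ⟨a, ha, h1⟩ := h.2 ⊥ S (fun g _ x hx => by
    rw [AddSubgroup.mem_bot] at hx ⊢; rw [hx, smul_zero])
  obtain ⟨c, hc, hca⟩ := hpr a ha
  have h2 := (h1 c hc hca).2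
  rw [hS, top_sup_eq] at h2
  have hainj : ∀ b : C, b ≠ 0 → ∀ x : E, b • x = 0 → x = 0 := by
    intro b
    induction b using UniqueFactorizationMonoid.induction_on_prime with
    | h₁ => intro h; exact absurd rfl h
    | h₂ u hu =>
      intro _ x hx
      obtain ⟨u, rfl⟩ := hu
      have := congrArg (fun y => (↑u⁻¹ : C) • y) hx
      simpa [smul_smul] using this
    | h₃ b p hb hp ih =>
      intro _ x hx
      rw [mul_smul] at hx
      exact ih hb x (hinj p hp _ hx)
  by_contra hx
  obtain ⟨y, -, hy⟩ := h2 ⟨x, AddSubgroup.mem_top x, fun k hk =>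
    hx (hainj (a ^ k) (pow_ne_zero k ha) x ((AddSubgroup.mem_bot).1 hk))⟩
  obtain ⟨w, rfl⟩ := hsurj c hc y
  exact hy w (AddSubgroup.mem_top w) (by rw [sub_self]; exact AddSubgroup.zero_mem _)

end

section Int

variable {Γ E : Type} [Group Γ] [AddCommGroup E] [DistribMulAction Γ E]

theorem RS_bot (S : Set E) : RS (⊥ : Subgroup Γ) S = AddSubgroup.closure S := by
  unfold RS
  congr 1
  ext a
  constructor
  · rintro ⟨g, hg, s, hs, rfl⟩
    rw [Subgroup.mem_bot.1 hg, one_smul]; exact hs
  · intro ha
    exact ⟨1, Subgroup.mem_bot.2 rfl, a, ha, (one_smul _ _).symm⟩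

theorem PR_int : PR ℤ (E := E) (⊥ : Subgroup Γ) := by
  refine ⟨fun S => noe_of_fg_base S, fun B S hB => ?_⟩
  obtain ⟨a, ha, h⟩ := good_fg (C := ℤ) B (fun c x hx => B.zsmul_mem hx c) S
  refine ⟨a, ha, fun c hc hca => ?_⟩
  rw [RS_bot, ← Submodule.span_int_eq_addSubgroupClosure]
  exact h c hc hca

end Int

section Poly

variable {Γ E : Type} [Group Γ] [AddCommGroup E] [DistribMulAction Γ E]

open Polynomial

/-- the linear endomorphism given by a group element -/
def zl (p : ℕ) [Module (ZMod p) E] (z : Γ) : Module.End (ZMod p) E :=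
  (DistribSMul.toAddMonoidHom E z).toZModLinearMap p

theorem zl_apply (p : ℕ) [Module (ZMod p) E] (z : Γ) (e : E) : zl p z e = z • e := rfl

/-- the operator `z + z⁻¹` -/
def zx (p : ℕ) [Module (ZMod p) E] (z : Γ) : Module.End (ZMod p) E := zl p z + zl p z⁻¹

theorem zx_apply (p : ℕ) [Module (ZMod p) E] (z : Γ) (e : E) : zx p z e = z • e + z⁻¹ • e := rfl

theorem zx_stable (p : ℕ) [Module (ZMod p) E] (z : Γ) (B : AddSubgroup E)
    (h1 : ∀ x ∈ B, z • x ∈ B) (h2 : ∀ x ∈ B, z⁻¹ • x ∈ B) (f : (ZMod p)[X]) :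
    ∀ x ∈ B, aeval (zx p z) f x ∈ B := by
  induction f using Polynomial.induction_on' with
  | add f g hf hg =>
    intro x hx
    rw [map_add, LinearMap.add_apply]
    exact B.add_mem (hf x hx) (hg x hx)
  | monomial n a =>
    intro x hx
    rw [aeval_monomial]
    have h3 : ∀ n : ℕ, (zx p z ^ n) x ∈ B := by
      intro n
      induction n with
      | zero => exact hx
      | succ n ih =>
        rw [pow_succ', Module.End.mul_apply, zx_apply]
        exact B.add_mem (h1 _ ih) (h2 _ ih)
    rw [Module.End.mul_apply, Module.algebraMap_end_apply]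
    obtain ⟨k, rfl⟩ := ZMod.intCast_surjective a
    rw [Int.cast_smul_eq_zsmul]
    exact B.zsmul_mem (h3 n) k

theorem zx_comm (p : ℕ) [Module (ZMod p) E] (z : Γ) (g : Γ)
    (h1 : ∀ x : E, g • z • x = z • g • x) (f : (ZMod p)[X]) (x : E) :
    g • aeval (zx p z) f x = aeval (zx p z) f (g • x) := by
  have h2 : ∀ x : E, g • z⁻¹ • x = z⁻¹ • g • x := by
    intro x
    have h3 := h1 (z⁻¹ • x)
    rw [smul_inv_smul] at h3
    rw [h3, inv_smul_smul]
  induction f using Polynomial.induction_on' generalizing x with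
  | add f g hf hg =>
    rw [map_add, LinearMap.add_apply, LinearMap.add_apply, smul_add, hf, hg]
  | monomial n a =>
    rw [aeval_monomial]
    have h3 : ∀ n : ℕ, ∀ x : E, g • (zx p z ^ n) x = (zx p z ^ n) (g • x) := by
      intro n
      induction n with
      | zero => intro x; rfl
      | succ n ih =>
        intro x
        rw [pow_succ, Module.End.mul_apply, ih, Module.End.mul_apply, zx_apply, zx_apply, smul_add,
          h1, h2]
    rw [Module.End.mul_apply, Module.algebraMap_end_apply, Module.End.mul_apply,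
      Module.algebraMap_end_apply]
    obtain ⟨k, rfl⟩ := ZMod.intCast_surjective a
    rw [Int.cast_smul_eq_zsmul, Int.cast_smul_eq_zsmul, ← h3]
    exact map_zsmul (DistribSMul.toAddMonoidHom E g) k _

theorem zx_pow (p : ℕ) [Fact p.Prime] [Module (ZMod p) E] (z : Γ) (f : (ZMod p)[X]) (hf : f ≠ 0)
    (h : ∀ x : E, aeval (zx p z) f x = 0) : ∃ k : ℕ, 0 < k ∧ ∀ x : E, z ^ k • x = x := by
  have hz : ∀ x : E, z • z • x = zx p z (z • x) - x := by
    intro x
    rw [zx_apply, inv_smul_smul]; abel
  have hcz : ∀ (f : (ZMod p)[X]) (x : E), z • aeval (zx p z) f x = aeval (zx p z) f (z • x) :=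
    fun f x => zx_comm p z z (fun _ => rfl) f x
  have key : ∀ k : ℕ, ∃ g h : (ZMod p)[X], ∀ x : E,
      z ^ k • x = aeval (zx p z) g x + aeval (zx p z) h (z • x) := by
    intro k
    induction k with
    | zero => exact ⟨1, 0, fun x => by simp⟩
    | succ k ih =>
      obtain ⟨g, h, hk⟩ := ih
      refine ⟨-h, g + h * X, fun x => ?_⟩
      rw [pow_succ', mul_smul, hk x, smul_add, hcz, hcz, hz, map_sub, map_neg, LinearMap.neg_apply,
        map_add, LinearMap.add_apply, map_mul, aeval_X, Module.End.mul_apply]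
      abel
  have key2 : ∀ k : ℕ, ∃ g h : degreeLT (ZMod p) f.natDegree, ∀ x : E,
      z ^ k • x = aeval (zx p z) g.1 x + aeval (zx p z) h.1 (z • x) := by
    intro k
    obtain ⟨g, h', hk⟩ := key k
    have hmod : ∀ g : (ZMod p)[X], g % f ∈ degreeLT (ZMod p) f.natDegree := by
      intro g
      rw [mem_degreeLT, ← degree_eq_natDegree hf]
      exact EuclideanDomain.mod_lt g hf
    have hmod2 : ∀ (g : (ZMod p)[X]) (x : E), aeval (zx p z) g x = aeval (zx p z) (g % f) x := by
      intro g x
      conv_lhs => rw [← EuclideanDomain.div_add_mod g f]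
      rw [map_add, LinearMap.add_apply, map_mul, Module.End.mul_apply, h, zero_add]
    refine ⟨⟨g % f, hmod g⟩, ⟨h' % f, hmod h'⟩, fun x => ?_⟩
    rw [hk x, hmod2 g, hmod2 h']
  choose G H hGH using key2
  have : Finite (degreeLT (ZMod p) f.natDegree) :=
    Finite.of_equiv _ (degreeLTEquiv (ZMod p) f.natDegree).symm.toEquiv
  obtain ⟨i, j, hij, heq⟩ := Finite.exists_ne_map_eq_of_infinite (fun k : ℕ => (G k, H k))
  have hG : G i = G j := congrArg Prod.fst heq
  have hH : H i = H j := congrArg Prod.snd heq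
  have h1 : ∀ x : E, z ^ i • x = z ^ j • x := by
    intro x
    rw [hGH i, hGH j, hG, hH]
  have main : ∀ i j : ℕ, i < j → (∀ x : E, z ^ i • x = z ^ j • x) →
      ∃ k : ℕ, 0 < k ∧ ∀ x : E, z ^ k • x = x := by
    intro i j hij h1
    refine ⟨j - i, by omega, fun x => ?_⟩
    have h2 := h1 x
    have h3 : j = i + (j - i) := by omega
    rw [h3, pow_add, mul_smul] at h2
    exact (smul_left_cancel _ h2).symm
  rcases Nat.lt_or_gt_of_ne hij with h2 | h2
  · exact main i j h2 h1
  · exact main j i h2 (fun x => (h1 x).symm)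

theorem simple_central' {Q L : Type} [Group Q] [AddCommGroup L] [DistribMulAction Q L]
    (hPC : PC Q) (hs : ∀ B : AddSubgroup L, (∀ q : Q, ∀ x ∈ B, q • x ∈ B) → B = ⊥ ∨ B = ⊤)
    (p : ℕ) [Fact p.Prime] [Module (ZMod p) L] (z : Q) (hz : z ∈ Subgroup.center Q)
    (hne : ∃ x : L, x ≠ 0) : ∃ k : ℕ, 0 < k ∧ ∀ x : L, z ^ k • x = x := by
  by_contra hcon
  have hgz : ∀ (g : Q) (x : L), g • z • x = z • g • x := by
    intro g x
    rw [← mul_smul, ← mul_smul, (Subgroup.mem_center_iff.1 hz g)]
  let mC : Module (ZMod p)[X] L :=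
    Module.compHom L (aeval (zx p z) : (ZMod p)[X] →ₐ[ZMod p] Module.End (ZMod p) L).toRingHom
  have hdef : ∀ (f : (ZMod p)[X]) (x : L), f • x = aeval (zx p z) f x := fun f x => rfl
  have hcomm : ∀ (g : Q) (c : (ZMod p)[X]) (e : L), g • c • e = c • g • e := by
    intro g c e
    rw [hdef, hdef]
    exact zx_comm p z g (hgz g) c e
  have hN : (Subgroup.zpowers z).Normal := ⟨fun n hn g => by
    obtain ⟨k, rfl⟩ := hn
    have h1 : g * z ^ k * g⁻¹ = z ^ k := by
      have h2 := Subgroup.mem_center_iff.1 ((Subgroup.center Q).zpow_mem hz k) g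
      rw [h2, mul_inv_cancel_right]
    change g * z ^ k * g⁻¹ ∈ _
    rw [h1]
    exact ⟨k, rfl⟩⟩
  have hzz : ∀ B : AddSubgroup L, RSt (Subgroup.zpowers z) B → (∀ x ∈ B, z • x ∈ B) ∧
      (∀ x ∈ B, z⁻¹ • x ∈ B) := fun B hB =>
    ⟨fun x hx => hB z (Subgroup.mem_zpowers z) x hx,
      fun x hx => hB z⁻¹ (Subgroup.inv_mem _ (Subgroup.mem_zpowers z)) x hx⟩
  have hC : ∀ B : AddSubgroup L, RSt (Subgroup.zpowers z) B → CS (ZMod p)[X] B := by
    intro B hB c x hx
    rw [hdef]
    exact zx_stable p z B (hzz B hB).1 (hzz B hB).2 c x hx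
  have h0 : PR (ZMod p)[X] (E := L) (Subgroup.zpowers z) := by
    classical
    refine ⟨?_, ?_⟩
    · intro S
      have h1 := noe_step (A := L) (⊥ : Subgroup Q) (Subgroup.zpowers z) z bot_le
        (Subgroup.mem_zpowers z) (by
          intro x
          rw [Subgroup.mem_bot, Subgroup.mem_bot]
          constructor
          · rintro rfl; group
          · intro h
            have h2 : x = z⁻¹ * (z * x * z⁻¹) * z := by group
            rw [h2, h]; group) (by
          rintro x ⟨k, rfl⟩
          exact ⟨k, by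
            rw [Subgroup.mem_bot]
            change z ^ (-k) * z ^ k = 1
            rw [← zpow_add, neg_add_cancel, zpow_zero]⟩)
        (RS (⊥ : Subgroup Q) (S : Set L)) (RS_stable _ _) (noe_of_fg_base S)
      have h2 : AddSubgroup.closure {a : L | ∃ g ∈ Subgroup.zpowers z,
          ∃ x ∈ RS (⊥ : Subgroup Q) (S : Set L), a = g • x} = RS (Subgroup.zpowers z) (S : Set L) := by
        apply le_antisymm
        · rw [AddSubgroup.closure_le]
          rintro a ⟨g, hg, x, hx, rfl⟩
          exact noe_of_fg_stable (Subgroup.zpowers z) ⊥ bot_le (S : Set L)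
            (RS (Subgroup.zpowers z) (S : Set L)) (fun g hg s hs =>
            AddSubgroup.subset_closure ⟨g, hg, s, hs, rfl⟩) g hg x hx
        · unfold RS
          rw [AddSubgroup.closure_le]
          rintro a ⟨g, hg, s, hs, rfl⟩
          exact AddSubgroup.subset_closure ⟨g, hg, s, sub_RS ⊥ _ hs, rfl⟩
      rw [h2] at h1
      exact h1
    · intro B S hB
      obtain ⟨a, ha, h⟩ := good_fg (C := (ZMod p)[X]) B (hC B hB) (S ∪ S.image (fun s => z • s))
      refine ⟨a, ha, fun c hc hca => ?_⟩
      have h1 := h c hc hca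
      have h2 : (Submodule.span (ZMod p)[X] ((S ∪ S.image (fun s => z • s) : Finset L) :
          Set L)).toAddSubgroup = RS (Subgroup.zpowers z) (S : Set L) := by
        set T : Set L := ((S ∪ S.image (fun s => z • s) : Finset L) : Set L) with hT
        have hTs : ∀ s ∈ S, s ∈ T := fun s hs => by
          rw [hT, Finset.mem_coe, Finset.mem_union]; exact Or.inl hs
        have hTz : ∀ s ∈ S, z • s ∈ T := fun s hs => by
          rw [hT, Finset.mem_coe, Finset.mem_union]
          exact Or.inr (Finset.mem_image_of_mem _ hs)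
        apply le_antisymm
        · intro x hx
          have hx' : x ∈ Submodule.span (ZMod p)[X] T := hx
          clear hx
          induction hx' using Submodule.span_induction with
          | mem x hx =>
            rw [hT, Finset.mem_coe, Finset.mem_union, Finset.mem_image] at hx
            rcases hx with hx | ⟨s, hs, rfl⟩
            · exact sub_RS _ _ hx
            · exact RS_stable _ _ z (Subgroup.mem_zpowers z) _ (sub_RS _ _ hs)
          | zero => exact AddSubgroup.zero_mem _
          | add x y hx hy h1 h2 =>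
            exact AddSubgroup.add_mem _ h1 h2
          | smul c x hx h1 => exact hC _ (RS_stable _ _) c x h1
        · have hst : ∀ x ∈ Submodule.span (ZMod p)[X] T, z • x ∈ Submodule.span (ZMod p)[X] T ∧
              z⁻¹ • x ∈ Submodule.span (ZMod p)[X] T := by
            intro x hx
            induction hx using Submodule.span_induction with
            | mem x hx =>
              rw [hT, Finset.mem_coe, Finset.mem_union, Finset.mem_image] at hx
              rcases hx with hx | ⟨s, hs, rfl⟩
              · refine ⟨Submodule.subset_span (hTz x hx), ?_⟩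
                have h3 : z⁻¹ • x = (X : (ZMod p)[X]) • x - z • x := by
                  rw [hdef, aeval_X, zx_apply]; abel
                rw [h3]
                exact Submodule.sub_mem _ (Submodule.smul_mem _ _ (Submodule.subset_span
                  (hTs x hx))) (Submodule.subset_span (hTz x hx))
              · refine ⟨?_, ?_⟩
                · have h3 : z • z • s = (X : (ZMod p)[X]) • (z • s) - s := by
                    rw [hdef, aeval_X, zx_apply, inv_smul_smul]; abel
                  rw [h3]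
                  exact Submodule.sub_mem _ (Submodule.smul_mem _ _ (Submodule.subset_span
                    (hTz s hs))) (Submodule.subset_span (hTs s hs))
                · rw [inv_smul_smul]
                  exact Submodule.subset_span (hTs s hs)
            | zero => rw [smul_zero, smul_zero]; exact ⟨Submodule.zero_mem _, Submodule.zero_mem _⟩
            | add x y hx hy h1 h2 =>
              rw [smul_add, smul_add]
              exact ⟨Submodule.add_mem _ h1.1 h2.1, Submodule.add_mem _ h1.2 h2.2⟩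
            | smul c x hx h1 =>
              rw [hcomm, hcomm]
              exact ⟨Submodule.smul_mem _ _ h1.1, Submodule.smul_mem _ _ h1.2⟩
          unfold RS
          rw [AddSubgroup.closure_le]
          rintro a ⟨g, ⟨k, rfl⟩, s, hs, rfl⟩
          change z ^ k • s ∈ Submodule.span (ZMod p)[X] T
          induction k using Int.induction_on with
          | zero => rw [zpow_zero, one_smul]; exact Submodule.subset_span (hTs s hs)
          | succ i ih => rw [add_comm, zpow_add, zpow_one, mul_smul]; exact (hst _ ih).1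
          | pred i ih =>
            rw [sub_eq_add_neg, add_comm, zpow_add, zpow_neg_one, mul_smul]; exact (hst _ ih).2
      rwa [h2] at h1
  have hPR := PR_top hPC hcomm (Subgroup.zpowers z) hC h0
  obtain ⟨e, he⟩ := hne
  have htop : RS (⊤ : Subgroup Q) (({e} : Finset L) : Set L) = ⊤ := by
    rcases hs (RS (⊤ : Subgroup Q) (({e} : Finset L) : Set L))
      (fun q x hx => RS_stable _ _ q (Subgroup.mem_top q) x hx) with h | h
    · exfalso
      have h1 : e ∈ RS (⊤ : Subgroup Q) (({e} : Finset L) : Set L) := sub_RS _ _ (by simp)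
      rw [h] at h1
      exact he ((AddSubgroup.mem_bot).1 h1)
    · exact h
  have hact : ∀ c : (ZMod p)[X], Prime c → ¬ ∀ x : L, c • x = 0 := by
    intro c hc h
    exact hcon (zx_pow p z c hc.ne_zero h)
  refine he (GF_concl ?_ hPR {e} htop ?_ ?_ e)
  · intro a ha
    have h1 : ¬ IsUnit (X * a + 1 : (ZMod p)[X]) := by
      intro hu
      have h2 := natDegree_eq_zero_of_isUnit hu
      have h3 : (X * a + 1 : (ZMod p)[X]).natDegree = a.natDegree + 1 := by
        rw [show (1 : (ZMod p)[X]) = C 1 from rfl, natDegree_add_C, natDegree_X_mul ha]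
      omega
    have h2 : (X * a + 1 : (ZMod p)[X]) ≠ 0 := by
      intro h
      have h3 : (X * a + 1 : (ZMod p)[X]).natDegree = a.natDegree + 1 := by
        rw [show (1 : (ZMod p)[X]) = C 1 from rfl, natDegree_add_C, natDegree_X_mul ha]
      rw [h] at h3
      simp at h3
    obtain ⟨c, hc, hd⟩ := WfDvdMonoid.exists_irreducible_factor h1 h2
    refine ⟨c, hc.prime, fun hca => hc.not_isUnit ?_⟩
    have h3 : c ∣ 1 := (dvd_add_right (hca.mul_left X)).1 hd
    exact isUnit_of_dvd_one h3
  · intro c hc x hx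
    -- the kernel
    let B : AddSubgroup L := (Submodule.toAddSubgroup (LinearMap.ker (LinearMap.lsmul (ZMod p)[X] L c)))
    have hB : ∀ y, y ∈ B ↔ c • y = 0 := fun y => Iff.rfl
    rcases hs B (fun q y hy => by
      rw [hB] at hy ⊢
      rw [← hcomm, hy, smul_zero]) with h | h
    · have h1 : x ∈ B := (hB x).2 hx
      rw [h] at h1
      exact (AddSubgroup.mem_bot).1 h1
    · exfalso
      refine hact c hc fun y => ?_
      have h1 : y ∈ B := by rw [h]; exact AddSubgroup.mem_top y
      exact (hB y).1 h1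
  · intro c hc x
    let B : AddSubgroup L := (Submodule.toAddSubgroup (LinearMap.range (LinearMap.lsmul (ZMod p)[X] L c)))
    have hB : ∀ y, y ∈ B ↔ ∃ w, c • w = y := fun y => Iff.rfl
    rcases hs B (fun q y hy => by
      rw [hB] at hy ⊢
      obtain ⟨w, rfl⟩ := hy
      exact ⟨q • w, (hcomm q c w).symm⟩) with h | h
    · exfalso
      refine hact c hc fun y => ?_
      have h1 : c • y ∈ B := (hB _).2 ⟨y, rfl⟩
      rw [h] at h1
      exact (AddSubgroup.mem_bot).1 h1
    · have h1 : x ∈ B := by rw [h]; exact AddSubgroup.mem_top x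
      exact (hB x).1 h1

theorem simple_central {Q L : Type} [Group Q] [AddCommGroup L] [DistribMulAction Q L]
    (hPC : PC Q) (hs : ∀ B : AddSubgroup L, (∀ q : Q, ∀ x ∈ B, q • x ∈ B) → B = ⊥ ∨ B = ⊤)
    (p : ℕ) (hp : p.Prime) (hpL : ∀ x : L, p • x = 0) (z : Q) (hz : z ∈ Subgroup.center Q)
    (hne : ∃ x : L, x ≠ 0) : ∃ k : ℕ, 0 < k ∧ ∀ x : L, z ^ k • x = x := by
  have : Fact p.Prime := ⟨hp⟩
  let _ : Module (ZMod p) L := AddCommGroup.zmodModule hpL
  exact simple_central' hPC hs p z hz hne

end Poly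

/-- simple modules have prime characteristic -/
theorem simple_prime {Q L : Type} [Group Q] [AddCommGroup L] [DistribMulAction Q L]
    (hPC : PC Q) (hs : ∀ B : AddSubgroup L, (∀ q : Q, ∀ x ∈ B, q • x ∈ B) → B = ⊥ ∨ B = ⊤)
    (hne : ∃ x : L, x ≠ 0) : ∃ p : ℕ, p.Prime ∧ ∀ x : L, p • x = 0 := by
  by_contra hcon
  push Not at hcon
  have hcomm : ∀ (g : Q) (c : ℤ) (e : L), g • c • e = c • g • e := by
    intro g c e
    exact map_zsmul (DistribSMul.toAddMonoidHom L g) c e
  have hPR := PR_top (C := ℤ) (E := L) hPC hcomm ⊥ (fun B _ c x hx => B.zsmul_mem hx c) PR_int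
  obtain ⟨e, he⟩ := hne
  have htop : RS (⊤ : Subgroup Q) (({e} : Finset L) : Set L) = ⊤ := by
    rcases hs (RS (⊤ : Subgroup Q) (({e} : Finset L) : Set L))
      (fun q x hx => RS_stable _ _ q (Subgroup.mem_top q) x hx) with h | h
    · exfalso
      have h1 : e ∈ RS (⊤ : Subgroup Q) (({e} : Finset L) : Set L) := sub_RS _ _ (by simp)
      rw [h] at h1
      exact he ((AddSubgroup.mem_bot).1 h1)
    · exact h
  have hact : ∀ c : ℤ, Prime c → ¬ ∀ x : L, c • x = 0 := by
    intro c hc h
    obtain ⟨x, hx⟩ := hcon c.natAbs (Int.prime_iff_natAbs_prime.1 hc)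
    apply hx
    have h1 := h x
    rcases Int.natAbs_eq c with h2 | h2
    · rw [h2, natCast_zsmul] at h1; exact h1
    · rw [h2, neg_smul, natCast_zsmul, neg_eq_zero] at h1; exact h1
  refine he (GF_concl ?_ hPR {e} htop ?_ ?_ e)
  · intro a ha
    obtain ⟨q, hq, hqp⟩ := Nat.exists_infinite_primes (a.natAbs + 1)
    refine ⟨q, Nat.prime_iff_prime_int.1 hqp, fun hd => ?_⟩
    have h1 := Int.natAbs_dvd_natAbs.2 hd
    rw [Int.natAbs_natCast] at h1
    have h2 := Nat.le_of_dvd (Int.natAbs_pos.2 ha) h1
    omega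
  · intro c hc x hx
    let B : AddSubgroup L := (Submodule.toAddSubgroup (LinearMap.ker (LinearMap.lsmul ℤ L c)))
    have hB : ∀ y, y ∈ B ↔ c • y = 0 := fun y => Iff.rfl
    rcases hs B (fun q y hy => by
      rw [hB] at hy ⊢
      rw [← hcomm, hy, smul_zero]) with h | h
    · have h1 : x ∈ B := (hB x).2 hx
      rw [h] at h1
      exact (AddSubgroup.mem_bot).1 h1
    · exfalso
      refine hact c hc fun y => ?_
      have h1 : y ∈ B := by rw [h]; exact AddSubgroup.mem_top y
      exact (hB y).1 h1
  · intro c hc x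
    let B : AddSubgroup L := (Submodule.toAddSubgroup (LinearMap.range (LinearMap.lsmul ℤ L c)))
    have hB : ∀ y, y ∈ B ↔ ∃ w, c • w = y := fun y => Iff.rfl
    rcases hs B (fun q y hy => by
      rw [hB] at hy ⊢
      obtain ⟨w, rfl⟩ := hy
      exact ⟨q • w, (hcomm q c w).symm⟩) with h | h
    · exfalso
      refine hact c hc fun y => ?_
      have h1 : c • y ∈ B := (hB _).2 ⟨y, rfl⟩
      rw [h] at h1
      exact (AddSubgroup.mem_bot).1 h1
    · have h1 : x ∈ B := by rw [h]; exact AddSubgroup.mem_top x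
      exact (hB x).1 h1

end Pool.Agent.N62
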