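import Mathlib

set_option autoImplicit false

namespace Pool.Agent.N62

/-- translation of a finitely supported function by `n` -/
noncomputable def shift {p : ℕ} (n : ℤ) (f : ℤ →₀ ZMod p) : ℤ →₀ ZMod p :=
  f.mapDomain (fun i => i + n)

/-- the pairing `∑ i, f i * g i` -/
noncomputable def pair {p : ℕ} (f g : ℤ →₀ ZMod p) : ZMod p :=
  f.sum fun i a => a * g i

/-- the elements `(f, g, c, n)` of P. Hall's group `H_p` -/
@[ext]
structure HG (p : ℕ) where
  f : ℤ →₀ ZMod p
  g : ℤ →₀ ZMod p
  c : ZMod p
  n : ℤ

section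

variable {p : ℕ}

theorem shift_zero (f : ℤ →₀ ZMod p) : shift 0 f = f := by
  unfold shift
  have : (fun i : ℤ => i + 0) = id := by ext i; simp
  rw [this, Finsupp.mapDomain_id]

theorem shift_shift (a b : ℤ) (f : ℤ →₀ ZMod p) : shift a (shift b f) = shift (a + b) f := by
  unfold shift
  rw [← Finsupp.mapDomain_comp]
  congr 1
  ext i
  simp only [Function.comp_apply]
  ring

theorem shift_add (n : ℤ) (f g : ℤ →₀ ZMod p) : shift n (f + g) = shift n f + shift n g :=
  Finsupp.mapDomain_add

theorem shift_z (n : ℤ) : shift n (0 : ℤ →₀ ZMod p) = 0 := Finsupp.mapDomain_zero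

theorem shift_neg (n : ℤ) (f : ℤ →₀ ZMod p) : shift n (-f) = -shift n f := by
  rw [eq_neg_iff_add_eq_zero, ← shift_add, neg_add_cancel, shift_z]

theorem shift_single (n i : ℤ) (a : ZMod p) :
    shift n (Finsupp.single i a) = Finsupp.single (i + n) a := Finsupp.mapDomain_single

theorem shift_apply (n : ℤ) (f : ℤ →₀ ZMod p) (i : ℤ) : shift n f (i + n) = f i :=
  Finsupp.mapDomain_apply (f := fun i : ℤ => i + n) (fun a b h => by simpa using h) f i

theorem pair_add_left (f f' g : ℤ →₀ ZMod p) : pair (f + f') g = pair f g + pair f' g := by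
  unfold pair
  exact Finsupp.sum_add_index' (fun i => zero_mul _) (fun i a b => add_mul a b _)

theorem pair_add_right (f g g' : ℤ →₀ ZMod p) : pair f (g + g') = pair f g + pair f g' := by
  unfold pair
  rw [← Finsupp.sum_add]
  apply Finsupp.sum_congr
  intro i _
  rw [Finsupp.add_apply, mul_add]

theorem pair_zero_left (g : ℤ →₀ ZMod p) : pair 0 g = 0 := Finsupp.sum_zero_index

theorem pair_zero_right (f : ℤ →₀ ZMod p) : pair f 0 = 0 := by
  have h := pair_add_right f 0 0
  rw [add_zero] at h
  exact left_eq_add.1 h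

theorem pair_neg_left (f g : ℤ →₀ ZMod p) : pair (-f) g = -pair f g := by
  rw [eq_neg_iff_add_eq_zero, ← pair_add_left, neg_add_cancel, pair_zero_left]

theorem pair_neg_right (f g : ℤ →₀ ZMod p) : pair f (-g) = -pair f g := by
  rw [eq_neg_iff_add_eq_zero, ← pair_add_right, neg_add_cancel, pair_zero_right]

theorem pair_single_left (i : ℤ) (a : ZMod p) (g : ℤ →₀ ZMod p) :
    pair (Finsupp.single i a) g = a * g i := Finsupp.sum_single_index (zero_mul _)

theorem pair_single_right (f : ℤ →₀ ZMod p) (j : ℤ) (b : ZMod p) :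
    pair f (Finsupp.single j b) = f j * b := by
  induction f using Finsupp.induction_linear with
  | zero => rw [pair_zero_left]; simp
  | add f g hf hg => rw [pair_add_left, hf, hg, Finsupp.add_apply, add_mul]
  | single i a =>
    rw [pair_single_left]
    by_cases h : i = j
    · subst h; simp
    · rw [Finsupp.single_eq_of_ne (Ne.symm h), Finsupp.single_eq_of_ne h, mul_zero, zero_mul]

theorem pair_shift (n : ℤ) (f g : ℤ →₀ ZMod p) : pair (shift n f) (shift n g) = pair f g := by
  induction f using Finsupp.induction_linear with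
  | zero => rw [shift_z, pair_zero_left, pair_zero_left]
  | add f g hf hg => rw [shift_add, pair_add_left, hf, hg, pair_add_left]
  | single i a => rw [shift_single, pair_single_left, shift_apply, pair_single_left]

noncomputable instance : Mul (HG p) :=
  ⟨fun a b => ⟨a.f + shift a.n b.f, a.g + shift a.n b.g, a.c + b.c + pair a.f (shift a.n b.g),
    a.n + b.n⟩⟩

noncomputable instance : One (HG p) := ⟨⟨0, 0, 0, 0⟩⟩

noncomputable instance : Inv (HG p) :=
  ⟨fun a => ⟨-shift (-a.n) a.f, -shift (-a.n) a.g, -a.c + pair a.f a.g, -a.n⟩⟩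

theorem HG.mul_def (a b : HG p) : a * b =
    ⟨a.f + shift a.n b.f, a.g + shift a.n b.g, a.c + b.c + pair a.f (shift a.n b.g),
      a.n + b.n⟩ := rfl

theorem HG.one_def : (1 : HG p) = ⟨0, 0, 0, 0⟩ := rfl

theorem HG.inv_def (a : HG p) : a⁻¹ =
    ⟨-shift (-a.n) a.f, -shift (-a.n) a.g, -a.c + pair a.f a.g, -a.n⟩ := rfl

/-- the multiplication `(f, g, c, n) (f', g', c', n') =
(f + T^n f', g + T^n g', c + c' + ⟨f, T^n g'⟩, n + n')`. -/
noncomputable instance : Group (HG p) :=
  Group.ofLeftAxioms
    (by
      intro a b c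
      rw [HG.mul_def, HG.mul_def, HG.mul_def, HG.mul_def]
      ext1
      · change a.f + shift a.n b.f + shift (a.n + b.n) c.f = a.f + shift a.n (b.f + shift b.n c.f)
        rw [shift_add, shift_shift, add_assoc]
      · change a.g + shift a.n b.g + shift (a.n + b.n) c.g = a.g + shift a.n (b.g + shift b.n c.g)
        rw [shift_add, shift_shift, add_assoc]
      · change a.c + b.c + pair a.f (shift a.n b.g) + c.c +
          pair (a.f + shift a.n b.f) (shift (a.n + b.n) c.g) =
          a.c + (b.c + c.c + pair b.f (shift b.n c.g)) +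
          pair a.f (shift a.n (b.g + shift b.n c.g))
        rw [shift_add, shift_shift, pair_add_left, pair_add_right, ← shift_shift a.n b.n c.g,
          pair_shift]
        ring
      · change a.n + b.n + c.n = a.n + (b.n + c.n)
        ring)
    (by
      intro a
      rw [HG.mul_def, HG.one_def]
      ext1
      · change 0 + shift 0 a.f = a.f
        rw [shift_zero, zero_add]
      · change 0 + shift 0 a.g = a.g
        rw [shift_zero, zero_add]
      · change 0 + a.c + pair 0 (shift 0 a.g) = a.c
        rw [pair_zero_left, zero_add, add_zero]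
      · change 0 + a.n = a.n
        rw [zero_add])
    (by
      intro a
      rw [HG.mul_def, HG.one_def, HG.inv_def]
      ext1
      · change -shift (-a.n) a.f + shift (-a.n) a.f = 0
        rw [neg_add_cancel]
      · change -shift (-a.n) a.g + shift (-a.n) a.g = 0
        rw [neg_add_cancel]
      · change -a.c + pair a.f a.g + a.c + pair (-shift (-a.n) a.f) (shift (-a.n) a.g) = 0
        rw [pair_neg_left, pair_shift]
        ring
      · change -a.n + a.n = 0
        rw [neg_add_cancel])

end

end Pool.Agent.N62
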