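import Pool.Agent.N62.RF1

set_option autoImplicit false

namespace Pool.Agent.N62

open Pool.Agent.Helper294.HallC
open Pool.Agent.H53R2
open scoped commutatorElement

section

variable {H : Type} [Group H]

/-- elements of `N` commuting with `N` modulo `R` -/
def UU (N R : Subgroup H) [N.Normal] [R.Normal] : Subgroup H where
  carrier := {y | y ∈ N ∧ ∀ x ∈ N, ⁅y, x⁆ ∈ R}
  one_mem' := ⟨N.one_mem, fun x _ => by rw [commutatorElement_one_left]; exact R.one_mem⟩
  mul_mem' := by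
    rintro a b ⟨ha, ha'⟩ ⟨hb, hb'⟩
    refine ⟨N.mul_mem ha hb, fun x hx => ?_⟩
    have h1 : ⁅a * b, x⁆ = a * ⁅b, x⁆ * a⁻¹ * ⁅a, x⁆ := by
      rw [commutatorElement_def, commutatorElement_def, commutatorElement_def]; group
    rw [h1]
    exact R.mul_mem ((inferInstance : R.Normal).conj_mem _ (hb' x hx) a) (ha' x hx)
  inv_mem' := by
    rintro a ⟨ha, ha'⟩
    refine ⟨N.inv_mem ha, fun x hx => ?_⟩
    have h1 : ⁅a⁻¹, x⁆ = a⁻¹ * ⁅a, x⁆⁻¹ * a⁻¹⁻¹ := by
      rw [commutatorElement_def, commutatorElement_def]; group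
    rw [h1]
    exact (inferInstance : R.Normal).conj_mem _ (R.inv_mem (ha' x hx)) _

theorem mem_UU {N R : Subgroup H} [N.Normal] [R.Normal] {y : H} :
    y ∈ UU N R ↔ y ∈ N ∧ ∀ x ∈ N, ⁅y, x⁆ ∈ R := Iff.rfl

instance (N R : Subgroup H) [N.Normal] [R.Normal] : (UU N R).Normal := by
  constructor
  rintro y ⟨hy, hy'⟩ g
  refine ⟨(inferInstance : N.Normal).conj_mem y hy g, fun x hx => ?_⟩
  have h1 := (inferInstance : R.Normal).conj_mem _
    (hy' (g⁻¹ * x * g⁻¹⁻¹) ((inferInstance : N.Normal).conj_mem x hx g⁻¹)) g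
  have h2 : g * ⁅y, g⁻¹ * x * g⁻¹⁻¹⁆ * g⁻¹ = ⁅g * y * g⁻¹, x⁆ := by
    rw [commutatorElement_def, commutatorElement_def]; group
  rwa [h2] at h1

theorem UU_le (N R : Subgroup H) [N.Normal] [R.Normal] : UU N R ≤ N := fun _ h => h.1

/-- the subgroup of elements commuting with `z` modulo `R` -/
def CM (z : H) (R : Subgroup H) [R.Normal] : Subgroup H where
  carrier := {x | ⁅z, x⁆ ∈ R}
  one_mem' := by
    change ⁅z, (1 : H)⁆ ∈ R
    rw [commutatorElement_one_right]; exact R.one_mem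
  mul_mem' := by
    intro a b ha hb
    change ⁅z, a * b⁆ ∈ R
    have h1 : ⁅z, a * b⁆ = ⁅z, a⁆ * (a * ⁅z, b⁆ * a⁻¹) := by
      rw [commutatorElement_def, commutatorElement_def, commutatorElement_def]; group
    rw [h1]
    exact R.mul_mem ha ((inferInstance : R.Normal).conj_mem _ hb a)
  inv_mem' := by
    intro a ha
    change ⁅z, a⁻¹⁆ ∈ R
    have h1 : ⁅z, a⁻¹⁆ = a⁻¹ * ⁅z, a⁆⁻¹ * a⁻¹⁻¹ := by
      rw [commutatorElement_def, commutatorElement_def]; group
    rw [h1]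
    exact (inferInstance : R.Normal).conj_mem _ (R.inv_mem ha) _

theorem mem_CM {z : H} {R : Subgroup H} [R.Normal] {x : H} : x ∈ CM z R ↔ ⁅z, x⁆ ∈ R := Iff.rfl

/-- one step of the upper central series -/
theorem NFin_step (u : UI) (hG : u.Grp H) (N : Subgroup H) [N.Normal] (r : ℕ) (t : Fin r → H)
    (hgen : ∀ g : H, ∃ k : Fin r → ℤ, ∃ ν ∈ N, g = ν * (List.ofFn fun i => t i ^ k i).prod)
    (S : Finset H) (hS : N = Subgroup.normalClosure (S : Set H)) (R : Subgroup H) [R.Normal]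
    (hfin : Finite ↥(UU N R)) : Finite ↥(UU N (UU N R)) := by
  classical
  obtain ⟨K, hK⟩ := U_multi u
  set X := UU N R with hX
  set Y := UU N X with hY
  have hYN : Y ≤ N := UU_le N X
  have hSN : ∀ s ∈ S, s ∈ N := fun s hs => by rw [hS]; exact Subgroup.subset_normalClosure hs
  have hYNN : ⁅⁅Y, N⁆, N⁆ ≤ R := by
    rw [Subgroup.commutator_le]
    intro a ha b hb
    have h1 : ⁅Y, N⁆ ≤ X := by
      rw [Subgroup.commutator_le]
      intro y hy x hx
      exact hy.2 x hx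
    exact (h1 ha).2 b hb
  have h3 : ⁅Y, ⁅N, N⁆⁆ ≤ R := K_three hYNN
  let w : (Fin r → ℤ) → H := fun k => (List.ofFn fun i => t i ^ k i).prod
  -- the key claim
  have key : ∀ z ∈ Y, (∀ s ∈ S, ∀ k : Fin r → ℤ, (∀ i, k i ∈ K) → ⁅z, w k * s * (w k)⁻¹⁆ ∈ R) →
      z ∈ X := by
    intro z hz h
    refine ⟨hYN hz, ?_⟩
    have hN : N ≤ CM z R := by
      have hcl : ∀ s ∈ S, ∀ g : H, g * s * g⁻¹ ∈ CM z R := by
        intro s hs g
        obtain ⟨k, ν, hν, rfl⟩ := hgen g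
        have h4 : ⁅z, w k * s * (w k)⁻¹⁆ ∈ R :=
          hK r H hG N Y R hYN hYNN z hz s (hSN s hs) t (h s hs) k
        have h5 : w k * s * (w k)⁻¹ ∈ N := (inferInstance : N.Normal).conj_mem s (hSN s hs) _
        have h6 : ν * w k * s * (ν * w k)⁻¹ = ⁅ν, w k * s * (w k)⁻¹⁆ * (w k * s * (w k)⁻¹) := by
          rw [commutatorElement_def]; group
        change ν * w k * s * (ν * w k)⁻¹ ∈ CM z R
        rw [h6]
        refine (CM z R).mul_mem ?_ h4
        rw [mem_CM]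
        exact h3 (Subgroup.commutator_mem_commutator hz (Subgroup.commutator_mem_commutator hν h5))
      conv_lhs => rw [hS, Subgroup.normalClosure]
      rw [Subgroup.closure_le]
      intro x hx
      obtain ⟨s, hs, hsx⟩ := Group.mem_conjugatesOfSet_iff.1 hx
      obtain ⟨g, rfl⟩ := isConj_iff.1 hsx
      exact hcl s hs g
    exact fun x hx => hN hx
  -- the finite parametrization
  let T : Type := ↥S × ↥(Fintype.piFinset fun _ : Fin r => K)
  let Φ : ↥Y → (T → ↥X) := fun y τ => ⟨⁅(y : H), w τ.2.1 * τ.1.1 * (w τ.2.1)⁻¹⁆,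
    y.2.2 _ ((inferInstance : N.Normal).conj_mem _ (hSN _ τ.1.2) _)⟩
  -- cosets
  have hidx : (X.subgroupOf Y).FiniteIndex := by
    have hinj : ∀ y y' : ↥Y, Φ y = Φ y' → (y⁻¹ * y' : ↥Y) ∈ X.subgroupOf Y := by
      intro y y' hyy
      rw [Subgroup.mem_subgroupOf]
      refine key _ (y⁻¹ * y' : ↥Y).2 ?_
      intro s hs k hk
      have h1 := congrArg Subtype.val (congrFun hyy (⟨s, hs⟩, ⟨k, Fintype.mem_piFinset.2 hk⟩))
      change ⁅(y : H), w k * s * (w k)⁻¹⁆ = ⁅(y' : H), w k * s * (w k)⁻¹⁆ at h1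
      have h2 : ⁅((y⁻¹ * y' : ↥Y) : H), w k * s * (w k)⁻¹⁆ = 1 := by
        generalize w k * s * (w k)⁻¹ = x at h1
        rw [Subgroup.coe_mul, Subgroup.coe_inv]
        have h4 : ⁅(y : H)⁻¹ * (y' : H), x⁆ = (y : H)⁻¹ * (⁅(y' : H), x⁆ * ⁅(y : H), x⁆⁻¹) *
            (y : H) := by
          rw [commutatorElement_def, commutatorElement_def, commutatorElement_def]; group
        rw [h4, h1]; group
      rw [h2]
      exact R.one_mem
    have hfinT : Finite (T → ↥X) := inferInstance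
    let Ψ : ↥Y ⧸ X.subgroupOf Y → (T → ↥X) := fun q => Φ q.out
    have hΨ : Function.Injective Ψ := by
      intro a b hab
      have h1 := hinj _ _ hab
      rw [← QuotientGroup.eq, QuotientGroup.out_eq', QuotientGroup.out_eq'] at h1
      exact h1
    have h2 : Finite (↥Y ⧸ X.subgroupOf Y) := Finite.of_injective Ψ hΨ
    exact Subgroup.finiteIndex_of_finite_quotient
  have h1 : Finite ↥(X.subgroupOf Y) :=
    Finite.of_injective (fun x : ↥(X.subgroupOf Y) => (⟨(x : ↥Y), x.2⟩ : ↥X)) (by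
      intro a b hab
      apply Subtype.ext
      apply Subtype.ext
      exact congrArg (Subtype.val : ↥X → H) hab)
  exact (Subgroup.finite_iff_finite_and_finiteIndex (H := X.subgroupOf Y)).2 ⟨h1, hidx⟩

end

end Pool.Agent.N62
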