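import Pool.Agent.N62.Pair
import Pool.Agent.N62.RF2

set_option autoImplicit false

namespace Pool.Agent.N62

open Pool.Agent.Helper294.HallC
open Pool.Agent.H53R2
open scoped commutatorElement

theorem exists_monolithic {P : Type} [Group P] (c : P) (hc : c ≠ 1) :
    ∃ N : Subgroup P, N.Normal ∧ c ∉ N ∧ ∀ M : Subgroup P, M.Normal → N ≤ M → c ∉ M → M = N := by
  obtain ⟨N, -, hN⟩ := zorn_le_nonempty₀ {N : Subgroup P | N.Normal ∧ c ∉ N} (by
    intro C hC hchain N₀ hN₀
    have hne : C.Nonempty := ⟨N₀, hN₀⟩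
    have hmem : ∀ x, x ∈ sSup C ↔ ∃ N ∈ C, x ∈ N := fun x =>
      Subgroup.mem_sSup_of_directedOn hne hchain.directedOn
    refine ⟨sSup C, ⟨⟨fun x hx g => ?_⟩, fun hx => ?_⟩, fun N hN => le_sSup hN⟩
    · obtain ⟨N, hN, hxN⟩ := (hmem x).1 hx
      exact (hmem _).2 ⟨N, hN, (hC hN).1.conj_mem x hxN g⟩
    · obtain ⟨N, hN, hxN⟩ := (hmem c).1 hx
      exact (hC hN).2 hxN) ⊥ ⟨inferInstance, fun h => hc (Subgroup.mem_bot.1 h)⟩
  refine ⟨N, hN.prop.1, hN.prop.2, fun M hM hle hcM => ?_⟩
  exact le_antisymm (hN.le_of_ge ⟨hM, hcM⟩ hle) hle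

/-- monolithic groups: finitely generated central sections of a normal subgroup with nilpotent
quotient -/
theorem mono_fin2 {G : Type} [Group G] (g : G) (hg : g ≠ 1)
    (hmono : ∀ M : Subgroup G, M.Normal → M ≠ ⊥ → g ∈ M) (K : Subgroup G) [K.Normal]
    [Group.IsNilpotent (G ⧸ K)] [Group.FG (G ⧸ K)] (S : Finset G) (A : Subgroup G) [A.Normal]
    (hA : A = Subgroup.normalClosure (S : Set G))
    (hAA : ∀ x ∈ A, ∀ y ∈ A, x * y = y * x) (hAK : ∀ x ∈ A, ∀ y ∈ K, x * y = y * x) :
    Finite ↥A := by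
  by_cases hA0 : A = ⊥
  · rw [hA0]; infer_instance
  have hgA := hmono A inferInstance hA0
  obtain ⟨E, _, _, ⟨s⟩⟩ := exists_secMod (QuotientGroup.mk' K) (QuotientGroup.mk'_surjective K) ⊥ A
    (by
      rw [Subgroup.commutator_le]
      intro x hx y hy
      rw [Subgroup.mem_bot, commutatorElement_eq_one_iff_mul_comm]
      exact hAA x hx y hy) (by
      rw [QuotientGroup.ker_mk', Subgroup.commutator_le]
      intro x hx y hy
      rw [Subgroup.mem_bot, commutatorElement_eq_one_iff_mul_comm]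
      exact hAK x hx y hy)
  have hSA : (S : Set G) ⊆ A := by rw [hA]; exact Subgroup.subset_normalClosure
  have hfgm := K_fgm s S hSA (by rw [← hA]; exact le_sup_left) bot_le
  have hE : Finite E := by
    refine hall_fin (G ⧸ K) E hfgm (s.π ⟨g, hgA⟩).toAdd ?_ ?_
    · intro h
      have h1 : s.π ⟨g, hgA⟩ = 1 := h
      exact hg (Subgroup.mem_bot.1 ((s.ker _).1 h1))
    · intro B hB hne
      let P : Subgroup G :=
        { carrier := {g | ∃ h : g ∈ A, (s.π ⟨g, h⟩).toAdd ∈ B}
          one_mem' := ⟨A.one_mem, by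
            have : s.π ⟨1, A.one_mem⟩ = 1 := map_one s.π
            rw [this]; exact B.zero_mem⟩
          mul_mem' := by
            rintro a b ⟨ha, ha'⟩ ⟨hb, hb'⟩
            refine ⟨A.mul_mem ha hb, ?_⟩
            have : s.π ⟨a * b, A.mul_mem ha hb⟩ = s.π ⟨a, ha⟩ * s.π ⟨b, hb⟩ :=
              map_mul s.π ⟨a, ha⟩ ⟨b, hb⟩
            rw [this]; exact B.add_mem ha' hb'
          inv_mem' := by
            rintro a ⟨ha, ha'⟩
            refine ⟨A.inv_mem ha, ?_⟩
            have : s.π ⟨a⁻¹, A.inv_mem ha⟩ = (s.π ⟨a, ha⟩)⁻¹ := map_inv s.π ⟨a, ha⟩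
            rw [this]; exact B.neg_mem ha' }
      have hPn : P.Normal := by
        constructor
        rintro a ⟨ha, ha'⟩ g
        refine ⟨(inferInstance : A.Normal).conj_mem a ha g, ?_⟩
        rw [s.act g ⟨a, ha⟩ _ rfl]
        exact hB _ _ ha'
      have hPne : P ≠ ⊥ := by
        intro h
        apply hne
        rw [eq_bot_iff]
        intro b hb
        obtain ⟨y, hy⟩ := s.surj (Multiplicative.ofAdd b)
        have h2 : (y : G) ∈ P := ⟨y.2, by
          change (s.π y).toAdd ∈ B
          rw [hy]; exact hb⟩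
        rw [h] at h2
        have h3 := (s.ker y).2 h2
        rw [hy] at h3
        exact (AddSubgroup.mem_bot).2 h3
      exact (hmono P hPn hPne).2
  refine Finite.of_injective s.π ?_
  rw [injective_iff_map_eq_one]
  intro a ha
  exact Subtype.ext (Subgroup.mem_bot.1 ((s.ker a).1 ha))

/-- the relations of the group `H_p` -/
structure HRel {G : Type} [Group G] (p : ℕ) (b m s z : G) : Prop where
  z1 : z ≠ 1
  zp : z ^ p = 1
  bp : b ^ p = 1
  mp : m ^ p = 1
  bm : ⁅b, m⁆ = z
  zb : z * b = b * z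
  zm : z * m = m * z
  zs : z * s = s * z
  bb : ∀ i : ℤ, i ≠ 0 → b * cj s i b = cj s i b * b
  mm : ∀ i : ℤ, i ≠ 0 → m * cj s i m = cj s i m * m
  bs : ∀ i : ℤ, i ≠ 0 → b * cj s i m = cj s i m * b

theorem two_rel {G : Type} [Group G] (x y t : G) (hgen : Subgroup.closure {x, y, t} = ⊤)
    (hxx : ∀ i : ℤ, i ≠ 0 → x * cj t i x = cj t i x * x)
    (hyy : ∀ i : ℤ, i ≠ 0 → y * cj t i y = cj t i y * y)
    (hxy : ∀ i : ℤ, i ≠ 0 → x * cj t i y = cj t i y * x)
    (htwo : Two x y) (hmono : ∀ M : Subgroup G, M.Normal → M ≠ ⊥ → ⁅x, y⁆ ∈ M) :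
    ∃ p : ℕ, p.Prime ∧ ∃ b m s : G, HRel p b m s ⁅x, y⁆ := by
  classical
  obtain ⟨hc1, hcx, hcy⟩ := htwo
  set c := ⁅x, y⁆ with hc
  have hyx : ∀ i : ℤ, i ≠ 0 → y * cj t i x = cj t i x * y := by
    intro i hi
    have h1 := hxy (-i) (neg_ne_zero.2 hi)
    apply cj_inj t (-i)
    rw [cj_mul, cj_mul, ← cj_add, neg_add_cancel, cj_zero]
    exact h1.symm
  -- the subgroup `D`
  set T : Set G := (Set.range fun i => cj t i x) ∪ (Set.range fun i => cj t i y) with hT
  set D : Subgroup G := Subgroup.closure T with hD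
  have hDx : ∀ i, cj t i x ∈ D := fun i => Subgroup.subset_closure (Or.inl ⟨i, rfl⟩)
  have hDy : ∀ i, cj t i y ∈ D := fun i => Subgroup.subset_closure (Or.inr ⟨i, rfl⟩)
  have hxD : x ∈ D := by have := hDx 0; rwa [cj_zero] at this
  have hyD : y ∈ D := by have := hDy 0; rwa [cj_zero] at this
  have hDcj : ∀ (j : ℤ) (u : G), u ∈ D → cj t j u ∈ D := by
    intro j u hu
    rw [hD] at hu
    induction hu using Subgroup.closure_induction with
    | mem u hu =>
      rcases hu with ⟨i, rfl⟩ | ⟨i, rfl⟩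
      · change cj t j (cj t i x) ∈ D
        rw [← cj_add]; exact hDx _
      · change cj t j (cj t i y) ∈ D
        rw [← cj_add]; exact hDy _
    | one => rw [cj_one]; exact D.one_mem
    | mul a b _ _ ha hb => rw [cj_mul]; exact D.mul_mem ha hb
    | inv a _ ha => rw [cj_inv]; exact D.inv_mem ha
  have hDn : D.Normal := by
    rw [← Subgroup.normalizer_eq_top_iff, eq_top_iff, ← hgen, Subgroup.closure_le]
    rintro u (rfl | rfl | hu)
    · exact Subgroup.le_normalizer hxD
    · exact Subgroup.le_normalizer hyD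
    · rw [Set.mem_singleton_iff] at hu
      subst hu
      rw [SetLike.mem_coe, Subgroup.mem_normalizer_iff]
      intro h
      constructor
      · intro hh
        have := hDcj 1 h hh
        simpa [cj] using this
      · intro hh
        have h1 := hDcj (-1) _ hh
        have h2 : cj u (-1) (u * h * u⁻¹) = h := by unfold cj; group
        rwa [h2] at h1
  -- the quotient is cyclic
  have hQgen : Subgroup.closure {QuotientGroup.mk' D t} = ⊤ := by
    rw [eq_top_iff]
    have h1 : (⊤ : Subgroup (G ⧸ D)) = (⊤ : Subgroup G).map (QuotientGroup.mk' D) := by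
      rw [Subgroup.map_top_of_surjective _ (QuotientGroup.mk'_surjective D)]
    rw [h1, ← hgen, MonoidHom.map_closure, Subgroup.closure_le]
    rintro _ ⟨u, (rfl | rfl | hu), rfl⟩
    · have : QuotientGroup.mk' D u = 1 := (QuotientGroup.eq_one_iff u).2 hxD
      rw [this]; exact Subgroup.one_mem _
    · have : QuotientGroup.mk' D u = 1 := (QuotientGroup.eq_one_iff u).2 hyD
      rw [this]; exact Subgroup.one_mem _
    · rw [Set.mem_singleton_iff] at hu
      subst hu
      exact Subgroup.subset_closure rfl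
  have hQfg : Group.FG (G ⧸ D) := ⟨⟨{QuotientGroup.mk' D t}, by
    rw [Finset.coe_singleton]; exact hQgen⟩⟩
  have hQnil : Group.IsNilpotent (G ⧸ D) := by
    have hcyc : ∀ a : G ⧸ D, ∃ k : ℤ, (QuotientGroup.mk' D t) ^ k = a := by
      intro a
      have : a ∈ Subgroup.closure {QuotientGroup.mk' D t} := by rw [hQgen]; trivial
      exact Subgroup.mem_closure_singleton.1 this
    apply E_nilp 1
    rw [Lw_succ, Lw_zero, eq_bot_iff, Subgroup.commutator_le]
    intro a _ b _
    rw [Subgroup.mem_bot, commutatorElement_eq_one_iff_mul_comm]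
    obtain ⟨k, rfl⟩ := hcyc a
    obtain ⟨l, rfl⟩ := hcyc b
    rw [← zpow_add, ← zpow_add, add_comm]
  -- the centralizer
  set Z : Subgroup G := Subgroup.centralizer (D : Set G) with hZ
  have hZn : Z.Normal := by rw [hZ]; infer_instance
  have hZmem : ∀ u : G, (∀ i, u * cj t i x = cj t i x * u) → (∀ i, u * cj t i y = cj t i y * u) →
      u ∈ Z := by
    intro u h1 h2
    rw [hZ, Subgroup.mem_centralizer_iff]
    have h3 : D ≤ Subgroup.centralizer {u} := by
      rw [hD, Subgroup.closure_le]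
      rintro _ (⟨i, rfl⟩ | ⟨i, rfl⟩)
      · rw [SetLike.mem_coe, Subgroup.mem_centralizer_singleton_iff]
        exact (h1 i).symm
      · rw [SetLike.mem_coe, Subgroup.mem_centralizer_singleton_iff]
        exact (h2 i).symm
    intro v hv
    have h4 := h3 hv
    rwa [Subgroup.mem_centralizer_singleton_iff] at h4
  have hZD : ∀ u ∈ Z, ∀ v ∈ D, u * v = v * u := fun u hu v hv =>
    (Subgroup.mem_centralizer_iff.1 hu v hv).symm
  have hcZ : c ∈ Z := by
    apply hZmem
    · intro i
      by_cases hi : i = 0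
      · subst hi; rw [cj_zero]; exact hcx.symm
      · have h1 : Commute x (cj t i x) := hxx i hi
        have h2 : Commute y (cj t i x) := hyx i hi
        rw [hc, commutatorElement_def]
        exact (((h1.mul_left h2).mul_left h1.inv_left).mul_left h2.inv_left).eq
    · intro i
      by_cases hi : i = 0
      · subst hi; rw [cj_zero]; exact hcy.symm
      · have h1 : Commute x (cj t i y) := hxy i hi
        have h2 : Commute y (cj t i y) := hyy i hi
        rw [hc, commutatorElement_def]
        exact (((h1.mul_left h2).mul_left h1.inv_left).mul_left h2.inv_left).eq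
  have hcD : c ∈ D := by
    rw [hc, commutatorElement_def]
    exact D.mul_mem (D.mul_mem (D.mul_mem hxD hyD) (D.inv_mem hxD)) (D.inv_mem hyD)
  -- finiteness of finitely generated normal subgroups in `Z ⊓ D`
  have hfin : ∀ S : Finset G, (∀ s ∈ S, s ∈ Z ⊓ D) →
      Finite ↥(Subgroup.normalClosure (S : Set G)) := by
    intro S hS
    have hle : Subgroup.normalClosure (S : Set G) ≤ Z ⊓ D :=
      Subgroup.normalClosure_le_normal (fun s hs => hS s hs)
    exact mono_fin2 c hc1 hmono D S (Subgroup.normalClosure (S : Set G)) rfl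
      (fun u hu v hv => hZD u (hle hu).1 v (hle hv).2)
      (fun u hu v hv => hZD u (hle hu).1 v hv)
  have hfinc := hfin {c} (fun s hs => by
    rw [Finset.mem_singleton] at hs; subst hs; exact ⟨hcZ, hcD⟩)
  have hcord : IsOfFinOrder c := by
    have hcm : c ∈ Subgroup.normalClosure (({c} : Finset G) : Set G) :=
      Subgroup.subset_normalClosure (by simp)
    have h1 : IsOfFinOrder (⟨c, hcm⟩ : ↥(Subgroup.normalClosure (({c} : Finset G) : Set G))) :=
      isOfFinOrder_of_finite _
    exact (Subgroup.normalClosure (({c} : Finset G) : Set G)).subtype.isOfFinOrder h1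
  have hord1 : orderOf c ≠ 1 := fun h => hc1 (orderOf_eq_one_iff.1 h)
  set p := (orderOf c).minFac with hp
  have hpp : p.Prime := Nat.minFac_prime hord1
  have hpd : p ∣ orderOf c := Nat.minFac_dvd _
  have hcp : c ^ p = 1 := by
    let Ω : Subgroup G :=
      { carrier := {e | e ∈ Z ⊓ D ∧ e ^ p = 1}
        one_mem' := ⟨Subgroup.one_mem _, one_pow p⟩
        mul_mem' := by
          rintro a b ⟨ha, ha'⟩ ⟨hb, hb'⟩
          refine ⟨Subgroup.mul_mem _ ha hb, ?_⟩
          have h1 : Commute a b := hZD a ha.1 b hb.2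
          rw [h1.mul_pow, ha', hb', one_mul]
        inv_mem' := by
          rintro a ⟨ha, ha'⟩
          exact ⟨Subgroup.inv_mem _ ha, by rw [inv_pow, ha', inv_one]⟩ }
    have hΩn : Ω.Normal := by
      constructor
      rintro a ⟨ha, ha'⟩ g
      refine ⟨(inferInstance : (Z ⊓ D).Normal).conj_mem a ha g, ?_⟩
      rw [conj_pow, ha', mul_one, mul_inv_cancel]
    have hΩne : Ω ≠ ⊥ := by
      intro h
      obtain ⟨k, hk⟩ := hpd
      have h1 : c ^ k ∈ Ω := by
        refine ⟨(Z ⊓ D).pow_mem (⟨hcZ, hcD⟩ : c ∈ Z ⊓ D) k, ?_⟩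
        rw [← pow_mul, mul_comm, ← hk, pow_orderOf_eq_one]
      rw [h, Subgroup.mem_bot] at h1
      have h2 := orderOf_dvd_of_pow_eq_one h1
      have hk0 : 0 < k := by
        rcases Nat.eq_zero_or_pos k with h0 | h0
        · rw [h0, mul_zero] at hk
          exact absurd hk (orderOf_pos_iff.2 hcord).ne'
        · exact h0
      have h3 := Nat.le_of_dvd hk0 h2
      rw [hk] at h3
      have h4 := hpp.two_le
      nlinarith
    exact (hmono Ω hΩn hΩne).2
  -- the `p`-th powers
  have hxpy : ∀ k : ℕ, x ^ k * y = c ^ k * y * x ^ k := by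
    intro k
    induction k with
    | zero => simp
    | succ k ih =>
      have h1 : x * y = c * y * x := by rw [hc, commutatorElement_def]; group
      have h2 : x * c ^ k = c ^ k * x := ((show Commute x c from hcx).pow_right k).eq
      calc x ^ (k + 1) * y = x * (x ^ k * y) := by rw [pow_succ']; group
        _ = x * (c ^ k * y * x ^ k) := by rw [ih]
        _ = (x * c ^ k) * y * x ^ k := by group
        _ = c ^ k * (x * y) * x ^ k := by rw [h2]; group
        _ = c ^ k * (c * y * x) * x ^ k := by rw [h1]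
        _ = c ^ (k + 1) * y * x ^ (k + 1) := by rw [pow_succ, pow_succ']; group
  have hypx : ∀ k : ℕ, x * y ^ k = c ^ k * y ^ k * x := by
    intro k
    induction k with
    | zero => simp
    | succ k ih =>
      have h1 : x * y = c * y * x := by rw [hc, commutatorElement_def]; group
      have h2 : y ^ k * c = c * y ^ k := ((show Commute y c from hcy).pow_left k).eq
      calc x * y ^ (k + 1) = (x * y ^ k) * y := by rw [pow_succ]; group
        _ = c ^ k * y ^ k * x * y := by rw [ih]
        _ = c ^ k * y ^ k * (x * y) := by group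
        _ = c ^ k * (y ^ k * c) * y * x := by rw [h1]; group
        _ = c ^ k * (c * y ^ k) * y * x := by rw [h2]
        _ = c ^ (k + 1) * y ^ (k + 1) * x := by rw [pow_succ, pow_succ]; group
  have hxpZ : x ^ p ∈ Z := by
    apply hZmem
    · intro i
      by_cases hi : i = 0
      · subst hi; rw [cj_zero]; exact ((Commute.refl x).pow_left p).eq
      · exact ((show Commute x (cj t i x) from hxx i hi).pow_left p).eq
    · intro i
      by_cases hi : i = 0
      · subst hi; rw [cj_zero, hxpy, hcp, one_mul]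
      · exact ((show Commute x (cj t i y) from hxy i hi).pow_left p).eq
  have hypZ : y ^ p ∈ Z := by
    apply hZmem
    · intro i
      by_cases hi : i = 0
      · subst hi; rw [cj_zero, hypx, hcp, one_mul]
      · exact ((show Commute y (cj t i x) from hyx i hi).pow_left p).eq
    · intro i
      by_cases hi : i = 0
      · subst hi; rw [cj_zero]; exact ((Commute.refl y).pow_left p).eq
      · exact ((show Commute y (cj t i y) from hyy i hi).pow_left p).eq
  set S : Finset G := {x ^ p, y ^ p, c} with hS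
  have hF := hfin S (fun s hs => by
    rw [hS, Finset.mem_insert, Finset.mem_insert, Finset.mem_singleton] at hs
    rcases hs with rfl | rfl | rfl
    · exact ⟨hxpZ, D.pow_mem hxD p⟩
    · exact ⟨hypZ, D.pow_mem hyD p⟩
    · exact ⟨hcZ, hcD⟩)
  set F := Subgroup.normalClosure (S : Set G) with hFdef
  -- a power of `t` centralises `F`
  obtain ⟨n, hn0, hn⟩ : ∃ n : ℕ, 0 < n ∧ ∀ u ∈ F, cj t n u = u := by
    have hfm : Finite (MulAut ↥F) := Finite.of_injective (fun f : MulAut ↥F => (f : ↥F → ↥F))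
      (fun a b hab => MulEquiv.ext (congrFun hab))
    have h1 : IsOfFinOrder (MulAut.conjNormal t : MulAut ↥F) := isOfFinOrder_of_finite _
    obtain ⟨n, hn0, hn⟩ := isOfFinOrder_iff_pow_eq_one.1 h1
    refine ⟨n, hn0, fun u hu => ?_⟩
    rw [← map_pow] at hn
    have h2 := congrArg (fun f : MulAut ↥F => ((f ⟨u, hu⟩ : ↥F) : G)) hn
    simp only [MulAut.conjNormal_apply, MulAut.one_apply] at h2
    unfold cj
    rw [zpow_neg, zpow_natCast]
    exact h2
  have hSF : ∀ s ∈ S, s ∈ F := fun s hs => Subgroup.subset_normalClosure hs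
  have hnx : cj t n (x ^ p) = x ^ p := hn _ (hSF _ (by rw [hS]; simp))
  have hny : cj t n (y ^ p) = y ^ p := hn _ (hSF _ (by rw [hS]; simp))
  have hnc : cj t n c = c := hn _ (hSF _ (by rw [hS]; simp))
  have hcjpow : ∀ (i : ℤ) (u : G) (k : ℕ), cj t i (u ^ k) = (cj t i u) ^ k := by
    intro i u k
    induction k with
    | zero => rw [pow_zero, pow_zero, cj_one]
    | succ k ih => rw [pow_succ, pow_succ, cj_mul, ih]
  have hnc' : t ^ n * c = c * t ^ n := by
    have h1 := hnc
    unfold cj at h1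
    rw [zpow_neg, zpow_natCast] at h1
    exact mul_inv_eq_iff_eq_mul.1 h1
  have hn2y : cj t (2 * n) (y ^ p) = y ^ p := by
    rw [two_mul, cj_add, hny, hny]
  -- commutation of conjugates
  have Cxx : ∀ i j : ℤ, Commute (cj t i x) (cj t j x) := by
    intro i j
    by_cases hij : j - i = 0
    · have : j = i := by omega
      subst this; exact Commute.refl _
    · have h1 := congrArg (cj t i) (hxx (j - i) hij)
      rw [cj_mul, cj_mul, ← cj_add, add_sub_cancel] at h1
      exact h1
  have Cyy : ∀ i j : ℤ, Commute (cj t i y) (cj t j y) := by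
    intro i j
    by_cases hij : j - i = 0
    · have : j = i := by omega
      subst this; exact Commute.refl _
    · have h1 := congrArg (cj t i) (hyy (j - i) hij)
      rw [cj_mul, cj_mul, ← cj_add, add_sub_cancel] at h1
      exact h1
  have Cxy : ∀ i j : ℤ, i ≠ j → Commute (cj t i x) (cj t j y) := by
    intro i j hij
    have h1 := congrArg (cj t i) (hxy (j - i) (by omega))
    rw [cj_mul, cj_mul, ← cj_add, add_sub_cancel] at h1
    exact h1
  set b : G := x * (cj t n x)⁻¹ with hb
  set m : G := y * (cj t (2 * n) y)⁻¹ with hm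
  set s : G := t ^ (4 * (n : ℤ)) with hs
  have hcjs : ∀ (i : ℤ) (u : G), cj s i u = cj t (4 * n * i) u := fun i u => cj_pow t _ i u
  have hn0' : (0 : ℤ) < n := by exact_mod_cast hn0
  have eb : ∀ i : ℤ, cj t i b = cj t i x * (cj t (i + n) x)⁻¹ := by
    intro i
    rw [hb, cj_mul, cj_inv, ← cj_add]
  have em : ∀ i : ℤ, cj t i m = cj t i y * (cj t (i + 2 * n) y)⁻¹ := by
    intro i
    rw [hm, cj_mul, cj_inv, ← cj_add]
  have hcxD : ∀ i : ℤ, Commute c (cj t i x) := fun i => hZD c hcZ _ (hDx i)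
  have hcyD : ∀ i : ℤ, Commute c (cj t i y) := fun i => hZD c hcZ _ (hDy i)
  have hx0 : cj t 0 x = x := cj_zero t x
  have hy0 : cj t 0 y = y := cj_zero t y
  refine ⟨p, hpp, b, m, s, ?_⟩
  refine ⟨hc1, hcp, ?_, ?_, ?_, ?_, ?_, ?_, ?_, ?_, ?_⟩
  · have h1 : Commute x (cj t n x)⁻¹ := by
      have := (Cxx 0 n).inv_right
      rwa [hx0] at this
    rw [hb, h1.mul_pow, inv_pow, ← hcjpow, hnx, mul_inv_cancel]
  · have h1 : Commute y (cj t (2 * n) y)⁻¹ := by
      have := (Cyy 0 (2 * n)).inv_right
      rwa [hy0] at this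
    rw [hm, h1.mul_pow, inv_pow, ← hcjpow, hn2y, mul_inv_cancel]
  · -- the commutator
    have h1 : Commute (cj t n x) y := by
      have := Cxy n 0 (by omega)
      rwa [hy0] at this
    have h2 : Commute (cj t n x) (cj t (2 * n) y) := Cxy n (2 * n) (by omega)
    have h3 : Commute x (cj t (2 * n) y) := by
      have := Cxy 0 (2 * n) (by omega)
      rwa [hx0] at this
    have h4 : Commute (cj t n x)⁻¹ m := (h1.inv_left).mul_right h2.inv_left.inv_right
    have h5 : ⁅b, m⁆ = ⁅x, m⁆ := by
      rw [hb, commutatorElement_def, commutatorElement_def, mul_inv_rev, inv_inv]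
      have h6 : x * (cj t n x)⁻¹ * m = x * m * (cj t n x)⁻¹ := by
        rw [mul_assoc, h4.eq]; group
      rw [h6]; group
    rw [h5]
    have h6 : Commute x (cj t (2 * n) y)⁻¹ := h3.inv_right
    rw [hm, commutatorElement_def, mul_inv_rev, inv_inv, hc, commutatorElement_def]
    have h7 : x * (y * (cj t (2 * n) y)⁻¹) * x⁻¹ = x * y * x⁻¹ * (cj t (2 * n) y)⁻¹ := by
      have h8 : (cj t (2 * n) y)⁻¹ * x⁻¹ = x⁻¹ * (cj t (2 * n) y)⁻¹ := (h6.inv_left).eq.symm
      calc x * (y * (cj t (2 * n) y)⁻¹) * x⁻¹ = x * y * ((cj t (2 * n) y)⁻¹ * x⁻¹) := by group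
        _ = x * y * (x⁻¹ * (cj t (2 * n) y)⁻¹) := by rw [h8]
        _ = _ := by group
    rw [h7]; group
  · have h1 : Commute c b := by
      have h2 := hcxD 0
      rw [hx0] at h2
      exact h2.mul_right (hcxD n).inv_right
    exact h1.eq
  · have h1 : Commute c m := by
      have h2 := hcyD 0
      rw [hy0] at h2
      exact h2.mul_right (hcyD (2 * n)).inv_right
    exact h1.eq
  · have h1 : Commute (t ^ n) c := hnc'
    have h2 : s = (t ^ n) ^ 4 := by
      rw [hs, ← pow_mul, ← zpow_natCast]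
      congr 1
      push_cast
      ring
    rw [h2]
    exact ((h1.pow_left 4).symm).eq
  · intro i _
    rw [hcjs, eb, hb]
    have h2 := Cxx 0 (4 * n * i)
    have h3 := Cxx 0 (4 * n * i + n)
    rw [hx0] at h2 h3
    exact ((h2.mul_right h3.inv_right).mul_left
      (((Cxx n (4 * n * i)).mul_right (Cxx n (4 * n * i + n)).inv_right).inv_left)).eq
  · intro i _
    rw [hcjs, em, hm]
    have h2 := Cyy 0 (4 * n * i)
    have h3 := Cyy 0 (4 * n * i + 2 * n)
    rw [hy0] at h2 h3
    exact ((h2.mul_right h3.inv_right).mul_left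
      (((Cyy (2 * n) (4 * n * i)).mul_right (Cyy (2 * n) (4 * n * i + 2 * n)).inv_right).inv_left)).eq
  · intro i hi
    rw [hcjs, em, hb]
    have k1 : (0 : ℤ) ≠ 4 * n * i := by
      intro h
      have h5 : (4 * (n : ℤ)) * i = 0 := h.symm
      rcases mul_eq_zero.1 h5 with h6 | h6
      · omega
      · exact hi h6
    have k2 : (0 : ℤ) ≠ 4 * n * i + 2 * n := by
      intro h
      have h5 : (2 * (n : ℤ)) * (2 * i + 1) = 0 := by linarith
      rcases mul_eq_zero.1 h5 with h6 | h6
      · omega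
      · omega
    have k3 : (n : ℤ) ≠ 4 * n * i := by
      intro h
      have h5 : (n : ℤ) * (4 * i - 1) = 0 := by linarith
      rcases mul_eq_zero.1 h5 with h6 | h6
      · omega
      · omega
    have k4 : (n : ℤ) ≠ 4 * n * i + 2 * n := by
      intro h
      have h5 : (n : ℤ) * (4 * i + 1) = 0 := by linarith
      rcases mul_eq_zero.1 h5 with h6 | h6
      · omega
      · omega
    have h2 := Cxy 0 (4 * n * i) k1
    have h3 := Cxy 0 (4 * n * i + 2 * n) k2
    rw [hx0] at h2 h3
    exact ((h2.mul_right h3.inv_right).mul_left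
      (((Cxy n (4 * n * i) k3).mul_right (Cxy n (4 * n * i + 2 * n) k4).inv_right).inv_left)).eq

end Pool.Agent.N62
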