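import Pool.Agent.N62.HDef
import Pool.Agent.N62.Two

set_option autoImplicit false

namespace Pool.Agent.N62

open Pool.Agent.H53R2
open scoped commutatorElement

theorem exists_theta {G : Type} [Group G] (p : ℕ) (v : ℤ → G) (hp : ∀ i, v i ^ p = 1)
    (hc : ∀ i j, v i * v j = v j * v i) : ∃ Θ : (ℤ →₀ ZMod p) → G, Θ 0 = 1 ∧
      (∀ f g, Θ (f + g) = Θ f * Θ g) ∧
      ∀ (i k : ℤ), Θ (Finsupp.single i (k : ZMod p)) = v i ^ k := by
  let V : Set G := Set.range v
  have hV : ∀ x ∈ V, ∀ y ∈ V, x * y = y * x := by
    rintro _ ⟨i, rfl⟩ _ ⟨j, rfl⟩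
    exact hc i j
  let _ : CommGroup ↥(Subgroup.closure V) := Subgroup.closureCommGroupOfComm hV
  let w : ℤ → Additive ↥(Subgroup.closure V) := fun i =>
    Additive.ofMul ⟨v i, Subgroup.subset_closure ⟨i, rfl⟩⟩
  have hw : ∀ i, p • w i = 0 := by
    intro i
    change Additive.ofMul ((⟨v i, Subgroup.subset_closure ⟨i, rfl⟩⟩ : ↥(Subgroup.closure V)) ^ p) = 0
    have h1 : (⟨v i, Subgroup.subset_closure ⟨i, rfl⟩⟩ : ↥(Subgroup.closure V)) ^ p = 1 := by
      apply Subtype.ext
      exact hp i
    rw [h1]; rfl
  let φ : ℤ → (ZMod p →+ Additive ↥(Subgroup.closure V)) := fun i =>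
    ZMod.lift p ⟨zmultiplesHom _ (w i), by
      rw [zmultiplesHom_apply, natCast_zsmul]; exact hw i⟩
  have hφ : ∀ i (k : ℤ), φ i (k : ZMod p) = k • w i := by
    intro i k
    change ZMod.lift p _ (k : ZMod p) = _
    rw [ZMod.lift_coe]
    rfl
  let Ψ : (ℤ →₀ ZMod p) →+ Additive ↥(Subgroup.closure V) := Finsupp.liftAddHom φ
  refine ⟨fun f => ((Ψ f).toMul : G), ?_, ?_, ?_⟩
  · change (((Ψ 0).toMul : ↥(Subgroup.closure V)) : G) = 1
    rw [map_zero]
    rfl
  · intro f g
    change (((Ψ (f + g)).toMul : ↥(Subgroup.closure V)) : G) = _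
    rw [map_add]
    rfl
  · intro i k
    change (((Ψ (Finsupp.single i (k : ZMod p))).toMul : ↥(Subgroup.closure V)) : G) = _
    have h1 : Ψ (Finsupp.single i (k : ZMod p)) = k • w i := by
      change Finsupp.liftAddHom φ _ = _
      rw [Finsupp.liftAddHom_apply_single, hφ]
    rw [h1]
    rfl

theorem zpow_comm_rel {G : Type} [Group G] {u v z : G} (h : u * v = z * v * u)
    (hzu : z * u = u * z) (hzv : z * v = v * z) (k l : ℤ) :
    u ^ k * v ^ l = z ^ (k * l) * v ^ l * u ^ k := by
  have h1 : ∀ k : ℤ, cj u k v = z ^ k * v := by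
    intro k
    have hz : ∀ j : ℤ, Commute (z ^ j) u := fun j => ((show Commute z u from hzu).zpow_left j)
    have e1 : cj u 1 v = z * v := by
      unfold cj
      rw [zpow_one, zpow_neg_one, h]; group
    have e2 : ∀ j : ℤ, cj u 1 (z ^ j * v) = z ^ (j + 1) * v := by
      intro j
      rw [cj_mul, e1]
      have : cj u 1 (z ^ j) = z ^ j := by
        unfold cj
        rw [zpow_one, zpow_neg_one, ← (hz j).eq]; group
      rw [this, zpow_add, zpow_one]; group
    induction k using Int.induction_on with
    | zero => rw [cj_zero, zpow_zero, one_mul]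
    | succ i ih => rw [add_comm, cj_add, ih, e2, add_comm]
    | pred i ih =>
      apply cj_inj u 1
      rw [← cj_add, e2]
      have : (1 : ℤ) + (-(i : ℤ) - 1) = -(i : ℤ) := by ring
      rw [this, ih]
      congr 2
      ring
  have h2 : ∀ l : ℤ, cj u k (v ^ l) = z ^ (k * l) * v ^ l := by
    have hcz : Commute (z ^ k) v := (show Commute z v from hzv).zpow_left k
    have h3 : ∀ l : ℤ, (z ^ k * v) ^ l = z ^ (k * l) * v ^ l := by
      intro l
      rw [hcz.mul_zpow, zpow_mul]
    intro l
    rw [← h3, ← h1]
    unfold cj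
    rw [zpow_neg, conj_zpow]
  have h3 := h2 l
  unfold cj at h3
  rw [zpow_neg, mul_inv_eq_iff_eq_mul] at h3
  exact h3

/-- the group `H_p` embeds into every group with elements satisfying its relations -/
theorem HG_embeds {G : Type} [Group G] (p : ℕ) [hp : Fact p.Prime] (b m s z : G)
    (h : HRel p b m s z) : ∃ Φ : HG p →* G, Function.Injective Φ := by
  have hzs : ∀ i : ℤ, cj s i z = z := by
    intro i
    have h1 : Commute z (s ^ i) := (show Commute z s from h.zs).zpow_right i
    unfold cj
    rw [← h1.eq, zpow_neg, mul_inv_cancel_right]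
  have hpow : ∀ (i : ℤ) (u : G) (k : ℕ), cj s i (u ^ k) = (cj s i u) ^ k := by
    intro i u k
    induction k with
    | zero => rw [pow_zero, pow_zero, cj_one]
    | succ k ih => rw [pow_succ, pow_succ, cj_mul, ih]
  have Cbb : ∀ i j : ℤ, cj s i b * cj s j b = cj s j b * cj s i b := by
    intro i j
    by_cases hij : j - i = 0
    · have : j = i := by omega
      subst this; rfl
    · have h1 := congrArg (cj s i) (h.bb (j - i) hij)
      rw [cj_mul, cj_mul, ← cj_add, add_sub_cancel] at h1
      exact h1
  have Cmm : ∀ i j : ℤ, cj s i m * cj s j m = cj s j m * cj s i m := by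
    intro i j
    by_cases hij : j - i = 0
    · have : j = i := by omega
      subst this; rfl
    · have h1 := congrArg (cj s i) (h.mm (j - i) hij)
      rw [cj_mul, cj_mul, ← cj_add, add_sub_cancel] at h1
      exact h1
  have Cbm : ∀ i j : ℤ, i ≠ j → cj s i b * cj s j m = cj s j m * cj s i b := by
    intro i j hij
    have h1 := congrArg (cj s i) (h.bs (j - i) (by omega))
    rw [cj_mul, cj_mul, ← cj_add, add_sub_cancel] at h1
    exact h1
  have Cbmz : ∀ i : ℤ, cj s i b * cj s i m = z * cj s i m * cj s i b := by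
    intro i
    have h1 : b * m = z * m * b := by
      have h2 := h.bm
      rw [commutatorElement_def] at h2
      rw [← h2]; group
    have h3 := congrArg (cj s i) h1
    rw [cj_mul, cj_mul, cj_mul, hzs] at h3
    exact h3
  have Czb : ∀ i : ℤ, z * cj s i b = cj s i b * z := by
    intro i
    have h3 := congrArg (cj s i) h.zb
    rw [cj_mul, cj_mul, hzs] at h3
    exact h3
  have Czm : ∀ i : ℤ, z * cj s i m = cj s i m * z := by
    intro i
    have h3 := congrArg (cj s i) h.zm
    rw [cj_mul, cj_mul, hzs] at h3
    exact h3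
  obtain ⟨B, hB0, hBa, hBs⟩ := exists_theta p (fun i => cj s i b)
    (fun i => by rw [← hpow, h.bp, cj_one]) Cbb
  obtain ⟨M, hM0, hMa, hMs⟩ := exists_theta p (fun i => cj s i m)
    (fun i => by rw [← hpow, h.mp, cj_one]) Cmm
  obtain ⟨Z₀, hZ0, hZa, hZs⟩ := exists_theta p (fun _ => z) (fun _ => h.zp) (fun _ _ => rfl)
  let Z : ZMod p → G := fun c => Z₀ (Finsupp.single 0 c)
  have Z0 : Z 0 = 1 := by
    change Z₀ (Finsupp.single 0 0) = 1
    rw [Finsupp.single_zero, hZ0]
  have Za : ∀ c c', Z (c + c') = Z c * Z c' := by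
    intro c c'
    change Z₀ (Finsupp.single 0 (c + c')) = _
    rw [Finsupp.single_add, hZa]
  have Zs : ∀ k : ℤ, Z (k : ZMod p) = z ^ k := fun k => hZs 0 k
  -- `Z c` commutes with everything relevant
  have ZC : ∀ (u : G), z * u = u * z → ∀ c, Z c * u = u * Z c := by
    intro u hu c
    obtain ⟨k, rfl⟩ := ZMod.intCast_surjective c
    rw [Zs]
    exact ((show Commute z u from hu).zpow_left k).eq
  have zB : ∀ f, z * B f = B f * z := by
    intro f
    induction f using Finsupp.induction_linear with
    | zero => rw [hB0, one_mul, mul_one]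
    | add f g hf hg =>
      rw [hBa]
      exact ((show Commute z (B f) from hf).mul_right (show Commute z (B g) from hg)).eq
    | single i a =>
      obtain ⟨k, rfl⟩ := ZMod.intCast_surjective a
      rw [hBs]
      exact ((show Commute z (cj s i b) from Czb i).zpow_right k).eq
  have zM : ∀ f, z * M f = M f * z := by
    intro f
    induction f using Finsupp.induction_linear with
    | zero => rw [hM0, one_mul, mul_one]
    | add f g hf hg =>
      rw [hMa]
      exact ((show Commute z (M f) from hf).mul_right (show Commute z (M g) from hg)).eq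
    | single i a =>
      obtain ⟨k, rfl⟩ := ZMod.intCast_surjective a
      rw [hMs]
      exact ((show Commute z (cj s i m) from Czm i).zpow_right k).eq
  -- shifting
  have sB : ∀ (n : ℤ) f, cj s n (B f) = B (shift n f) := by
    intro n f
    induction f using Finsupp.induction_linear with
    | zero => rw [hB0, cj_one, shift_z, hB0]
    | add f g hf hg => rw [hBa, cj_mul, hf, hg, shift_add, hBa]
    | single i a =>
      obtain ⟨k, rfl⟩ := ZMod.intCast_surjective a
      rw [hBs, shift_single, hBs, add_comm i n, cj_add]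
      unfold cj
      rw [zpow_neg s n, conj_zpow]
  have sM : ∀ (n : ℤ) f, cj s n (M f) = M (shift n f) := by
    intro n f
    induction f using Finsupp.induction_linear with
    | zero => rw [hM0, cj_one, shift_z, hM0]
    | add f g hf hg => rw [hMa, cj_mul, hf, hg, shift_add, hMa]
    | single i a =>
      obtain ⟨k, rfl⟩ := ZMod.intCast_surjective a
      rw [hMs, shift_single, hMs, add_comm i n, cj_add]
      unfold cj
      rw [zpow_neg s n, conj_zpow]
  -- the pairing
  have BM : ∀ f g, B f * M g = Z (pair f g) * M g * B f := by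
    intro f g
    induction f using Finsupp.induction_linear with
    | zero => rw [hB0, pair_zero_left, Z0, one_mul, mul_one]
    | add f f' hf hf' =>
      have hz := ZC (B f) (zB f) (pair f' g)
      rw [hBa, pair_add_left, Za]
      calc B f * B f' * M g = B f * (B f' * M g) := by group
        _ = B f * (Z (pair f' g) * M g * B f') := by rw [hf']
        _ = (B f * Z (pair f' g)) * M g * B f' := by group
        _ = Z (pair f' g) * (B f * M g) * B f' := by rw [← hz]; group
        _ = Z (pair f' g) * (Z (pair f g) * M g * B f) * B f' := by rw [hf]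
        _ = (Z (pair f' g) * Z (pair f g)) * M g * (B f * B f') := by group
        _ = _ := by rw [← Za, ← Za, add_comm]
    | single i a =>
      obtain ⟨k, rfl⟩ := ZMod.intCast_surjective a
      induction g using Finsupp.induction_linear with
      | zero => rw [hM0, pair_zero_right, Z0, one_mul, one_mul, mul_one]
      | add g g' hg hg' =>
        have hz := ZC (M g) (zM g) (pair (Finsupp.single i (k : ZMod p)) g')
        rw [hMa, pair_add_right, Za]
        set β := B (Finsupp.single i (k : ZMod p)) with hβ
        calc β * (M g * M g') = (β * M g) * M g' := by group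
          _ = Z (pair (Finsupp.single i (k : ZMod p)) g) * M g * β * M g' := by rw [hg]
          _ = Z (pair (Finsupp.single i (k : ZMod p)) g) * M g * (β * M g') := by group
          _ = Z (pair (Finsupp.single i (k : ZMod p)) g) * M g *
              (Z (pair (Finsupp.single i (k : ZMod p)) g') * M g' * β) := by rw [hg']
          _ = Z (pair (Finsupp.single i (k : ZMod p)) g) * (M g *
              Z (pair (Finsupp.single i (k : ZMod p)) g')) * M g' * β := by group
          _ = _ := by rw [← hz]; group
      | single j a' =>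
        obtain ⟨l, rfl⟩ := ZMod.intCast_surjective a'
        rw [hBs, hMs, pair_single_left]
        by_cases hij : i = j
        · subst hij
          rw [Finsupp.single_eq_same, ← Int.cast_mul, Zs]
          exact zpow_comm_rel (Cbmz i) (Czb i) (Czm i) k l
        · rw [Finsupp.single_eq_of_ne hij, mul_zero, Z0, one_mul]
          exact (((show Commute (cj s i b) (cj s j m) from Cbm i j hij).zpow_left k).zpow_right l).eq
  have hord : ∀ c, Z c = 1 → c = 0 := by
    intro c hc
    obtain ⟨k, rfl⟩ := ZMod.intCast_surjective c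
    rw [Zs] at hc
    have h1 : orderOf z = p := orderOf_eq_prime h.zp h.z1
    have h2 : (orderOf z : ℤ) ∣ k := orderOf_dvd_iff_zpow_eq_one.2 hc
    rw [h1] at h2
    exact (ZMod.intCast_zmod_eq_zero_iff_dvd k p).2 h2
  let Φ : HG p →* G :=
    { toFun := fun a => M a.g * B a.f * Z a.c * s ^ a.n
      map_one' := by
        change M 0 * B 0 * Z 0 * s ^ (0 : ℤ) = 1
        rw [hM0, hB0, Z0, zpow_zero]; group
      map_mul' := by
        intro a a'
        change M (a.g + shift a.n a'.g) * B (a.f + shift a.n a'.f) *
          Z (a.c + a'.c + pair a.f (shift a.n a'.g)) * s ^ (a.n + a'.n) = _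
        have e1 : s ^ a.n * M a'.g = M (shift a.n a'.g) * s ^ a.n := by
          rw [← sM]; unfold cj; group
        have e2 : s ^ a.n * B a'.f = B (shift a.n a'.f) * s ^ a.n := by
          rw [← sB]; unfold cj; group
        have e3 : s ^ a.n * Z a'.c = Z a'.c * s ^ a.n :=
          (ZC (s ^ a.n) (((show Commute z s from h.zs).zpow_right a.n).eq) a'.c).symm
        have e4 := BM a.f (shift a.n a'.g)
        have e5 := ZC (M (shift a.n a'.g)) (zM _)
        have e6 := ZC (B (shift a.n a'.f)) (zB _)
        have e7 := ZC (B a.f) (zB a.f)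
        have e9 := ZC (M a.g) (zM a.g)
        symm
        calc M a.g * B a.f * Z a.c * s ^ a.n * (M a'.g * B a'.f * Z a'.c * s ^ a'.n)
            = M a.g * B a.f * Z a.c * (s ^ a.n * M a'.g) * B a'.f * Z a'.c * s ^ a'.n := by group
          _ = M a.g * B a.f * Z a.c * M (shift a.n a'.g) * (s ^ a.n * B a'.f) * Z a'.c *
              s ^ a'.n := by rw [e1]; group
          _ = M a.g * B a.f * Z a.c * M (shift a.n a'.g) * B (shift a.n a'.f) *
              (s ^ a.n * Z a'.c) * s ^ a'.n := by rw [e2]; group
          _ = M a.g * B a.f * (Z a.c * M (shift a.n a'.g)) * B (shift a.n a'.f) *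
              Z a'.c * (s ^ a.n * s ^ a'.n) := by rw [e3]; group
          _ = M a.g * (B a.f * M (shift a.n a'.g)) * (Z a.c * B (shift a.n a'.f)) *
              Z a'.c * s ^ (a.n + a'.n) := by rw [e5, zpow_add]; group
          _ = M a.g * (Z (pair a.f (shift a.n a'.g)) * M (shift a.n a'.g) * B a.f) *
              (B (shift a.n a'.f) * Z a.c) * Z a'.c * s ^ (a.n + a'.n) := by rw [e4, e6]
          _ = (M a.g * Z (pair a.f (shift a.n a'.g))) * M (shift a.n a'.g) *
              (B a.f * B (shift a.n a'.f)) * (Z a.c * Z a'.c) * s ^ (a.n + a'.n) := by group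
          _ = Z (pair a.f (shift a.n a'.g)) * (M a.g * M (shift a.n a'.g)) *
              B (a.f + shift a.n a'.f) * Z (a.c + a'.c) * s ^ (a.n + a'.n) := by
            rw [← e9, hBa, Za]; group
          _ = Z (pair a.f (shift a.n a'.g)) * (M (a.g + shift a.n a'.g) *
              B (a.f + shift a.n a'.f)) * Z (a.c + a'.c) * s ^ (a.n + a'.n) := by
            rw [hMa]; group
          _ = _ := by
            have e10 : Z (pair a.f (shift a.n a'.g)) * (M (a.g + shift a.n a'.g) *
                B (a.f + shift a.n a'.f)) = (M (a.g + shift a.n a'.g) *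
                B (a.f + shift a.n a'.f)) * Z (pair a.f (shift a.n a'.g)) := by
              apply ZC
              exact ((show Commute z _ from zM _).mul_right (show Commute z _ from zB _)).eq
            rw [e10, mul_assoc _ (Z (pair a.f (shift a.n a'.g))), ← Za]
            congr 3
            ring }
  refine ⟨Φ, ?_⟩
  rw [injective_iff_map_eq_one]
  intro a ha
  change M a.g * B a.f * Z a.c * s ^ a.n = 1 at ha
  -- the element `A = s ^ (-n)`
  set A := M a.g * B a.f * Z a.c with hA
  have hAs : A = s ^ (-a.n) := by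
    rw [zpow_neg]; exact eq_inv_of_mul_eq_one_left ha
  have hzA : z * A = A * z := by
    rw [hAs]
    exact ((show Commute z s from h.zs).zpow_right _).eq
  -- conjugation of `b_j`
  have k1 : ∀ j : ℤ, B (Finsupp.single j 1) * A = A * (Z (a.g j) * B (Finsupp.single j 1)) := by
    intro j
    have e1 := BM (Finsupp.single j 1) a.g
    rw [pair_single_left, one_mul] at e1
    have e2 : B (Finsupp.single j 1) * B a.f = B a.f * B (Finsupp.single j 1) := by
      rw [← hBa, ← hBa, add_comm]
    have e3 := ZC _ (zB (Finsupp.single j 1)) a.c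
    have e4 := ZC A hzA (a.g j)
    have e5 : Z (a.g j) * Z a.c = Z a.c * Z (a.g j) := by rw [← Za, ← Za, add_comm]
    calc B (Finsupp.single j 1) * A = (B (Finsupp.single j 1) * M a.g) * B a.f * Z a.c := by
          rw [hA]; group
      _ = Z (a.g j) * M a.g * (B (Finsupp.single j 1) * B a.f) * Z a.c := by rw [e1]; group
      _ = Z (a.g j) * M a.g * B a.f * (B (Finsupp.single j 1) * Z a.c) := by rw [e2]; group
      _ = Z (a.g j) * (M a.g * B a.f * Z a.c) * B (Finsupp.single j 1) := by rw [← e3]; group
      _ = Z (a.g j) * A * B (Finsupp.single j 1) := by rw [hA]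
      _ = _ := by rw [e4]; group
  have k2 : ∀ j : ℤ, A * M (Finsupp.single j 1) = M (Finsupp.single j 1) * (A * Z (a.f j)) := by
    intro j
    have e1 := BM a.f (Finsupp.single j 1)
    rw [pair_single_right, mul_one] at e1
    have e2 : M (Finsupp.single j 1) * M a.g = M a.g * M (Finsupp.single j 1) := by
      rw [← hMa, ← hMa, add_comm]
    have e3 := ZC _ (zM (Finsupp.single j 1)) a.c
    have e4 := ZC (B a.f) (zB a.f) (a.f j)
    have e6 := ZC (M (Finsupp.single j 1)) (zM _) (a.f j)
    have e5 : Z (a.f j) * Z a.c = Z a.c * Z (a.f j) := by rw [← Za, ← Za, add_comm]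
    calc A * M (Finsupp.single j 1) = M a.g * B a.f * (Z a.c * M (Finsupp.single j 1)) := by
          rw [hA]; group
      _ = M a.g * (B a.f * M (Finsupp.single j 1)) * Z a.c := by rw [e3]; group
      _ = M a.g * (Z (a.f j) * M (Finsupp.single j 1)) * B a.f * Z a.c := by rw [e1]; group
      _ = (M a.g * M (Finsupp.single j 1)) * (Z (a.f j) * B a.f) * Z a.c := by rw [e6]; group
      _ = M (Finsupp.single j 1) * M a.g * B a.f * (Z (a.f j) * Z a.c) := by
          rw [← e2, e4]; group
      _ = _ := by rw [e5, hA]; group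
  have b1 : ∀ j : ℤ, B (Finsupp.single j 1) = cj s j b := by
    intro j
    have := hBs j 1
    rwa [Int.cast_one, zpow_one] at this
  have m1 : ∀ j : ℤ, M (Finsupp.single j 1) = cj s j m := by
    intro j
    have := hMs j 1
    rwa [Int.cast_one, zpow_one] at this
  have k3 : ∀ j : ℤ, cj s (j + a.n) b = Z (a.g j) * cj s j b := by
    intro j
    have e1 := k1 j
    rw [b1, hAs] at e1
    have e2 : cj s (a.n) (cj s j b) = Z (a.g j) * cj s j b := by
      unfold cj at e1 ⊢
      have e3 := congrArg (fun u => s ^ a.n * u) e1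
      simp only [← mul_assoc] at e3 ⊢
      rw [e3]
      group
    rw [← e2, ← cj_add, add_comm]
  have hn : a.n = 0 := by
    by_contra hne
    have e1 := Cbm a.n 0 hne
    have e2 := k3 0
    rw [zero_add] at e2
    rw [e2] at e1
    have e3 := Cbmz 0
    have e4 := ZC (cj s 0 m) (Czm 0) (a.g 0)
    have e5 : Z (a.g 0) * (cj s 0 b * cj s 0 m) = Z (a.g 0) * (cj s 0 m * cj s 0 b) := by
      calc Z (a.g 0) * (cj s 0 b * cj s 0 m) = Z (a.g 0) * cj s 0 b * cj s 0 m := by group
        _ = cj s 0 m * (Z (a.g 0) * cj s 0 b) := e1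
        _ = (cj s 0 m * Z (a.g 0)) * cj s 0 b := by group
        _ = _ := by rw [← e4]; group
    have e6 := mul_left_cancel e5
    rw [e3] at e6
    have e7 : z * (cj s 0 m * cj s 0 b) = 1 * (cj s 0 m * cj s 0 b) := by
      rw [one_mul, ← mul_assoc]; exact e6
    exact h.z1 (mul_right_cancel e7)
  have hg : a.g = 0 := by
    ext j
    have e1 := k3 j
    rw [hn, add_zero] at e1
    have e2 : Z (a.g j) = 1 := by
      have e3 : 1 * cj s j b = Z (a.g j) * cj s j b := by rw [one_mul]; exact e1
      exact (mul_right_cancel e3).symm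
    rw [hord _ e2]; rfl
  have hA1 : A = 1 := by rw [hAs, hn, neg_zero, zpow_zero]
  have hf : a.f = 0 := by
    ext j
    have e1 := k2 j
    rw [hA1, one_mul, one_mul] at e1
    have e2 : M (Finsupp.single j 1) * 1 = M (Finsupp.single j 1) * Z (a.f j) := by
      rw [mul_one]; exact e1
    rw [hord _ (mul_left_cancel e2).symm]; rfl
  have hc : a.c = 0 := by
    apply hord
    have e1 : M a.g * B a.f * Z a.c = 1 := by rw [← hA]; exact hA1
    rw [hg, hf, hM0, hB0, one_mul, one_mul] at e1
    exact e1
  ext1
  · exact hf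
  · exact hg
  · exact hc
  · exact hn

end Pool.Agent.N62
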