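import Pool.Agent.N62.GF3
import Pool.Agent.H53R2.FinNil
import Pool.Agent.H53R2.LemmaK

set_option autoImplicit false

namespace Pool.Agent.N62

open Pool.Agent.Helper294.HallC
open Pool.Agent.H53R2

/-- unipotent elements have `p`-power order when `p` is nilpotent -/
theorem unip {A : Type} [Ring A] (p : ℕ) (hp : p.Prime) (τ : A) (n m : ℕ) (h1 : (τ - 1) ^ n = 0)
    (h2 : (p : A) ^ m = 0) : ∃ N : ℕ, τ ^ (p ^ N) = 1 := by
  open Polynomial in
  obtain ⟨r, hr⟩ := exists_add_pow_prime_pow_eq hp (1 : ℤ[X]) X n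
  have h3 : ((p : ℕ) : ℤ[X]) ∣ ((1 + X) ^ p ^ n - X ^ p ^ n) - 1 := by
    refine ⟨X * r, ?_⟩
    rw [hr, one_pow]; ring
  obtain ⟨w, hw⟩ := dvd_sub_pow_of_dvd_sub h3 m
  have h4 := congrArg (aeval (τ - 1)) hw
  rw [map_sub, map_pow, map_sub, map_pow, map_add, map_one, map_pow, aeval_X, one_pow, map_one,
    map_mul, map_pow, map_natCast, add_sub_cancel] at h4
  have h5 : (τ - 1) ^ p ^ n = 0 := by
    have h6 : n ≤ p ^ n := (Nat.lt_pow_self hp.one_lt).le
    rw [← Nat.sub_add_cancel h6, pow_add, h1, mul_zero]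
  rw [h5, sub_zero, pow_succ, h2, zero_mul, zero_mul, ← pow_mul, ← pow_add] at h4
  exact ⟨n + m, sub_eq_zero.1 h4⟩

theorem em_apply {E : Type} [AddCommGroup E] (f g : AddMonoid.End E) (x : E) :
    (f * g) x = f (g x) := rfl

theorem es_apply {E : Type} [AddCommGroup E] (f g : AddMonoid.End E) (x : E) :
    (f - g) x = f x - g x := rfl

theorem eo_apply {E : Type} [AddCommGroup E] (x : E) :
    (1 : AddMonoid.End E) x = x := rfl

/-- kernel -/
def kr {E : Type} [AddCommGroup E] (φ : AddMonoid.End E) : AddSubgroup E where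
  carrier := {x | φ x = 0}
  zero_mem' := map_zero φ
  add_mem' := fun {a b} ha hb => by
    change φ (a + b) = 0
    rw [map_add, show φ a = 0 from ha, show φ b = 0 from hb, add_zero]
  neg_mem' := fun {a} ha => by
    change φ (-a) = 0
    rw [map_neg, show φ a = 0 from ha, neg_zero]

theorem mem_kr {E : Type} [AddCommGroup E] {φ : AddMonoid.End E} {x : E} :
    x ∈ kr φ ↔ φ x = 0 := Iff.rfl

/-- range -/
def rg {E : Type} [AddCommGroup E] (φ : AddMonoid.End E) : AddSubgroup E where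
  carrier := {x | ∃ y, φ y = x}
  zero_mem' := ⟨0, map_zero φ⟩
  add_mem' := fun {a b} ha hb => by
    obtain ⟨x, rfl⟩ := ha
    obtain ⟨y, rfl⟩ := hb
    exact ⟨x + y, map_add φ x y⟩
  neg_mem' := fun {a} ha => by
    obtain ⟨x, rfl⟩ := ha
    exact ⟨-x, map_neg φ x⟩

/-- Fitting -/
theorem fitting {Q E : Type} [Group Q] [AddCommGroup E] [DistribMulAction Q E] (hE : Noe Q E)
    (e : E) (he : e ≠ 0)
    (hmono : ∀ B : AddSubgroup E, (∀ q : Q, ∀ x ∈ B, q • x ∈ B) → B ≠ ⊥ → e ∈ B)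
    (φ : AddMonoid.End E) (hφ : ∀ (q : Q) (x : E), φ (q • x) = q • φ x) (hφe : φ e = 0) :
    ∃ n : ℕ, φ ^ n = 0 := by
  have hφn : ∀ (n : ℕ) (q : Q) (x : E), (φ ^ n) (q • x) = q • (φ ^ n) x := by
    intro n
    induction n with
    | zero => intro q x; rfl
    | succ n ih =>
      intro q x
      rw [pow_succ, em_apply, em_apply, hφ, ih]
  obtain ⟨n, hn⟩ := hE (fun n => kr (φ ^ n : AddMonoid.End E))
    (monotone_nat_of_le_succ fun n x hx => by
      rw [mem_kr] at hx ⊢
      rw [pow_succ', em_apply]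
      rw [hx, map_zero])
    (fun n q x hx => by
      rw [mem_kr] at hx ⊢
      rw [hφn, hx, smul_zero])
  refine ⟨n, ?_⟩
  by_contra hne
  have h1 : (rg (φ ^ n : AddMonoid.End E)) ≠ ⊥ := by
    intro h
    apply hne
    ext x
    have h2 : (φ ^ n) x ∈ (rg (φ ^ n : AddMonoid.End E)) := ⟨x, rfl⟩
    rw [h] at h2
    exact (AddSubgroup.mem_bot).1 h2
  obtain ⟨y, hy⟩ := hmono _ (fun q x hx => by
    obtain ⟨w, rfl⟩ := hx
    exact ⟨q • w, hφn n q w⟩) h1
  have h2 : y ∈ kr (φ ^ (n + 1) : AddMonoid.End E) := by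
    rw [mem_kr, pow_succ', em_apply, hy, hφe]
  rw [hn (n + 1) (Nat.le_succ n), mem_kr, hy] at h2
  exact he h2

/-- the additive endomorphism given by a group element -/
def ze {Q E : Type} [Group Q] [AddCommGroup E] [DistribMulAction Q E] (q : Q) :
    AddMonoid.End E := DistribSMul.toAddMonoidHom E q

theorem ze_apply {Q E : Type} [Group Q] [AddCommGroup E] [DistribMulAction Q E] (q : Q) (e : E) :
    ze q e = q • e := rfl

theorem ze_pow {Q E : Type} [Group Q] [AddCommGroup E] [DistribMulAction Q E] (q : Q) (n : ℕ)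
    (e : E) : ((ze q : AddMonoid.End E) ^ n) e = q ^ n • e := by
  induction n generalizing e with
  | zero => rw [pow_zero, pow_zero, one_smul]; rfl
  | succ n ih => rw [pow_succ, em_apply, ze_apply, ih, pow_succ, mul_smul]

theorem pc_of_nil (Q : Type) [Group Q] [Group.FG Q] [Group.IsNilpotent Q] : PC Q :=
  ⟨(inferInstance : Group.IsSolvable Q), nil_maxC Q⟩

/-- P. Hall: monolithic finitely generated modules over finitely generated nilpotent groups are
finite (faithful case). -/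
theorem hall_fin_faithful (Q E : Type) [Group Q] [Group.FG Q] [Group.IsNilpotent Q]
    [AddCommGroup E] [DistribMulAction Q E] (hfaith : ∀ q : Q, (∀ x : E, q • x = x) → q = 1)
    (hE : FGM Q E) (e : E) (he : e ≠ 0)
    (hmono : ∀ B : AddSubgroup E, (∀ q : Q, ∀ x ∈ B, q • x ∈ B) → B ≠ ⊥ → e ∈ B) : Finite E := by
  have hPC : PC Q := pc_of_nil Q
  have hNoe : Noe Q E := noe_of_fg hPC hE
  -- the simple submodule
  set L : AddSubgroup E := RS (⊤ : Subgroup Q) ({e} : Set E) with hL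
  have hLst : ∀ q : Q, ∀ b ∈ L, q • b ∈ L := fun q b hb =>
    RS_stable _ _ q (Subgroup.mem_top q) b hb
  have heL : e ∈ L := sub_RS _ _ rfl
  have hLmin : ∀ B : AddSubgroup E, (∀ q : Q, ∀ x ∈ B, q • x ∈ B) → e ∈ B → L ≤ B := by
    intro B hB heB
    rw [hL]
    unfold RS
    rw [AddSubgroup.closure_le]
    rintro a ⟨g, -, s, rfl, rfl⟩
    exact hB g _ heB
  let _ : DistribMulAction Q ↥L := F_act L hLst
  have hact : ∀ (q : Q) (x : ↥L), ((q • x : ↥L) : E) = q • (x : E) := fun q x => rfl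
  have hs : ∀ B : AddSubgroup ↥L, (∀ q : Q, ∀ x ∈ B, q • x ∈ B) → B = ⊥ ∨ B = ⊤ := by
    intro B hB
    by_cases hb : B = ⊥
    · exact Or.inl hb
    · right
      have h1 : B.map L.subtype ≠ ⊥ := by
        intro h
        apply hb
        rw [eq_bot_iff]
        intro x hx
        have h2 : (x : E) ∈ B.map L.subtype := ⟨x, hx, rfl⟩
        rw [h] at h2
        rw [AddSubgroup.mem_bot] at h2 ⊢
        exact Subtype.ext h2
      have hst : ∀ q : Q, ∀ x ∈ B.map L.subtype, q • x ∈ B.map L.subtype := by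
        rintro q x ⟨y, hy, rfl⟩
        exact ⟨q • y, hB q y hy, rfl⟩
      have h2 := hLmin _ hst (hmono _ hst h1)
      rw [eq_top_iff]
      intro x _
      obtain ⟨y, hy, hyx⟩ := h2 x.2
      have : y = x := Subtype.ext hyx
      rwa [this] at hy
  have hneL : ∃ x : ↥L, x ≠ 0 := ⟨⟨e, heL⟩, fun h => he (congrArg Subtype.val h)⟩
  obtain ⟨p, hp, hpL⟩ := simple_prime hPC hs hneL
  -- `E` has `p`-power exponent
  obtain ⟨m, hm⟩ := fitting hNoe e he hmono ((p : ℕ) : AddMonoid.End E) (fun q x => by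
    rw [AddMonoid.End.natCast_apply, AddMonoid.End.natCast_apply]
    exact (map_nsmul (DistribSMul.toAddMonoidHom E q) p x).symm) (by
    rw [AddMonoid.End.natCast_apply]
    exact congrArg Subtype.val (hpL ⟨e, heL⟩))
  -- central elements are of finite order
  have hcen : ∀ z ∈ Subgroup.center Q, ∃ K : ℕ, 0 < K ∧ z ^ K = 1 := by
    intro z hz
    obtain ⟨k, hk, hzk⟩ := simple_central hPC hs p hp hpL z hz hneL
    have hzq : ∀ (q : Q) (x : E), z ^ k • q • x = q • z ^ k • x := by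
      intro q x
      rw [← mul_smul, ← mul_smul, Subgroup.mem_center_iff.1 ((Subgroup.center Q).pow_mem hz k) q]
    obtain ⟨n, hn⟩ := fitting hNoe e he hmono (ze (z ^ k) - 1 : AddMonoid.End E) (fun q x => by
      rw [es_apply, es_apply, ze_apply, ze_apply, hzq, smul_sub, eo_apply, eo_apply]) (by
      rw [es_apply, ze_apply]
      have h1 : z ^ k • e = e := congrArg Subtype.val (hzk ⟨e, heL⟩)
      rw [h1]
      exact sub_self e)
    obtain ⟨N, hN⟩ := unip p hp (ze (z ^ k) : AddMonoid.End E) n m hn hm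
    refine ⟨k * p ^ N, Nat.mul_pos hk (pow_pos hp.pos N), hfaith _ fun x => ?_⟩
    rw [pow_mul, ← ze_pow, hN]
    rfl
  -- exponent
  have hexp : ∃ n : ℕ, 0 < n ∧ ∀ z ∈ Subgroup.center Q, z ^ n = 1 := by
    classical
    obtain ⟨S, hS⟩ := nil_maxC Q (Subgroup.center Q)
    have hSc : ∀ s ∈ S, s ∈ Subgroup.center Q := fun s hs => by
      rw [← hS]; exact Subgroup.subset_closure hs
    choose! K hK0 hK using hcen
    refine ⟨∏ s ∈ S, K s, Finset.prod_pos fun s hs => hK0 s (hSc s hs), fun z hz => ?_⟩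
    have hz' : z ∈ Subgroup.closure (S : Set Q) := by rw [hS]; exact hz
    have : ∀ z ∈ Subgroup.closure (S : Set Q), z ∈ Subgroup.center Q ∧ z ^ (∏ s ∈ S, K s) = 1 := by
      intro z hz
      induction hz using Subgroup.closure_induction with
      | mem s hs =>
        refine ⟨hSc s hs, ?_⟩
        obtain ⟨b, hb⟩ := Finset.dvd_prod_of_mem K (Finset.mem_coe.1 hs)
        rw [hb, pow_mul, hK s (hSc s hs), one_pow]
      | one => exact ⟨Subgroup.one_mem _, one_pow _⟩
      | mul x y _ _ hx hy =>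
        refine ⟨Subgroup.mul_mem _ hx.1 hy.1, ?_⟩
        have hc : Commute x y := (Subgroup.mem_center_iff.1 hy.1 x)
        rw [hc.mul_pow, hx.2, hy.2, one_mul]
      | inv x _ hx => exact ⟨Subgroup.inv_mem _ hx.1, by rw [inv_pow, hx.2, inv_one]⟩
    exact (this z hz').2
  obtain ⟨n, hn0, hn⟩ := hexp
  have hQ : Finite Q := fin_nil Q n hn0 hn
  -- `E` is a finitely generated abelian group
  obtain ⟨S, hS⟩ := hE
  have hfg : AddGroup.FG E := by
    have hfin : {a : E | ∃ g : Q, ∃ s ∈ S, a = g • s}.Finite := by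
      have h1 : {a : E | ∃ g : Q, ∃ s ∈ S, a = g • s} =
          (fun x : Q × E => x.1 • x.2) '' (Set.univ ×ˢ (S : Set E)) := by
        ext a
        constructor
        · rintro ⟨g, s, hs, rfl⟩
          exact ⟨(g, s), ⟨trivial, hs⟩, rfl⟩
        · rintro ⟨⟨g, s⟩, ⟨-, hs⟩, rfl⟩
          exact ⟨g, s, hs, rfl⟩
      rw [h1]
      exact (Set.finite_univ.prod S.finite_toSet).image _
    rw [AddGroup.fg_def, AddSubgroup.fg_iff]
    exact ⟨_, hS, hfin⟩
  refine AddCommGroup.finite_of_fg_isAddTorsion E ?_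
  intro x
  rw [isOfFinAddOrder_iff_nsmul_eq_zero]
  refine ⟨p ^ m, pow_pos hp.pos m, ?_⟩
  have h1 := congrArg (fun f : AddMonoid.End E => f x) hm
  have h2 : (((p : ℕ) : AddMonoid.End E) ^ m) x = (p ^ m) • x := by
    rw [← Nat.cast_pow, AddMonoid.End.natCast_apply]
  rw [← h2]
  exact h1

/-- P. Hall: monolithic finitely generated modules over finitely generated nilpotent groups are
finite. -/
theorem hall_fin (Q E : Type) [Group Q] [Group.FG Q] [Group.IsNilpotent Q]
    [AddCommGroup E] [DistribMulAction Q E]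
    (hE : FGM Q E) (e : E) (he : e ≠ 0)
    (hmono : ∀ B : AddSubgroup E, (∀ q : Q, ∀ x ∈ B, q • x ∈ B) → B ≠ ⊥ → e ∈ B) : Finite E := by
  let ρ₀ : Q →* Equiv.Perm E := MulAction.toPermHom Q E
  let Γ := ρ₀.range
  let ρ : Q →* Γ := ρ₀.rangeRestrict
  have hρ : Function.Surjective ρ := ρ₀.rangeRestrict_surjective
  let inst : DistribMulAction Γ E :=
    { smul := fun g x => g.1 x
      one_smul := fun x => rfl
      mul_smul := fun g h x => rfl
      smul_zero := fun g => by
        obtain ⟨q, rfl⟩ := hρ g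
        exact smul_zero q
      smul_add := fun g x y => by
        obtain ⟨q, rfl⟩ := hρ g
        exact smul_add q x y }
  have hsm : ∀ (q : Q) (x : E), ρ q • x = q • x := fun q x => rfl
  have h1 : Group.FG Γ := Group.fg_of_surjective hρ
  have h2 : Group.IsNilpotent Γ := Group.nilpotent_of_surjective ρ hρ
  refine hall_fin_faithful Γ E ?_ ?_ e he ?_
  · intro g hg
    apply Subtype.ext
    ext x
    exact hg x
  · obtain ⟨S, hS⟩ := hE
    refine ⟨S, ?_⟩
    rw [← hS]
    congr 1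
    ext a
    constructor
    · rintro ⟨g, s, hs, rfl⟩
      obtain ⟨q, rfl⟩ := hρ g
      exact ⟨q, s, hs, hsm q s⟩
    · rintro ⟨q, s, hs, rfl⟩
      exact ⟨ρ q, s, hs, (hsm q s).symm⟩
  · intro B hB hne
    exact hmono B (fun q x hx => by rw [← hsm]; exact hB _ x hx) hne

end Pool.Agent.N62
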