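import Pool.Agent.N62.Bad2

set_option autoImplicit false

namespace Pool.Agent.N62

open Pool.Agent.H53R2
open scoped commutatorElement

theorem wr_mul_left {D Q : Type} [Group D] [Group Q] (a b : RegularWreathProduct D Q) (x : Q) :
    (a * b).left x = a.left x * b.left (a.right⁻¹ * x) := rfl

theorem wr_inv_left {D Q : Type} [Group D] [Group Q] (a : RegularWreathProduct D Q) (x : Q) :
    (a⁻¹).left x = (a.left (a.right * x))⁻¹ := rfl

/-- wreath products with the infinite cyclic group in the variety -/
theorem wr_inVar (W : Set (FreeGroup ℕ)) {G : Type} [Group G] (hG : InVar W G) (D : Subgroup G)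
    (t : G) (hD : Spread D t) (hne : ∃ x ∈ D, ∃ y ∈ D, x * y ≠ y * x) {H : Type} [Group H]
    (π : ↥D →* H) (hπ : ∀ d, (∀ u, d * u = u * d) → π d = 1) :
    InVar W (RegularWreathProduct ↥π.range (Multiplicative ℤ)) := by
  classical
  let S : Subgroup ((ℕ → G) × RegularWreathProduct ↥π.range (Multiplicative ℤ)) :=
    { carrier := {p | ∀ j : ℤ, ∃ c : ↥D,
        π.rangeRestrict c = p.2.left (Multiplicative.ofAdd (j + p.2.right.toAdd)) ∧
        ∃ N₀ : ℕ, ∀ N, N₀ ≤ N → ∀ u ∈ D,
          p.1 N * cj t j u * (p.1 N)⁻¹ = cj t (j + p.2.right.toAdd) (c * u * (c : G)⁻¹)}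
      one_mem' := by
        intro j
        refine ⟨1, ?_, 0, fun N _ u _ => ?_⟩
        · rw [map_one]; rfl
        · change 1 * cj t j u * 1⁻¹ = cj t (j + 0) (1 * u * (1 : G)⁻¹)
          rw [add_zero, inv_one, mul_one, mul_one, one_mul, one_mul]
      mul_mem' := by
        rintro ⟨s, w⟩ ⟨s', w'⟩ h h' j
        obtain ⟨c', h1', N', h2'⟩ := h' j
        obtain ⟨c, h1, N, h2⟩ := h (j + w'.right.toAdd)
        have e : j + (w * w').right.toAdd = j + w'.right.toAdd + w.right.toAdd := by
          change j + (w.right.toAdd + w'.right.toAdd) = _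
          ring
        refine ⟨c * c', ?_, max N N', fun M hM u hu => ?_⟩
        · rw [map_mul, h1, h1']
          change _ = (w * w').left (Multiplicative.ofAdd (j + (w * w').right.toAdd))
          rw [wr_mul_left, e]
          congr 2
          change j + w'.right.toAdd = -w.right.toAdd + (j + w'.right.toAdd + w.right.toAdd)
          ring
        · have k1 := h2' M (le_trans (le_max_right _ _) hM) u hu
          have hcu : (c' : G) * u * (c' : G)⁻¹ ∈ D :=
            D.mul_mem (D.mul_mem c'.2 hu) (D.inv_mem c'.2)
          have k2 := h2 M (le_trans (le_max_left _ _) hM) _ hcu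
          change s' M * cj t j u * (s' M)⁻¹ = cj t (j + w'.right.toAdd) (c' * u * (c' : G)⁻¹) at k1
          change s M * cj t (j + w'.right.toAdd) (c' * u * (c' : G)⁻¹) * (s M)⁻¹ =
            cj t (j + w'.right.toAdd + w.right.toAdd) (c * (c' * u * (c' : G)⁻¹) * (c : G)⁻¹) at k2
          change (s M * s' M) * cj t j u * (s M * s' M)⁻¹ =
            cj t (j + (w * w').right.toAdd) ((c * c' : G) * u * (c * c' : G)⁻¹)
          rw [e]
          have k3 : (c * c' : G) * u * (c * c' : G)⁻¹ = c * (c' * u * (c' : G)⁻¹) * (c : G)⁻¹ := by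
            group
          rw [k3, ← k2, ← k1]
          group
      inv_mem' := by
        rintro ⟨s, w⟩ h j
        obtain ⟨c, h1, N, h2⟩ := h (j - w.right.toAdd)
        change π.rangeRestrict c = w.left (Multiplicative.ofAdd
          (j - w.right.toAdd + w.right.toAdd)) at h1
        change ∀ M, N ≤ M → ∀ u ∈ D, s M * cj t (j - w.right.toAdd) u * (s M)⁻¹ =
          cj t (j - w.right.toAdd + w.right.toAdd) (c * u * (c : G)⁻¹) at h2
        rw [sub_add_cancel] at h1 h2
        refine ⟨c⁻¹, ?_, N, fun M hM u hu => ?_⟩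
        · rw [map_inv, h1]
          change _ = (w⁻¹).left (Multiplicative.ofAdd (j + (w⁻¹).right.toAdd))
          rw [wr_inv_left]
          congr 2
          change j = w.right.toAdd + (j + -w.right.toAdd)
          ring
        · have hcu : (c : G)⁻¹ * u * (c : G) ∈ D :=
            D.mul_mem (D.mul_mem (D.inv_mem c.2) hu) c.2
          have k1 := h2 M hM _ hcu
          change (s M)⁻¹ * cj t j u * (s M)⁻¹⁻¹ =
            cj t (j + -w.right.toAdd) ((c : G)⁻¹ * u * (c : G)⁻¹⁻¹)
          have k2 : (c : G) * ((c : G)⁻¹ * u * (c : G)) * (c : G)⁻¹ = u := by group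
          rw [k2] at k1
          rw [← k1, inv_inv, inv_inv, ← sub_eq_add_neg]
          group }
  refine InVar.rel (InVar.pi (fun _ : ℕ => hG)) S ?_ ?_
  · -- surjectivity
    intro w
    choose c hc using fun i : ℤ => π.rangeRestrict_surjective (w.left (Multiplicative.ofAdd i))
    let σ : ℕ → G := fun N => Nat.rec (c 0 : G) (fun N a =>
      a * cj t ((N : ℤ) + 1) (c ((N : ℤ) + 1)) * cj t (-((N : ℤ) + 1)) (c (-((N : ℤ) + 1)))) N
    have hσ0 : σ 0 = (c 0 : G) := rfl
    have hσs : ∀ N, σ (N + 1) = σ N * cj t ((N : ℤ) + 1) (c ((N : ℤ) + 1)) *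
      cj t (-((N : ℤ) + 1)) (c (-((N : ℤ) + 1))) := fun N => rfl
    -- commutation of the conjugates
    have hcc : ∀ (i j : ℤ) (u v : G), u ∈ D → v ∈ D → i ≠ j → cj t i u * cj t j v =
        cj t j v * cj t i u := by
      intro i j u v hu hv hij
      have h1 := congrArg (cj t i) (hD (j - i) (by omega) u hu v hv)
      rw [cj_mul, cj_mul, ← cj_add, add_sub_cancel] at h1
      exact h1
    have key : ∀ N : ℕ, ∀ j : ℤ, ∀ u ∈ D, (|j| ≤ N → σ N * cj t j u * (σ N)⁻¹ =
        cj t j (c j * u * (c j : G)⁻¹)) ∧ ((N : ℤ) < |j| → σ N * cj t j u * (σ N)⁻¹ = cj t j u) := by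
      intro N
      induction N with
      | zero =>
        intro j u hu
        refine ⟨fun hj => ?_, fun hj => ?_⟩
        · have hj0 : j = 0 := by
            have : |j| ≤ 0 := by exact_mod_cast hj
            exact abs_nonpos_iff.1 this
          subst hj0
          rw [cj_zero, cj_zero, hσ0]
        · have hj0 : j ≠ 0 := by
            rintro rfl
            simp at hj
          have h1 := hcc 0 j (c 0) u (c 0).2 hu hj0.symm
          rw [cj_zero] at h1
          rw [hσ0, h1]; group
      | succ N ih =>
        intro j u hu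
        have hsplit : ∀ v : G, σ (N + 1) * v * (σ (N + 1))⁻¹ =
            σ N * (cj t ((N : ℤ) + 1) (c ((N : ℤ) + 1)) * (cj t (-((N : ℤ) + 1))
              (c (-((N : ℤ) + 1))) * v * (cj t (-((N : ℤ) + 1)) (c (-((N : ℤ) + 1))))⁻¹) *
              (cj t ((N : ℤ) + 1) (c ((N : ℤ) + 1)))⁻¹) * (σ N)⁻¹ := by
          intro v
          rw [hσs]; group
        have hout : ∀ (i : ℤ) (v : G), v ∈ D → i ≠ j → ∀ z ∈ D,
            cj t i z * cj t j v * (cj t i z)⁻¹ = cj t j v := by
          intro i v hv hij z hz
          rw [hcc i j z v hz hv hij]; group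
        have hin : ∀ (z v : G), cj t j z * cj t j v * (cj t j z)⁻¹ = cj t j (z * v * z⁻¹) := by
          intro z v
          rw [cj_mul, cj_mul, cj_inv]
        refine ⟨fun hj => ?_, fun hj => ?_⟩
        · rcases lt_or_eq_of_le hj with h1 | h1
          · -- old
            have h2 : |j| ≤ (N : ℤ) := by push_cast at h1; omega
            have h3 : (N : ℤ) + 1 ≠ j := by
              intro h4
              have := le_abs_self j
              omega
            have h4 : -((N : ℤ) + 1) ≠ j := by
              intro h5
              have := neg_abs_le j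
              omega
            rw [hsplit, hout _ u hu h4 _ (c _).2, hout _ u hu h3 _ (c _).2]
            exact (ih j u hu).1 h2
          · push_cast at h1
            have hN : (N : ℤ) < |j| := by omega
            rcases abs_eq_abs.1 (h1.trans (abs_of_nonneg (by positivity : (0 : ℤ) ≤ (N : ℤ) + 1)).symm)
              with h2 | h2
            · have h4 : -((N : ℤ) + 1) ≠ j := by omega
              rw [hsplit, hout _ u hu h4 _ (c _).2, ← h2, hin]
              exact (ih j _ (D.mul_mem (D.mul_mem (c j).2 hu) (D.inv_mem (c j).2))).2 hN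
            · have h4 : ((N : ℤ) + 1) ≠ j := by omega
              have hu' : (c j : G) * u * (c j : G)⁻¹ ∈ D :=
                D.mul_mem (D.mul_mem (c j).2 hu) (D.inv_mem (c j).2)
              rw [hsplit, ← h2, hin, hout _ _ hu' h4 _ (c _).2]
              exact (ih j _ hu').2 hN
        · push_cast at hj
          have h3 : (N : ℤ) + 1 ≠ j := by
            intro h4
            have : |j| = (N : ℤ) + 1 := by
              rw [← h4]; exact abs_of_nonneg (by positivity)
            omega
          have h4 : -((N : ℤ) + 1) ≠ j := by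
            intro h5
            have : |j| = (N : ℤ) + 1 := by
              rw [← h5, abs_neg]; exact abs_of_nonneg (by positivity)
            omega
          rw [hsplit, hout _ u hu h4 _ (c _).2, hout _ u hu h3 _ (c _).2]
          exact (ih j u hu).2 (by omega)
    refine ⟨fun N => σ N * t ^ w.right.toAdd, fun j => ⟨c (j + w.right.toAdd), hc _,
      (j + w.right.toAdd).natAbs, fun N hN u hu => ?_⟩⟩
    change σ N * t ^ w.right.toAdd * cj t j u * (σ N * t ^ w.right.toAdd)⁻¹ = _
    have h1 : σ N * t ^ w.right.toAdd * cj t j u * (σ N * t ^ w.right.toAdd)⁻¹ =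
        σ N * cj t (j + w.right.toAdd) u * (σ N)⁻¹ := by
      rw [add_comm, cj_add]
      change _ = σ N * (t ^ w.right.toAdd * cj t j u * t ^ (-w.right.toAdd)) * (σ N)⁻¹
      group
    rw [h1]
    refine (key N (j + w.right.toAdd) u hu).1 ?_
    rw [← Int.natCast_natAbs]
    exact_mod_cast hN
  · -- the kernel
    intro w hw
    have h1 : ∀ j : ℤ, ∃ c : ↥D, π.rangeRestrict c = w.left (Multiplicative.ofAdd
        (j + w.right.toAdd)) ∧ ∀ u ∈ D, cj t j u = cj t (j + w.right.toAdd) (c * u * (c : G)⁻¹) := by
      intro j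
      obtain ⟨c, h1, N, h2⟩ := hw j
      refine ⟨c, h1, fun u hu => ?_⟩
      have h3 := h2 N le_rfl u hu
      change 1 * cj t j u * 1⁻¹ = cj t (j + w.right.toAdd) (c * u * (c : G)⁻¹) at h3
      rw [one_mul, inv_one, mul_one] at h3
      exact h3
    have he : w.right.toAdd = 0 := by
      by_contra hne0
      obtain ⟨x, hx, y, hy, hxy⟩ := hne
      obtain ⟨c, -, h2⟩ := h1 0
      have h3 := h2 y hy
      rw [cj_zero, zero_add] at h3
      apply hxy
      rw [h3]
      exact hD _ hne0 x hx _ (D.mul_mem (D.mul_mem c.2 hy) (D.inv_mem c.2))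
    ext k
    · obtain ⟨c, h2, h3⟩ := h1 (Multiplicative.toAdd k)
      rw [he, add_zero] at h2 h3
      have h4 : π c = 1 := by
        apply hπ
        intro u
        apply Subtype.ext
        have h5 := cj_inj t _ (h3 u u.2)
        change (c : G) * u = u * c
        nth_rewrite 2 [h5]
        group
      change ((w.left (Multiplicative.ofAdd (Multiplicative.toAdd k)) : ↥π.range) : H) = 1
      rw [← h2]
      exact h4
    · exact he

/-- passing to groups with enough homomorphisms -/
theorem wr_embed (W : Set (FreeGroup ℕ)) {H C Q J : Type} [Group H] [Group C] [Group Q]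
    [Nonempty J] (h : InVar W (RegularWreathProduct H Q)) (φ : J → C →* H)
    (hφ : ∀ c, (∀ j, φ j c = 1) → c = 1) : InVar W (RegularWreathProduct C Q) := by
  let Φ : RegularWreathProduct C Q →* (J → RegularWreathProduct H Q) :=
    { toFun := fun w j => ⟨fun x => φ j (w.left x), w.right⟩
      map_one' := by
        funext j
        ext x
        · change φ j 1 = 1
          rw [map_one]
        · rfl
      map_mul' := by
        intro a b
        funext j
        ext x
        · change φ j (a.left x * b.left (a.right⁻¹ * x)) =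
            φ j (a.left x) * φ j (b.left (a.right⁻¹ * x))
          rw [map_mul]
        · rfl }
  refine (InVar.pi (fun _ : J => h)).of_injective Φ ?_
  rw [injective_iff_map_eq_one]
  intro w hw
  ext x
  · change w.left x = 1
    apply hφ
    intro j
    have h1 := congrFun hw j
    exact congrFun (congrArg RegularWreathProduct.left h1) x
  · obtain ⟨j⟩ := ‹Nonempty J›
    have h1 := congrArg (RegularWreathProduct.right (D := H) (Q := Q)) (congrFun hw j)
    exact h1

end Pool.Agent.N62
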