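import Pool.Agent.N62.TwoCase
import Pool.Agent.N62.FWr
import Pool.Agent.N62.WR

set_option autoImplicit false

namespace Pool.Agent.N62

open Pool.Agent.H53R2
open scoped commutatorElement

/-- the wreath product `(C_q wr C_p) wr C_∞` -/
abbrev CWr (q p : ℕ) : Type :=
  RegularWreathProduct (RegularWreathProduct (Multiplicative (ZMod q)) (Multiplicative (ZMod p)))
    (Multiplicative ℤ)

theorem met_case (W : Set (FreeGroup ℕ)) {G : Type} [Group G] (hG : InVar W G) (D : Subgroup G)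
    (t : G) (hD : Spread D t) (A : Subgroup G) (hAD : A ≤ D) (y : G) (hy : y ∈ D) (h : Met A y) :
    ∃ p q : ℕ, p.Prime ∧ q.Prime ∧ p ≠ q ∧ InVar W (CWr q p) := by
  obtain ⟨x, hx, hxy, X, m, hd⟩ := met_data A y h
  obtain ⟨k, _, _, l, π, hl, hπ1, hπ2, hπ3⟩ := exists_hom hd
  have hle : Subgroup.closure ({x, y} : Set G) ≤ D := by
    rw [Subgroup.closure_le]
    rintro u (rfl | hu)
    · exact hAD hx
    · rw [Set.mem_singleton_iff] at hu
      subst hu
      exact hy
  have hD' : Spread (Subgroup.closure ({x, y} : Set G)) t := fun i hi u hu v hv =>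
    hD i hi u (hle hu) v (hle hv)
  have h1 := wr_inVar W hG (Subgroup.closure ({x, y} : Set G)) t hD'
    ⟨x, Subgroup.subset_closure (by simp), y, Subgroup.subset_closure (by simp), by
      intro h2
      exact hxy (commutatorElement_eq_one_iff_mul_comm.2 h2)⟩ π hπ1
  obtain ⟨p, q, hp, hq, hpq, φ, hφ⟩ := wr_homs l hl π.range hπ2 hπ3
  exact ⟨p, q, hp, hq, hpq, wr_embed W h1 φ hφ⟩

theorem cases_of_not_UI (W : Set (FreeGroup ℕ)) (d : ℕ)
    (hd : ∀ (G : Type) [Group G], InVar W G → derivedSeries G d = ⊥)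
    (h : ¬ ∃ u : UI, ∀ (G : Type) [Group G], InVar W G → u.Grp G) :
    (∃ p : ℕ, p.Prime ∧ InVar W (HG p)) ∨
    (∃ p q : ℕ, p.Prime ∧ q.Prime ∧ p ≠ q ∧ InVar W (CWr q p)) := by
  obtain ⟨G₀, _, hG₀, b, m, t₀, hbad⟩ := exists_bad W h
  obtain ⟨G, _, hG, D, t, hD, hne⟩ := exists_spread W d hd
    ⟨G₀, inferInstance, hG₀, b, m, t₀, hbad, Subgroup.mem_top _, Subgroup.mem_top _⟩
  rcases exists_pair D d (hd G hG) hne with ⟨x, hx, y, hy, h2⟩ | ⟨A, hAD, y, hy, hm⟩
  · left
    exact two_case W hG D t hD x y hx hy h2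
  · right
    exact met_case W hG D t hD A hAD y hy hm

theorem bad_HG (p : ℕ) [hp : Fact p.Prime] : ∃ b m t : HG p, Bad b m t := by
  let β : HG p := ⟨Finsupp.single 0 1, 0, 0, 0⟩
  let μ : HG p := ⟨0, Finsupp.single 0 1, 0, 0⟩
  let τ : HG p := ⟨0, 0, 0, 1⟩
  have hτ : ∀ j : ℤ, τ ^ j = ⟨0, 0, 0, j⟩ := by
    have h1 : ∀ a b : ℤ, (⟨0, 0, 0, a⟩ : HG p) * ⟨0, 0, 0, b⟩ = ⟨0, 0, 0, a + b⟩ := by
      intro a b
      rw [HG.mul_def]
      ext1
      · change (0 : ℤ →₀ ZMod p) + shift a 0 = 0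
        rw [shift_z, add_zero]
      · change (0 : ℤ →₀ ZMod p) + shift a 0 = 0
        rw [shift_z, add_zero]
      · change (0 : ZMod p) + 0 + pair 0 (shift a 0) = 0
        rw [pair_zero_left, add_zero, add_zero]
      · rfl
    let ψ : Multiplicative ℤ →* HG p :=
      { toFun := fun a => ⟨0, 0, 0, a.toAdd⟩
        map_one' := rfl
        map_mul' := fun a b => (h1 _ _).symm }
    intro j
    have h2 := map_zpow ψ (Multiplicative.ofAdd 1) j
    change ψ (Multiplicative.ofAdd 1 ^ j) = τ ^ j at h2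
    rw [← h2, ← ofAdd_zsmul, smul_eq_mul, mul_one]
    rfl
  have hconj : ∀ j : ℤ, τ ^ j * μ * τ ^ (-j) = ⟨0, Finsupp.single j 1, 0, 0⟩ := by
    intro j
    rw [hτ, hτ, HG.mul_def, HG.mul_def]
    ext1
    · change (0 : ℤ →₀ ZMod p) + shift j 0 + shift (j + 0) 0 = 0
      rw [shift_z, shift_z, add_zero, add_zero]
    · change (0 : ℤ →₀ ZMod p) + shift j (Finsupp.single 0 1) + shift (j + 0) 0 =
        Finsupp.single j 1
      rw [shift_z, shift_single, zero_add, add_zero, zero_add]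
    · change (0 : ZMod p) + 0 + pair 0 (shift j (Finsupp.single 0 1)) + 0 +
        pair (0 + shift j 0) (shift (j + 0) 0) = 0
      rw [shift_z, pair_zero_left, shift_z, pair_zero_right]
      simp
    · change j + 0 + -j = 0
      ring
  have hcomm : ∀ j : ℤ, β * ⟨0, Finsupp.single j 1, 0, 0⟩ = (⟨0, Finsupp.single j 1, 0, 0⟩ : HG p) * β
      ↔ j ≠ 0 := by
    intro j
    rw [HG.mul_def, HG.mul_def, HG.mk.injEq]
    change (Finsupp.single 0 1 + shift 0 0 = 0 + shift 0 (Finsupp.single 0 1) ∧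
      (0 : ℤ →₀ ZMod p) + shift 0 (Finsupp.single j 1) = Finsupp.single j 1 + shift 0 0 ∧
      (0 : ZMod p) + 0 + pair (Finsupp.single 0 1) (shift 0 (Finsupp.single j 1)) =
        0 + 0 + pair 0 (shift 0 0) ∧ (0 : ℤ) + 0 = 0 + 0) ↔ _
    rw [shift_zero, shift_zero, shift_zero, pair_single_left, pair_zero_left]
    constructor
    · rintro ⟨-, -, h, -⟩ rfl
      rw [Finsupp.single_eq_same] at h
      simp at h
    · intro hj
      refine ⟨by rw [add_zero, zero_add], by rw [add_zero, zero_add], ?_, rfl⟩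
      rw [Finsupp.single_eq_of_ne hj.symm, mul_zero]
  refine ⟨β, μ, τ, ?_, ?_⟩
  · intro h
    rw [commutatorElement_eq_one_iff_mul_comm] at h
    exact (hcomm 0).1 h rfl
  · intro j hj
    rw [hconj, commutatorElement_eq_one_iff_mul_comm]
    exact (hcomm j).2 hj

theorem bad_wr {D : Type} [Group D] (x y : D) (hxy : x * y ≠ y * x) :
    ∃ b m t : RegularWreathProduct D (Multiplicative ℤ), Bad b m t := by
  classical
  let δ : Multiplicative ℤ → D → RegularWreathProduct D (Multiplicative ℤ) := fun i x =>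
    ⟨Pi.mulSingle i x, 1⟩
  have hδ : ∀ i j x y, δ i x * δ j y = ⟨Pi.mulSingle i x * Pi.mulSingle j y, 1⟩ := by
    intro i j x y
    ext k
    · change (Pi.mulSingle i x : Multiplicative ℤ → D) k * (Pi.mulSingle j y : Multiplicative ℤ → D)
        (1⁻¹ * k) = _
      rw [inv_one, one_mul]
      rfl
    · change (1 : Multiplicative ℤ) * 1 = 1
      rw [one_mul]
  let τ : RegularWreathProduct D (Multiplicative ℤ) :=
    RegularWreathProduct.inl (Multiplicative.ofAdd (1 : ℤ))
  have hτ : ∀ j : ℤ, τ ^ j = RegularWreathProduct.inl (Multiplicative.ofAdd j) := by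
    intro j
    have h2 := map_zpow (RegularWreathProduct.inl (D := D) (Q := Multiplicative ℤ))
      (Multiplicative.ofAdd (1 : ℤ)) j
    rw [← ofAdd_zsmul, smul_eq_mul, mul_one] at h2
    exact h2.symm
  have hconj : ∀ j : ℤ, τ ^ j * δ 1 y * τ ^ (-j) = δ (Multiplicative.ofAdd j) y := by
    intro j
    rw [hτ, hτ]
    ext k
    · change ((1 : D) * (Pi.mulSingle 1 y : Multiplicative ℤ → D)
        ((Multiplicative.ofAdd j)⁻¹ * k)) * 1 = (Pi.mulSingle (Multiplicative.ofAdd j) y :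
          Multiplicative ℤ → D) k
      rw [one_mul, mul_one]
      by_cases hk : k = Multiplicative.ofAdd j
      · rw [hk, inv_mul_cancel, Pi.mulSingle_eq_same, Pi.mulSingle_eq_same]
      · rw [Pi.mulSingle_eq_of_ne, Pi.mulSingle_eq_of_ne hk]
        intro h
        exact hk (inv_mul_eq_one.1 h).symm
    · change Multiplicative.ofAdd j * 1 * Multiplicative.ofAdd (-j) = 1
      rw [mul_one, ← ofAdd_add, add_neg_cancel]
      rfl
  refine ⟨δ 1 x, δ 1 y, τ, ?_, ?_⟩
  · intro h
    rw [commutatorElement_eq_one_iff_mul_comm, hδ, hδ] at h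
    have h1 := congrFun (congrArg RegularWreathProduct.left h) 1
    change (Pi.mulSingle 1 x : Multiplicative ℤ → D) 1 * (Pi.mulSingle 1 y : Multiplicative ℤ → D) 1
      = (Pi.mulSingle 1 y : Multiplicative ℤ → D) 1 * (Pi.mulSingle 1 x : Multiplicative ℤ → D) 1
      at h1
    rw [Pi.mulSingle_eq_same, Pi.mulSingle_eq_same] at h1
    exact hxy h1
  · intro j hj
    rw [hconj, commutatorElement_eq_one_iff_mul_comm, hδ, hδ]
    congr 1
    have hne : (1 : Multiplicative ℤ) ≠ Multiplicative.ofAdd j := by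
      intro h
      exact hj (Multiplicative.ofAdd.injective h).symm
    exact Pi.mulSingle_commute (f := fun _ => D) hne x y

theorem bad_CWr (p q : ℕ) [hp : Fact p.Prime] [hq : Fact q.Prime] :
    ∃ b m t : CWr q p, Bad b m t := by
  classical
  let x : RegularWreathProduct (Multiplicative (ZMod q)) (Multiplicative (ZMod p)) :=
    ⟨Pi.mulSingle 1 (Multiplicative.ofAdd 1), 1⟩
  let y : RegularWreathProduct (Multiplicative (ZMod q)) (Multiplicative (ZMod p)) :=
    ⟨1, Multiplicative.ofAdd 1⟩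
  refine bad_wr x y ?_
  intro h
  have h1 := congrFun (congrArg RegularWreathProduct.left h) 1
  change (Pi.mulSingle 1 (Multiplicative.ofAdd 1) :
      Multiplicative (ZMod p) → Multiplicative (ZMod q)) 1 * 1 =
    1 * (Pi.mulSingle 1 (Multiplicative.ofAdd 1) :
      Multiplicative (ZMod p) → Multiplicative (ZMod q)) ((Multiplicative.ofAdd 1)⁻¹ * 1) at h1
  rw [mul_one, one_mul, mul_one, Pi.mulSingle_eq_same, Pi.mulSingle_eq_of_ne] at h1
  · have h2 : (1 : ZMod q) = 0 := h1
    exact one_ne_zero h2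
  · intro h3
    have h4 : -(1 : ZMod p) = 0 := h3
    exact one_ne_zero (neg_eq_zero.1 h4)

end Pool.Agent.N62
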