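import Mathlib

set_option autoImplicit false

namespace Pool.Agent.N62

/-- Malcev: finitely generated residually finite groups are Hopfian -/
theorem malcev (G : Type) [Group G] [hfg : Group.FG G] [Group.ResiduallyFinite G] (φ : G →* G)
    (hφ : Function.Surjective φ) : Function.Injective φ := by
  rw [injective_iff_map_eq_one]
  intro g hg
  by_contra hne
  obtain ⟨N, hN⟩ := Group.exists_finiteIndexNormalSubgroup_notMem g hne
  have hNn : N.toSubgroup.Normal := inferInstance
  have hNf : N.toSubgroup.FiniteIndex := inferInstance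
  obtain ⟨S, hS⟩ := hfg.out
  have hfin : Finite (G →* G ⧸ N.toSubgroup) := by
    refine Finite.of_injective (fun (f : G →* G ⧸ N.toSubgroup) (s : ↥S) => f s.1) ?_
    intro f f' h
    have h1 : Set.EqOn f f' (Subgroup.closure (S : Set G)) := by
      apply MonoidHom.eqOn_closure
      intro s hs
      exact congrFun h ⟨s, hs⟩
    rw [hS] at h1
    ext x
    exact h1 (Subgroup.mem_top x)
  have hinj : Function.Injective (fun f : G →* G ⧸ N.toSubgroup => f.comp φ) := by
    intro f f' h
    ext x
    obtain ⟨y, rfl⟩ := hφ x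
    exact congrArg (fun k : G →* G ⧸ N.toSubgroup => k y) h
  obtain ⟨ψ, hψ⟩ := (Finite.injective_iff_surjective.1 hinj) (QuotientGroup.mk' N.toSubgroup)
  apply hN
  have h1 := congrArg (fun k : G →* G ⧸ N.toSubgroup => k g) hψ
  change ψ (φ g) = QuotientGroup.mk' N.toSubgroup g at h1
  rw [hg, map_one] at h1
  exact (QuotientGroup.eq_one_iff g).1 h1.symm

end Pool.Agent.N62
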