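import Pool.Agent.N62.Bad2

set_option autoImplicit false

namespace Pool.Agent.N62

open Pool.Agent.H53R2
open scoped commutatorElement

/-- a class two pair -/
def Two {G : Type} [Group G] (x y : G) : Prop :=
  ⁅x, y⁆ ≠ 1 ∧ x * ⁅x, y⁆ = ⁅x, y⁆ * x ∧ y * ⁅x, y⁆ = ⁅x, y⁆ * y

/-- `y` acts on the abelian group `A` nontrivially and without nontrivial unipotent pieces -/
def Met {G : Type} [Group G] (A : Subgroup G) (y : G) : Prop :=
  (∀ a ∈ A, ∀ b ∈ A, a * b = b * a) ∧ (∀ a ∈ A, y * a * y⁻¹ ∈ A) ∧ (∀ a ∈ A, y⁻¹ * a * y ∈ A) ∧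
  (∃ x ∈ A, ⁅x, y⁆ ≠ 1) ∧ ∀ x ∈ A, ⁅⁅x, y⁆, y⁆ = 1 → ⁅x, y⁆ = 1

theorem exists_pair {G : Type} [Group G] (D : Subgroup G) (d : ℕ) (hsol : derivedSeries G d = ⊥)
    (hne : ∃ x ∈ D, ∃ y ∈ D, x * y ≠ y * x) :
    (∃ x ∈ D, ∃ y ∈ D, Two x y) ∨ (∃ A : Subgroup G, A ≤ D ∧ ∃ y ∈ D, Met A y) := by
  let F : ℕ → Subgroup G := fun k => (fun Y => ⁅Y, Y⁆)^[k] D
  have hF0 : F 0 = D := rfl
  have hFs : ∀ k, F (k + 1) = ⁅F k, F k⁆ := fun k => Function.iterate_succ_apply' _ _ _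
  have hFle : ∀ k, F k ≤ derivedSeries G k := by
    intro k
    induction k with
    | zero => exact le_top
    | succ k ih =>
      rw [hFs]
      exact Subgroup.commutator_mono ih ih
  have hFD : ∀ k, F k ≤ D := by
    intro k
    induction k with
    | zero => exact le_rfl
    | succ k ih =>
      rw [hFs]
      exact (Subgroup.commutator_le_self _).trans ih
  obtain ⟨k, ⟨x₀, hx₀, y₀, hy₀, hxy₀⟩, hk'⟩ := exists_last
    (fun k => ∃ x ∈ F k, ∃ y ∈ F k, x * y ≠ y * x) hne d (by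
      rintro ⟨x, hx, y, hy, hxy⟩
      have h1 := hFle d hx
      rw [hsol, Subgroup.mem_bot] at h1
      apply hxy
      rw [h1, one_mul, mul_one])
  push Not at hk'
  rw [hFs] at hk'
  have hcomm : ∀ a ∈ F k, ∀ b ∈ F k, ⁅a, b⁆ ∈ ⁅F k, F k⁆ := fun a ha b hb =>
    Subgroup.commutator_mem_commutator ha hb
  have hle : ⁅F k, F k⁆ ≤ F k := Subgroup.commutator_le_self _
  have hconj : ∀ y ∈ F k, ∀ a ∈ ⁅F k, F k⁆, y * a * y⁻¹ ∈ ⁅F k, F k⁆ := by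
    intro y hy a ha
    have h1 : y * a * y⁻¹ = ⁅y, a⁆ * a := by rw [commutatorElement_def]; group
    rw [h1]
    exact Subgroup.mul_mem _ (hcomm y hy a (hle ha)) ha
  by_cases hc : ∀ x ∈ ⁅F k, F k⁆, ∀ y ∈ F k, x * y = y * x
  · left
    refine ⟨x₀, hFD k hx₀, y₀, hFD k hy₀, ?_, ?_, ?_⟩
    · rw [Ne, commutatorElement_eq_one_iff_mul_comm]; exact hxy₀
    · exact (hc _ (hcomm x₀ hx₀ y₀ hy₀) x₀ hx₀).symm
    · exact (hc _ (hcomm x₀ hx₀ y₀ hy₀) y₀ hy₀).symm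
  · push Not at hc
    obtain ⟨x, hx, y, hy, hxy⟩ := hc
    by_cases hu : ∀ x ∈ ⁅F k, F k⁆, ⁅⁅x, y⁆, y⁆ = 1 → ⁅x, y⁆ = 1
    · right
      refine ⟨⁅F k, F k⁆, hle.trans (hFD k), y, hFD k hy, hk', hconj y hy, ?_, ⟨x, hx, ?_⟩, hu⟩
      · intro a ha
        have := hconj y⁻¹ ((F k).inv_mem hy) a ha
        rwa [inv_inv] at this
      · rw [Ne, commutatorElement_eq_one_iff_mul_comm]; exact hxy
    · push Not at hu
      obtain ⟨z, hz, h1, h2⟩ := hu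
      left
      refine ⟨z, hFD k (hle hz), y, hFD k hy, h2, ?_, ?_⟩
      · exact hk' z hz _ (hcomm z (hle hz) y hy)
      · rw [commutatorElement_eq_one_iff_mul_comm] at h1
        exact h1.symm

end Pool.Agent.N62
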