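import Pool.Agent.N62.Ring
import Pool.Agent.N62.Pair
import Pool.Agent.H53R2.Ev

set_option autoImplicit false

namespace Pool.Agent.N62

open LaurentPolynomial
open Pool.Agent.H53R2
open scoped commutatorElement

/-- the cyclic module generated by `x` and a maximal ideal of the Laurent polynomial ring -/
structure MetData {G : Type} [Group G] (x y : G) (X : ℤ[T;T⁻¹] → G) (m : Ideal ℤ[T;T⁻¹]) : Prop where
  max : m.IsMaximal
  fin : Finite (ℤ[T;T⁻¹] ⧸ m)
  T1 : T 1 - 1 ∉ m
  X1 : X 1 = x
  add : ∀ r s, X (r + s) = X r * X s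
  act : ∀ r, y * X r * y⁻¹ = X (T 1 * r)
  wd : ∀ r s, X r = X s → r - s ∈ m
  mem : ∀ r, X r ∈ Subgroup.closure {x, y}

theorem met_data {G : Type} [Group G] (A : Subgroup G) (y : G) (h : Met A y) :
    ∃ x ∈ A, ⁅x, y⁆ ≠ 1 ∧ ∃ X m, MetData x y X m := by
  obtain ⟨hAA, hy1, hy2, ⟨x, hx, hxy⟩, huni⟩ := h
  let _ : CommGroup ↥A :=
    { (inferInstance : Group ↥A) with
      mul_comm := fun a b => Subtype.ext (hAA a a.2 b b.2) }
  let α : MulAut ↥A :=
    { toFun := fun a => ⟨y * a * y⁻¹, hy1 a a.2⟩
      invFun := fun a => ⟨y⁻¹ * a * y, hy2 a a.2⟩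
      left_inv := fun a => Subtype.ext (by
        change y⁻¹ * (y * a * y⁻¹) * y = a
        group)
      right_inv := fun a => Subtype.ext (by
        change y * (y⁻¹ * a * y) * y⁻¹ = a
        group)
      map_mul' := fun a b => Subtype.ext (by
        change y * (a * b) * y⁻¹ = y * a * y⁻¹ * (y * b * y⁻¹)
        group) }
  let act : DistribMulAction (MulAut ↥A) (Additive ↥A) :=
    { smul := fun β e => Additive.ofMul (β e.toMul)
      one_smul := fun e => rfl
      mul_smul := fun β γ e => rfl
      smul_zero := fun β => congrArg Additive.ofMul (map_one β)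
      smul_add := fun β e f => congrArg Additive.ofMul (map_mul β e.toMul f.toMul) }
  have hact : ∀ e : Additive ↥A, (((α • e).toMul : ↥A) : G) = y * (e.toMul : ↥A) * y⁻¹ :=
    fun e => rfl
  let ξ : Additive ↥A := Additive.ofMul ⟨x, hx⟩
  let ε : ℤ[T;T⁻¹] → Additive ↥A := fun r => ev (Additive ↥A) α r ξ
  let X : ℤ[T;T⁻¹] → G := fun r => ((ε r).toMul : ↥A)
  -- the annihilator
  let I : Ideal ℤ[T;T⁻¹] :=
    { carrier := {r | ε r = 0}
      zero_mem' := ev_zero α ξ
      add_mem' := by
        intro a b ha hb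
        change ev (Additive ↥A) α (a + b) ξ = 0
        rw [ev_add]
        change ε a + ε b = 0
        rw [show ε a = 0 from ha, show ε b = 0 from hb, add_zero]
      smul_mem' := by
        intro c a ha
        change ev (Additive ↥A) α (c * a) ξ = 0
        rw [ev_mul]
        change ev (Additive ↥A) α c (ε a) = 0
        rw [show ε a = 0 from ha, map_zero] }
  have hI : ∀ r, r ∈ I ↔ ε r = 0 := fun r => Iff.rfl
  have hεT : ∀ r, ε (T 1 * r) = α • ε r := by
    intro r
    change ev (Additive ↥A) α (T 1 * r) ξ = _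
    rw [ev_mul, ev_T, zpow_one]
  -- the commutator with `y`
  have hcomm : ∀ r, ⁅X r, y⁆ = X (r - T 1 * r) := by
    intro r
    have h1 : ε (r - T 1 * r) = ε r - α • ε r := by
      rw [← hεT]; exact ev_sub α _ _ ξ
    change ⁅X r, y⁆ = (((ε (r - T 1 * r)).toMul : ↥A) : G)
    rw [h1, commutatorElement_def, sub_eq_add_neg]
    change X r * y * (X r)⁻¹ * y⁻¹ = X r * (y * X r * y⁻¹)⁻¹
    group
  have hpow : ∀ n : ℕ, (T 1 - 1) ^ n ∉ I := by
    intro n
    induction n with
    | zero =>
      intro h1
      rw [hI, pow_zero] at h1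
      have h2 : ε 1 = ξ := ev_one α ξ
      rw [h2] at h1
      apply hxy
      have h3 : x = 1 := congrArg (Subtype.val : ↥A → G) (congrArg Additive.toMul h1)
      rw [h3, commutatorElement_one_left]
    | succ n ih =>
      cases n with
      | zero =>
        intro h1
        rw [hI, zero_add, pow_one] at h1
        apply hxy
        have h2 := hcomm 1
        have h3 : X 1 = x := by
          change (((ε 1).toMul : ↥A) : G) = x
          have : ε 1 = ξ := ev_one α ξ
          rw [this]; rfl
        rw [h3, mul_one] at h2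
        rw [h2]
        change (((ε (1 - T 1)).toMul : ↥A) : G) = 1
        have h4 : ε (1 - T 1) = 0 := by
          have h5 : (1 - T 1 : ℤ[T;T⁻¹]) = -(T 1 - 1) := by ring
          change ev (Additive ↥A) α (1 - T 1) ξ = 0
          rw [h5, ev_neg]
          change -ε (T 1 - 1) = 0
          rw [h1, neg_zero]
        rw [h4]; rfl
      | succ n =>
        intro h1
        apply ih
        rw [hI] at h1 ⊢
        -- apply the hypothesis to `(T - 1)^n x`
        have e1 : ∀ r, ε (r - T 1 * r) = -ε ((T 1 - 1) * r) := by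
          intro r
          have h5 : (r - T 1 * r : ℤ[T;T⁻¹]) = -((T 1 - 1) * r) := by ring
          change ev (Additive ↥A) α (r - T 1 * r) ξ = _
          rw [h5, ev_neg]
        have h2 := huni (X ((T 1 - 1) ^ n)) (ε _).toMul.2 (by
          rw [hcomm, hcomm]
          change (((ε _).toMul : ↥A) : G) = 1
          have h6 : (T 1 - 1) * ((T 1 - 1) ^ n - T 1 * (T 1 - 1) ^ n) =
            -((T 1 - 1) ^ (n + 1 + 1) : ℤ[T;T⁻¹]) := by ring
          rw [e1, h6]
          change ((((-ev (Additive ↥A) α (-((T 1 - 1) ^ (n + 1 + 1))) ξ)).toMul : ↥A) : G) = 1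
          rw [ev_neg]
          change ((((- -ε ((T 1 - 1) ^ (n + 1 + 1)))).toMul : ↥A) : G) = 1
          rw [h1, neg_zero, neg_zero]
          rfl)
        rw [hcomm] at h2
        have h3 : ε ((T 1 - 1) ^ n - T 1 * (T 1 - 1) ^ n) = 0 := by
          apply Additive.toMul.injective
          exact Subtype.ext h2
        rw [e1] at h3
        rw [pow_succ']
        exact neg_eq_zero.1 h3
  obtain ⟨m, hmax, hIm, hTm, hfin⟩ := exists_maximal I (T 1 - 1) hpow
  refine ⟨x, hx, hxy, X, m, hmax, hfin, hTm, ?_, ?_, ?_, ?_, ?_⟩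
  · change (((ε 1).toMul : ↥A) : G) = x
    have : ε 1 = ξ := ev_one α ξ
    rw [this]; rfl
  · intro r s
    change (((ev (Additive ↥A) α (r + s) ξ).toMul : ↥A) : G) = _
    rw [ev_add]
    rfl
  · intro r
    change _ = (((ε (T 1 * r)).toMul : ↥A) : G)
    rw [hεT]
    rfl
  · intro r s hrs
    apply hIm
    rw [hI]
    have h1 : ε r = ε s := by
      apply Additive.toMul.injective
      exact Subtype.ext hrs
    change ev (Additive ↥A) α (r - s) ξ = 0
    rw [ev_sub]
    change ε r - ε s = 0
    rw [h1, sub_self]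
  · intro r
    induction r using LaurentPolynomial.induction_on' with
    | add p q hp hq =>
      have h1 : X (p + q) = X p * X q := by
        change (((ev (Additive ↥A) α (p + q) ξ).toMul : ↥A) : G) = _
        rw [ev_add]
        rfl
      rw [h1]
      exact Subgroup.mul_mem _ hp hq
    | C_mul_T n a =>
      have h1 : X (C a * T n) = (y ^ n * x * y ^ (-n)) ^ a := by
        change (((ev (Additive ↥A) α (C a * T n) ξ).toMul : ↥A) : G) = _
        rw [ev_mul, ev_C, ev_T]
        have h2 : ∀ n : ℤ, ((((α ^ n) • ξ).toMul : ↥A) : G) = y ^ n * x * y ^ (-n) := by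
          intro n
          induction n using Int.induction_on with
          | zero => rw [zpow_zero, one_smul, zpow_zero, neg_zero, zpow_zero, one_mul, mul_one]; rfl
          | succ i ih =>
            rw [add_comm, zpow_add, zpow_one, mul_smul, hact, ih, zpow_add, zpow_one, neg_add,
              zpow_add, zpow_neg_one]
            group
          | pred i ih =>
            have h3 : ∀ e : Additive ↥A, (((α⁻¹ • e).toMul : ↥A) : G) =
              y⁻¹ * (e.toMul : ↥A) * y := fun e => rfl
            rw [sub_eq_add_neg, add_comm, zpow_add, zpow_neg_one, mul_smul, h3, ih, zpow_add,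
              zpow_neg_one, neg_add, zpow_add]
            group
        rw [← h2 n]
        rfl
      rw [h1]
      apply Subgroup.zpow_mem
      have hyc : y ∈ Subgroup.closure ({x, y} : Set G) := Subgroup.subset_closure (by simp)
      exact Subgroup.mul_mem _ (Subgroup.mul_mem _ (Subgroup.zpow_mem _ hyc n)
        (Subgroup.subset_closure (by simp))) (Subgroup.zpow_mem _ hyc _)

end Pool.Agent.N62
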