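import Pool.Agent.N62.HallFin
import Pool.Agent.H53R2.UB2
import Pool.Agent.H53R2.Small

set_option autoImplicit false

namespace Pool.Agent.N62

open Pool.Agent.Helper294.HallC
open Pool.Agent.H53R2
open scoped commutatorElement

/-- abelian normal subgroups with nilpotent action are residually finite -/
theorem sec_fin {H : Type} [Group H] [Group.FG H] (hmax : MaxN H) (K : Subgroup H) [K.Normal]
    [Group.IsNilpotent (H ⧸ K)] (A : Subgroup H) [A.Normal] (hAA : ⁅A, A⁆ = ⊥) (hAK : ⁅A, K⁆ = ⊥)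
    (a : H) (haA : a ∈ A) (ha : a ≠ 1) :
    ∃ A' : Subgroup H, A'.Normal ∧ A' ≤ A ∧ a ∉ A' ∧ A'.relIndex A ≠ 0 := by
  obtain ⟨A', ⟨hA'n, hA'A, haA'⟩, hA'max⟩ := hmax.exists_max
    (fun M => M.Normal ∧ M ≤ A ∧ a ∉ M) (fun M hM => hM.1)
    ⟨⊥, inferInstance, bot_le, fun h => ha (Subgroup.mem_bot.1 h)⟩
  refine ⟨A', hA'n, hA'A, haA', ?_⟩
  have hp := QuotientGroup.mk'_surjective K
  obtain ⟨E, _, _, ⟨s⟩⟩ := exists_secMod (QuotientGroup.mk' K) hp A' A
    (hAA ▸ bot_le) (by rw [QuotientGroup.ker_mk', hAK]; exact bot_le)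
  obtain ⟨S, hS⟩ := hmax.normalClosure A inferInstance
  have hSA : (S : Set H) ⊆ A := by rw [hS]; exact Subgroup.subset_normalClosure
  have hfgm := K_fgm s S hSA (by rw [← hS]; exact le_sup_left) hA'A
  have hfg : Group.FG (H ⧸ K) := QuotientGroup.fg _
  have hE : Finite E := by
    refine hall_fin (H ⧸ K) E hfgm (s.π ⟨a, haA⟩).toAdd ?_ ?_
    · intro h
      have h1 : s.π ⟨a, haA⟩ = 1 := h
      exact haA' ((s.ker _).1 h1)
    · intro B hB hne
      let P : Subgroup H :=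
        { carrier := {g | ∃ h : g ∈ A, (s.π ⟨g, h⟩).toAdd ∈ B}
          one_mem' := ⟨A.one_mem, by
            have : s.π ⟨1, A.one_mem⟩ = 1 := map_one s.π
            rw [this]; exact B.zero_mem⟩
          mul_mem' := by
            rintro a b ⟨ha, ha'⟩ ⟨hb, hb'⟩
            refine ⟨A.mul_mem ha hb, ?_⟩
            have : s.π ⟨a * b, A.mul_mem ha hb⟩ = s.π ⟨a, ha⟩ * s.π ⟨b, hb⟩ :=
              map_mul s.π ⟨a, ha⟩ ⟨b, hb⟩
            rw [this]; exact B.add_mem ha' hb'
          inv_mem' := by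
            rintro a ⟨ha, ha'⟩
            refine ⟨A.inv_mem ha, ?_⟩
            have : s.π ⟨a⁻¹, A.inv_mem ha⟩ = (s.π ⟨a, ha⟩)⁻¹ := map_inv s.π ⟨a, ha⟩
            rw [this]; exact B.neg_mem ha' }
      have hPn : P.Normal := by
        constructor
        rintro a ⟨ha, ha'⟩ g
        refine ⟨(inferInstance : A.Normal).conj_mem a ha g, ?_⟩
        rw [s.act g ⟨a, ha⟩ _ rfl]
        exact hB _ _ ha'
      have hA'P : A' ≤ P := by
        intro x hx
        refine ⟨hA'A hx, ?_⟩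
        rw [(s.ker ⟨x, hA'A hx⟩).2 hx]
        exact B.zero_mem
      have haP : a ∈ P := by
        by_contra hcon
        have h1 := hA'max P ⟨hPn, fun x hx => hx.1, hcon⟩ hA'P
        apply hne
        rw [eq_bot_iff]
        intro b hb
        obtain ⟨y, hy⟩ := s.surj (Multiplicative.ofAdd b)
        have h2 : (y : H) ∈ P := ⟨y.2, by
          change (s.π y).toAdd ∈ B
          rw [hy]; exact hb⟩
        rw [h1] at h2
        have h3 := (s.ker y).2 h2
        rw [hy] at h3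
        exact (AddSubgroup.mem_bot).2 h3
      exact haP.2
  have h1 : A'.subgroupOf A = s.π.ker := by
    ext x
    rw [Subgroup.mem_subgroupOf, MonoidHom.mem_ker, s.ker]
  have h2 : s.π.ker.FiniteIndex := inferInstance
  rw [Subgroup.relIndex, h1]
  exact h2.index_ne_zero

/-- monolithic groups: abelian normal subgroups with nilpotent action are finite -/
theorem mono_fin {G : Type} [Group G] (g : G) (hg : g ≠ 1)
    (hmono : ∀ M : Subgroup G, M.Normal → M ≠ ⊥ → g ∈ M) (H : Subgroup G) [H.Normal]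
    [H.FiniteIndex] [Group.FG ↥H] (hmax : MaxN ↥H) (K : Subgroup ↥H) [K.Normal]
    [Group.IsNilpotent (↥H ⧸ K)] (A : Subgroup G) [A.Normal] (hAH : A ≤ H)
    (hAA : ∀ x ∈ A, ∀ y ∈ A, x * y = y * x)
    (hAK : ∀ x ∈ A, ∀ y : ↥H, y ∈ K → x * y = y * x) : Finite ↥A := by
  by_cases hA : A = ⊥
  · rw [hA]; infer_instance
  have hgA := hmono A inferInstance hA
  obtain ⟨A', hA'n, hA'A, hgA', hidx⟩ := sec_fin hmax K (A.subgroupOf H) (by
      rw [eq_bot_iff, Subgroup.commutator_le]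
      intro x hx y hy
      rw [Subgroup.mem_bot, commutatorElement_eq_one_iff_mul_comm]
      exact Subtype.ext (hAA _ hx _ hy)) (by
      rw [eq_bot_iff, Subgroup.commutator_le]
      intro x hx y hy
      rw [Subgroup.mem_bot, commutatorElement_eq_one_iff_mul_comm]
      exact Subtype.ext (hAK _ hx _ hy)) ⟨g, hAH hgA⟩ hgA (fun h => hg (congrArg Subtype.val h))
  -- transfer to `G`
  set B : Subgroup G := A'.map H.subtype with hB
  have hgB : g ∉ B := by
    rintro ⟨x, hx, hxg⟩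
    apply hgA'
    have : x = ⟨g, hAH hgA⟩ := Subtype.ext hxg
    rwa [this] at hx
  have hBidx : B.relIndex A ≠ 0 := by
    have h1 : A = (A.subgroupOf H).map H.subtype := by
      rw [Subgroup.map_subgroupOf_eq_of_le hAH]
    rw [h1, hB, Subgroup.relIndex_map_map_of_injective _ _ H.subtype_injective]
    exact hidx
  have hBH : ∀ h ∈ H, ∀ b ∈ B, h * b * h⁻¹ ∈ B := by
    rintro h hh _ ⟨b, hb, rfl⟩
    exact ⟨⟨h, hh⟩ * b * ⟨h, hh⟩⁻¹, hA'n.conj_mem b hb _, rfl⟩
  let f : G ⧸ H → Subgroup G := fun i => B.comap (MulAut.conj i.out⁻¹).toMonoidHom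
  have hf : ∀ i, (f i).relIndex A ≠ 0 := by
    intro i
    have h1 : A.map (MulAut.conj i.out⁻¹).toMonoidHom = A := by
      apply le_antisymm
      · rintro _ ⟨x, hx, rfl⟩
        exact (inferInstance : A.Normal).conj_mem x hx _
      · intro x hx
        refine ⟨i.out * x * i.out⁻¹, (inferInstance : A.Normal).conj_mem x hx _, ?_⟩
        change i.out⁻¹ * (i.out * x * i.out⁻¹) * i.out⁻¹⁻¹ = x
        group
    change (B.comap (MulAut.conj i.out⁻¹).toMonoidHom).relIndex A ≠ 0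
    rw [Subgroup.relIndex_comap, h1]
    exact hBidx
  have hV : (⨅ i, f i).relIndex A ≠ 0 := Subgroup.relIndex_iInf_ne_zero hf
  have hVB : (⨅ i, f i) ≤ B.normalCore := by
    intro x hx y
    rw [Subgroup.mem_iInf] at hx
    have h1 := hx (QuotientGroup.mk y⁻¹)
    change (QuotientGroup.mk (s := H) y⁻¹).out⁻¹ * x *
      (QuotientGroup.mk (s := H) y⁻¹).out⁻¹⁻¹ ∈ B at h1
    obtain ⟨h, hh⟩ := QuotientGroup.mk_out_eq_mul H y⁻¹
    rw [hh] at h1
    have h2 := hBH h h.2 _ h1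
    have h3 : (h : G) * ((y⁻¹ * (h : G))⁻¹ * x * (y⁻¹ * (h : G))⁻¹⁻¹) * (h : G)⁻¹ =
        y * x * y⁻¹ := by group
    rwa [h3] at h2
  have hcore : B.normalCore = ⊥ := by
    by_contra hne
    exact hgB (B.normalCore_le (hmono _ inferInstance hne))
  have h5 : (⊥ : Subgroup G).relIndex A ≠ 0 := by
    intro h0
    apply hV
    rw [hcore] at hVB
    rw [le_bot_iff.1 hVB]
    exact h0
  rw [Subgroup.relIndex_bot_left] at h5
  exact Nat.finite_of_card_ne_zero h5

end Pool.Agent.N62
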