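import Pool.Agent.N62.RF2

set_option autoImplicit false

namespace Pool.Agent.N62

open Pool.Agent.Helper294.HallC
open Pool.Agent.H53R2
open scoped commutatorElement

/-- upper central series of `N` -/
def Us {H : Type} [Group H] (N : Subgroup H) [N.Normal] : ℕ → {R : Subgroup H // R.Normal}
  | 0 => ⟨⊥, inferInstance⟩
  | n + 1 => ⟨@UU H _ N (Us N n).1 _ (Us N n).2, by
      have := (Us N n).2
      infer_instance⟩

theorem NFin (u : UI) (H : Type) [Group H] [Group.FG H] (hG : u.Grp H) (m c : ℕ)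
    (N : Subgroup H) [N.Normal] (hN : N = Lw (⊤ : Subgroup H) m ⊤) (h : Lw N c N = ⊥)
    (hZ : Finite ↥(UU N ⊥)) : Finite ↥N := by
  let p : H →* H ⧸ N := QuotientGroup.mk' N
  have hp : Function.Surjective p := QuotientGroup.mk'_surjective N
  have hker : p.ker = N := QuotientGroup.ker_mk' N
  have hfg : Group.FG (H ⧸ N) := QuotientGroup.fg _
  have hnil : Group.IsNilpotent (H ⧸ N) := by
    apply E_nilp m
    have h3 := map_Lw p (⊤ : Subgroup H) m ⊤
    rw [Subgroup.map_top_of_surjective _ hp] at h3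
    rw [← h3, eq_bot_iff]
    rintro _ ⟨x, hx, rfl⟩
    rw [← hN] at hx
    exact (QuotientGroup.eq_one_iff x).2 hx
  obtain ⟨r, t', ht'⟩ := nil_bddGen (H ⧸ N)
  choose t ht using fun i => hp (t' i)
  have hgen : ∀ g : H, ∃ k : Fin r → ℤ, ∃ ν ∈ N, g = ν * (List.ofFn fun i => t i ^ k i).prod := by
    intro g
    obtain ⟨k, hk⟩ := ht' (p g)
    refine ⟨k, g * ((List.ofFn fun i => t i ^ k i).prod)⁻¹, ?_, by group⟩
    rw [← hker, MonoidHom.mem_ker, map_mul, map_inv, map_list_prod, List.map_ofFn]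
    have : (⇑p ∘ fun i => t i ^ k i) = fun i => t' i ^ k i := by
      ext i; simp [ht]
    rw [this, ← hk, mul_inv_cancel]
  obtain ⟨S, hS⟩ := K_nfg (G := H) m
  rw [← hN] at hS
  have hfinU : ∀ n, Finite ↥(Us N (n + 1)).1 := by
    intro n
    induction n with
    | zero => exact hZ
    | succ n ih =>
      have := (Us N n).2
      exact NFin_step u hG N r t hgen S hS (Us N n).1 ih
  have hle : ∀ i j, i + j = c → Lw N j N ≤ (Us N i).1 := by
    intro i
    induction i with
    | zero =>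
      intro j hj
      have : j = c := by omega
      rw [this, h]
      exact bot_le
    | succ i ih =>
      intro j hj
      have h1 := ih (j + 1) (by omega)
      have := (Us N i).2
      intro x hx
      refine ⟨Lw_le N N j hx, fun y hy => h1 ?_⟩
      rw [Lw_succ]
      exact Subgroup.commutator_mem_commutator hx hy
  have h1 := hle c 0 (by omega)
  rw [Lw_zero] at h1
  cases c with
  | zero =>
    have h2 : N = ⊥ := le_bot_iff.1 h1
    rw [h2]; infer_instance
  | succ c =>
    have := hfinU c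
    exact Finite.of_injective (Subgroup.inclusion h1) (Subgroup.inclusion_injective h1)

theorem nilp_quot_Lw {H : Type} [Group H] (m : ℕ) (N : Subgroup H) [N.Normal]
    (hN : Lw (⊤ : Subgroup H) m ⊤ ≤ N) : Group.IsNilpotent (H ⧸ N) := by
  apply E_nilp m
  have h3 := map_Lw (QuotientGroup.mk' N) (⊤ : Subgroup H) m ⊤
  rw [Subgroup.map_top_of_surjective _ (QuotientGroup.mk'_surjective N)] at h3
  rw [← h3, eq_bot_iff]
  rintro _ ⟨x, hx, rfl⟩
  exact (QuotientGroup.eq_one_iff x).2 (hN hx)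

theorem ds_subgroup {G : Type} [Group G] (H : Subgroup G) (d : ℕ) (h : derivedSeries G d = ⊥) :
    derivedSeries ↥H d = ⊥ := by
  have h1 : (derivedSeries ↥H d).map H.subtype ≤ derivedSeries G d := map_derivedSeries_le_derivedSeries H.subtype d
  rw [h, le_bot_iff] at h1
  exact (Subgroup.map_eq_bot_iff_of_injective _ H.subtype_injective).1 h1

/-- monolithic finitely generated soluble groups with a universal identity are finite -/
theorem monolithic_finite (u : UI) (d : ℕ) (G : Type) [Group G] [Group.FG G] (hu : u.Grp G)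
    (hd : derivedSeries G d = ⊥) (g : G) (hg : g ≠ 1)
    (hmono : ∀ M : Subgroup G, M.Normal → M ≠ ⊥ → g ∈ M) : Finite G := by
  obtain ⟨⟨G₁, hG₁n, hG₁f, m, c, hmc⟩, -⟩ := U_main u d G hu hd
  have hfg₁ : Group.FG ↥G₁ := Subgroup.fg_of_index_ne_zero G₁
  have hmax₁ : MaxN ↥G₁ := (U_main u d ↥G₁ (hu.subgroup G₁) (ds_subgroup G₁ d hd)).2
  set NG : Subgroup G := Lw G₁ m G₁ with hNG
  have hNGn : NG.Normal := by rw [hNG]; infer_instance
  have hNGle : NG ≤ G₁ := Lw_le G₁ G₁ m
  set N : Subgroup ↥G₁ := Lw (⊤ : Subgroup ↥G₁) m ⊤ with hN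
  have hNn : N.Normal := by rw [hN]; infer_instance
  have hNmap : N.map G₁.subtype = NG := E_map_mk G₁ m
  have hNc : Lw N c N = ⊥ := by
    apply Subgroup.map_injective G₁.subtype_injective
    rw [map_Lw, hNmap, Subgroup.map_bot, hmc]
  have hnq : Group.IsNilpotent (↥G₁ ⧸ N) := nilp_quot_Lw m N le_rfl
  -- the centre of `NG`
  have hA : Finite ↥(UU NG ⊥) := by
    refine mono_fin g hg hmono G₁ hmax₁ N (UU NG ⊥) ((UU_le NG ⊥).trans hNGle) ?_ ?_
    · intro x hx y hy
      have h1 := hx.2 y (UU_le NG ⊥ hy)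
      rwa [Subgroup.mem_bot, commutatorElement_eq_one_iff_mul_comm] at h1
    · intro x hx y hy
      have h1 := hx.2 y (by rw [← hNmap]; exact ⟨y, hy, rfl⟩)
      rwa [Subgroup.mem_bot, commutatorElement_eq_one_iff_mul_comm] at h1
  have hA' : Finite ↥(UU N ⊥) := by
    refine Finite.of_injective (fun x : ↥(UU N ⊥) => (⟨(x : ↥G₁), ?_⟩ : ↥(UU NG ⊥))) ?_
    · refine ⟨by rw [← hNmap]; exact ⟨x, x.2.1, rfl⟩, fun y hy => ?_⟩
      rw [← hNmap] at hy
      obtain ⟨z, hz, rfl⟩ := hy
      have h1 := x.2.2 z hz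
      rw [Subgroup.mem_bot] at h1 ⊢
      exact congrArg Subtype.val h1
    · intro a b hab
      apply Subtype.ext
      apply Subtype.ext
      exact congrArg (Subtype.val : ↥(UU NG ⊥) → G) hab
  have hNf : Finite ↥N := NFin u ↥G₁ (hu.subgroup G₁) m c N hN hNc hA'
  have hNGf : Finite ↥NG := by
    rw [← hNmap]
    exact Finite.of_surjective (fun x : ↥N => (⟨G₁.subtype x, ⟨x, x.2, rfl⟩⟩ :
      ↥(N.map G₁.subtype))) (by
        rintro ⟨_, ⟨x, hx, rfl⟩⟩
        exact ⟨⟨x, hx⟩, rfl⟩)
  -- the centralizer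
  set C : Subgroup G := G₁ ⊓ Subgroup.centralizer (NG : Set G) with hC
  have hcf : (Subgroup.centralizer (NG : Set G)).FiniteIndex := by
    have h1 : (MulAut.conjNormal : G →* MulAut ↥NG).ker ≤ Subgroup.centralizer (NG : Set G) := by
      intro x hx
      rw [Subgroup.mem_centralizer_iff]
      intro y hy
      rw [MonoidHom.mem_ker] at hx
      have h2 := congrArg (fun f : MulAut ↥NG => ((f ⟨y, hy⟩ : ↥NG) : G)) hx
      simp only [MulAut.conjNormal_apply, MulAut.one_apply] at h2
      have h3 : x * y = y * x := by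
        calc x * y = x * y * x⁻¹ * x := by group
          _ = y * x := by rw [h2]
      exact h3.symm
    have h2 : (MulAut.conjNormal : G →* MulAut ↥NG).ker.FiniteIndex := by
      have : Finite (MulAut ↥NG) := Finite.of_injective (fun f : MulAut ↥NG => (f : ↥NG → ↥NG))
        (fun a b hab => MulEquiv.ext (congrFun hab))
      infer_instance
    exact Subgroup.finiteIndex_of_le h1
  have hCf : C.FiniteIndex := inferInstance
  have hCn : C.Normal := inferInstance
  have hfgC : Group.FG ↥C := Subgroup.fg_of_index_ne_zero C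
  have hmaxC : MaxN ↥C := (U_main u d ↥C (hu.subgroup C) (ds_subgroup C d hd)).2
  have hCnil : Group.IsNilpotent ↥C := by
    apply E_nilp (m + 1)
    apply Subgroup.map_injective C.subtype_injective
    rw [E_map_mk, Subgroup.map_bot, eq_bot_iff, Lw_succ, Subgroup.commutator_le]
    intro x hx y hy
    have h1 : x ∈ NG := Lw_mono (inf_le_left : C ≤ G₁) (inf_le_left : C ≤ G₁) m hx
    rw [Subgroup.mem_bot, commutatorElement_eq_one_iff_mul_comm]
    exact (Subgroup.mem_centralizer_iff.1 (hC ▸ hy : y ∈ G₁ ⊓ _).2) x h1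
  have hqtop : Group.IsNilpotent (↥C ⧸ (⊤ : Subgroup ↥C)) :=
    Group.nilpotent_of_surjective (QuotientGroup.mk' (⊤ : Subgroup ↥C))
      (QuotientGroup.mk'_surjective _)
  have hA2 : Finite ↥(UU C ⊥) := by
    refine mono_fin g hg hmono C hmaxC ⊤ (UU C ⊥) (UU_le C ⊥) ?_ ?_
    · intro x hx y hy
      have h1 := hx.2 y (UU_le C ⊥ hy)
      rwa [Subgroup.mem_bot, commutatorElement_eq_one_iff_mul_comm] at h1
    · intro x hx y _
      have h1 := hx.2 y y.2
      rwa [Subgroup.mem_bot, commutatorElement_eq_one_iff_mul_comm] at h1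
  have hCfin : Finite ↥C := by
    refine fin_nil ↥C (Nat.card ↥(UU C ⊥)) Nat.card_pos ?_
    intro z hz
    have hzU : (z : G) ∈ UU C ⊥ := by
      refine ⟨z.2, fun x hx => ?_⟩
      rw [Subgroup.mem_bot, commutatorElement_eq_one_iff_mul_comm]
      exact (congrArg Subtype.val (Subgroup.mem_center_iff.1 hz ⟨x, hx⟩)).symm
    have h1 : (⟨(z : G), hzU⟩ : ↥(UU C ⊥)) ^ Nat.card ↥(UU C ⊥) = 1 := pow_card_eq_one'
    apply Subtype.ext
    have h2 := congrArg (Subtype.val : ↥(UU C ⊥) → G) h1
    rw [Subgroup.coe_pow] at h2 ⊢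
    exact h2
  exact (Subgroup.finite_iff_finite_and_finiteIndex (H := C)).2 ⟨hCfin, hCf⟩

/-- finitely generated soluble groups with a universal identity are residually finite -/
theorem resFin_of_UI (u : UI) (d : ℕ) (G : Type) [Group G] [Group.FG G] (hu : u.Grp G)
    (hd : derivedSeries G d = ⊥) : Group.ResiduallyFinite G := by
  rw [Group.residuallyFinite_iff_exists_finiteIndex]
  intro g hg
  have hmax := (U_main u d G hu hd).2
  obtain ⟨N, ⟨hNn, hgN⟩, hNmax⟩ := hmax.exists_max (fun M => M.Normal ∧ g ∉ M) (fun M hM => hM.1)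
    ⟨⊥, inferInstance, fun h => hg (Subgroup.mem_bot.1 h)⟩
  have hp := QuotientGroup.mk'_surjective N
  have hfg : Group.FG (G ⧸ N) := QuotientGroup.fg _
  have hq : derivedSeries (G ⧸ N) d = ⊥ := by
    have h1 := map_derivedSeries_eq (f := QuotientGroup.mk' N) hp d
    rw [← h1, hd, Subgroup.map_bot]
  have hfin : Finite (G ⧸ N) := by
    refine monolithic_finite u d (G ⧸ N) (hu.of_surjective (QuotientGroup.mk' N) hp) hq
      (QuotientGroup.mk' N g) (fun h => hgN ((QuotientGroup.eq_one_iff g).1 h)) ?_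
    intro M hMn hMne
    by_contra hcon
    have h1 := hNmax (M.comap (QuotientGroup.mk' N)) ⟨inferInstance, hcon⟩ (by
      intro x hx
      rw [Subgroup.mem_comap]
      have : QuotientGroup.mk' N x = 1 := (QuotientGroup.eq_one_iff x).2 hx
      rw [this]; exact M.one_mem)
    apply hMne
    rw [eq_bot_iff]
    intro x hx
    obtain ⟨y, rfl⟩ := hp x
    have h2 : y ∈ M.comap (QuotientGroup.mk' N) := hx
    rw [h1] at h2
    exact (QuotientGroup.eq_one_iff y).2 h2
  have hNf : N.FiniteIndex := Subgroup.finiteIndex_of_finite_quotient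
  exact ⟨N, hNf, hgN⟩

end Pool.Agent.N62

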