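import Mathlib

set_option autoImplicit false

namespace Pool.Agent.N62

open LaurentPolynomial

theorem jac_int : IsJacobsonRing ℤ := by
  rw [isJacobsonRing_iff_prime_eq]
  intro P hP
  by_cases h : P = ⊥
  · subst h
    rw [eq_bot_iff]
    intro x hx
    rw [Ideal.mem_jacobson_bot] at hx
    have h1 := hx x
    rw [Int.isUnit_iff] at h1
    rw [Ideal.mem_bot]
    rcases h1 with h1 | h1
    · have : x * x = 0 := by linarith
      exact mul_self_eq_zero.1 this
    · exfalso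
      nlinarith [mul_self_nonneg x]
  · have : P.IsMaximal := IsPrime.to_maximal_ideal h
    exact Ideal.jacobson_eq_self_of_isMaximal

/-- residue fields of finitely generated commutative rings are finite -/
theorem residue_finite (S : Type) [CommRing S] [alg : Algebra ℤ S] [Algebra.FiniteType ℤ S]
    (m : Ideal S) [hm : m.IsMaximal] : Finite (S ⧸ m) := by
  obtain rfl : alg = Ring.toIntAlgebra S := Subsingleton.elim _ _
  let F : Field (S ⧸ m) := Ideal.Quotient.field m
  have h0 : Algebra.FiniteType ℤ (S ⧸ m) :=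
    Algebra.FiniteType.of_surjective ((Ideal.Quotient.mkₐ S m).restrictScalars ℤ)
      Ideal.Quotient.mk_surjective
  have hJ : IsJacobsonRing ℤ := jac_int
  have h1 : Module.Finite ℤ (S ⧸ m) := finite_of_finite_type_of_isJacobsonRing ℤ (S ⧸ m)
  obtain ⟨p, hp⟩ := CharP.exists (S ⧸ m)
  rcases Nat.eq_zero_or_pos p with h2 | h2
  · exfalso
    subst h2
    have hc : CharZero (S ⧸ m) := CharP.charP_to_charZero (S ⧸ m)
    have h3 : Function.Injective (algebraMap ℤ (S ⧸ m)) := by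
      have : (algebraMap ℤ (S ⧸ m)) = Int.castRingHom (S ⧸ m) := RingHom.ext_int _ _
      rw [this]
      exact RingHom.injective_int _
    have hi : Algebra.IsIntegral ℤ (S ⧸ m) := Algebra.IsIntegral.of_finite ℤ (S ⧸ m)
    have h4 : IsField ℤ := isField_of_isIntegral_of_isField h3 (Field.toIsField _)
    exact Int.not_isField h4
  · apply Module.finite_of_fg_torsion (S ⧸ m)
    intro x
    refine ⟨⟨(p : ℤ), ?_⟩, ?_⟩
    · rw [mem_nonZeroDivisors_iff_ne_zero]
      exact_mod_cast h2.ne'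
    · change (p : ℤ) • x = 0
      rw [zsmul_eq_mul]
      simp

theorem exists_maximal (I : Ideal ℤ[T;T⁻¹]) (r : ℤ[T;T⁻¹]) (hr : ∀ n : ℕ, r ^ n ∉ I) :
    ∃ m : Ideal ℤ[T;T⁻¹], m.IsMaximal ∧ I ≤ m ∧ r ∉ m ∧ Finite (ℤ[T;T⁻¹] ⧸ m) := by
  have hJ : IsJacobsonRing ℤ := jac_int
  have hft : Algebra.FiniteType ℤ ℤ[T;T⁻¹] := AddMonoidAlgebra.finiteType_of_fg ℤ ℤ
  have hJ2 : IsJacobsonRing ℤ[T;T⁻¹] := isJacobsonRing_of_finiteType (A := ℤ)
  have h1 : r ∉ I.jacobson := by
    rw [← Ideal.radical_eq_jacobson]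
    rintro ⟨n, hn⟩
    exact hr n hn
  rw [Ideal.jacobson, Ideal.mem_sInf] at h1
  push Not at h1
  obtain ⟨m, ⟨hIm, hm⟩, hrm⟩ := h1
  exact ⟨m, hm, hIm, hrm, residue_finite _ m⟩

end Pool.Agent.N62
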