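import Pool.Agent.N62.HEmb

set_option autoImplicit false

namespace Pool.Agent.N62

open Pool.Agent.H53R2
open scoped commutatorElement

theorem two_case (W : Set (FreeGroup ℕ)) {G : Type} [Group G] (hG : InVar W G) (D : Subgroup G)
    (t : G) (hD : Spread D t) (x y : G) (hx : x ∈ D) (hy : y ∈ D) (h : Two x y) :
    ∃ p : ℕ, p.Prime ∧ InVar W (HG p) := by
  set P := Subgroup.closure ({x, y, t} : Set G) with hP
  let x' : ↥P := ⟨x, Subgroup.subset_closure (by simp)⟩
  let y' : ↥P := ⟨y, Subgroup.subset_closure (by simp)⟩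
  let t' : ↥P := ⟨t, Subgroup.subset_closure (by simp)⟩
  have hgen : Subgroup.closure ({x', y', t'} : Set ↥P) = ⊤ := by
    rw [eq_top_iff]
    have h1 : Subgroup.closure (((↑) : ↥P → G) ⁻¹' ({x, y, t} : Set G)) = ⊤ :=
      Subgroup.closure_closure_coe_preimage
    rw [← h1]
    apply Subgroup.closure_mono
    rintro ⟨u, hu⟩ (h2 | h2 | h2)
    · left; exact Subtype.ext h2
    · right; left; exact Subtype.ext h2
    · right; right; exact Subtype.ext h2
  have hcj : ∀ (i : ℤ) (u : ↥P), ((cj t' i u : ↥P) : G) = cj t i u := by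
    intro i u
    unfold cj
    rw [Subgroup.coe_mul, Subgroup.coe_mul, Subgroup.coe_zpow, Subgroup.coe_zpow]
  have hc1 : ⁅x', y'⁆ ≠ 1 := fun h1 => h.1 (congrArg Subtype.val h1)
  obtain ⟨N, hNn, hcN, hNmax⟩ := exists_monolithic ⁅x', y'⁆ hc1
  let π : ↥P →* ↥P ⧸ N := QuotientGroup.mk' N
  have hπ : Function.Surjective π := QuotientGroup.mk'_surjective N
  have hcjπ : ∀ (i : ℤ) (u : ↥P), cj (π t') i (π u) = π (cj t' i u) := by
    intro i u
    unfold cj
    rw [map_mul, map_mul, map_zpow, map_zpow]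
  have htr : ∀ (u v : ↥P) (i : ℤ), (u : G) * cj t i v = cj t i v * u →
      π u * cj (π t') i (π v) = cj (π t') i (π v) * π u := by
    intro u v i huv
    rw [hcjπ, ← map_mul, ← map_mul]
    congr 1
    apply Subtype.ext
    rw [Subgroup.coe_mul, Subgroup.coe_mul, hcj]
    exact huv
  have hcom : ⁅π x', π y'⁆ = π ⁅x', y'⁆ := (map_commutatorElement π x' y').symm
  obtain ⟨p, hp, b, m, s, hrel⟩ := two_rel (π x') (π y') (π t') (by
      rw [eq_top_iff]
      have h1 : (⊤ : Subgroup (↥P ⧸ N)) = (⊤ : Subgroup ↥P).map π := by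
        rw [Subgroup.map_top_of_surjective _ hπ]
      rw [h1, ← hgen, MonoidHom.map_closure]
      apply Subgroup.closure_mono
      rintro _ ⟨u, (rfl | rfl | h2), rfl⟩
      · left; rfl
      · right; left; rfl
      · rw [Set.mem_singleton_iff] at h2
        subst h2
        right; right; rfl)
    (fun i hi => htr x' x' i (hD i hi x hx x hx))
    (fun i hi => htr y' y' i (hD i hi y hy y hy))
    (fun i hi => htr x' y' i (hD i hi x hx y hy)) (by
      refine ⟨?_, ?_, ?_⟩
      · rw [hcom]
        intro h1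
        exact hcN ((QuotientGroup.eq_one_iff _).1 h1)
      · rw [hcom, ← map_mul, ← map_mul]
        congr 1
        exact Subtype.ext h.2.1
      · rw [hcom, ← map_mul, ← map_mul]
        congr 1
        exact Subtype.ext h.2.2) (by
      intro M hMn hMne
      by_contra hcon
      rw [hcom] at hcon
      have h1 := hNmax (M.comap π) inferInstance (by
        intro u hu
        rw [Subgroup.mem_comap]
        have : π u = 1 := (QuotientGroup.eq_one_iff u).2 hu
        rw [this]; exact M.one_mem) hcon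
      apply hMne
      rw [eq_bot_iff]
      intro u hu
      obtain ⟨v, rfl⟩ := hπ u
      have h2 : v ∈ M.comap π := hu
      rw [h1] at h2
      exact (QuotientGroup.eq_one_iff v).2 h2)
  have : Fact p.Prime := ⟨hp⟩
  obtain ⟨Φ, hΦ⟩ := HG_embeds p b m s _ hrel
  exact ⟨p, hp, ((hG.subgroup P).quot N).of_injective Φ hΦ⟩

end Pool.Agent.N62
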